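import Pool.Agent.Helper5.MD.CritDefs

/-!
# MD-B1 : the block criterion gives a vertex

In block form `M = [[P, Q], [R, S]]`, `G = P⁻¹`, `X = R G`, `Y = G Q`, `S' = S - R G Q`.  For a variable `T`,
row operations (add `-X` times the first block row to the second one; multiply the first block row by `2^s G`) give
`det (2^s G) * det (1 - T 2^(-s) M) = det [[2^s G - T, -T Y], [-X, 1 - T 2^(-s) S']]`.
All entries are polynomials in `T` with coefficients in `ℤ_(2)`, and modulo `2` the matrix is
`[[-T, -T Y], [0, 1]]` (as `X ≡ 0`), with determinant `(-T)^n`.  So `u = det (2^s G)`.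
(`Matrix.charpolyRev M = det (1 - X • M.map C)`.)  To work modulo `2` one may use the ring hom from the subring
`{q | VG 0 q}` of `ℚ` (or `Localization.AtPrime`, or `ℤ_[2]`) to `ZMod 2`, or expand the determinant directly.
-/

open scoped Nat

namespace Pool.Agent.Helper5.MD

open Polynomial in
/-- the polynomials with coefficients in `ℤ_(2)` -/
private def b1O : Subring ℚ[X] where
  carrier := {f | ∀ m, VG 0 (f.coeff m)}
  mul_mem' := by
    intro f g hf hg m
    rw [Polynomial.coeff_mul]
    exact VG_sum _ _ _ fun x _ => by simpa using (hf x.1).mul (hg x.2)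
  one_mem' := by
    intro m
    rw [Polynomial.coeff_one]
    split_ifs
    · simpa using VG_int 1
    · exact VG_zero 0
  add_mem' := by
    intro f g hf hg m
    rw [Polynomial.coeff_add]
    exact (hf m).add (hg m)
  zero_mem' := by
    intro m
    rw [Polynomial.coeff_zero]
    exact VG_zero 0
  neg_mem' := by
    intro f hf m
    rw [Polynomial.coeff_neg]
    exact (hf m).neg

open Polynomial in
private theorem b1_mem_O {f : ℚ[X]} : f ∈ b1O ↔ ∀ m, VG 0 (f.coeff m) := Iff.rfl

open Polynomial in
/-- the ideal of the polynomials with even coefficients -/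
private def b1J : Ideal b1O where
  carrier := {f | ∀ m, VG 1 ((f : ℚ[X]).coeff m)}
  add_mem' := by
    intro f g hf hg m
    rw [Subring.coe_add, Polynomial.coeff_add]
    exact (hf m).add (hg m)
  zero_mem' := by
    intro m
    rw [Subring.coe_zero, Polynomial.coeff_zero]
    exact VG_zero 1
  smul_mem' := by
    intro f g hg m
    rw [smul_eq_mul, Subring.coe_mul, Polynomial.coeff_mul]
    exact VG_sum _ _ _ fun x _ => by simpa using (b1_mem_O.1 f.2 x.1).mul (hg x.2)

open Polynomial in
private theorem b1_mem_J {f : b1O} : f ∈ b1J ↔ ∀ m, VG 1 ((f : ℚ[X]).coeff m) := Iff.rfl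

open Polynomial in
/-- the determinants of two integral matrices which are congruent modulo two are congruent -/
private theorem b1_det_congr {N : ℕ} (W B : Matrix (Fin N) (Fin N) ℚ[X])
    (hB : ∀ i j, ∀ m, VG 0 ((B i j).coeff m)) (hWB : ∀ i j, ∀ m, VG 1 ((W i j - B i j).coeff m)) :
    ∀ m, VG 1 ((W.det - B.det).coeff m) := by
  have hW : ∀ i j, W i j ∈ b1O := by
    intro i j
    have h1 : W i j = (W i j - B i j) + B i j := by ring
    rw [h1]
    exact b1O.add_mem (fun m => (hWB i j m).mono (by norm_num)) (hB i j)
  set W' : Matrix (Fin N) (Fin N) b1O := Matrix.of fun i j => ⟨W i j, hW i j⟩ with hW'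
  set B' : Matrix (Fin N) (Fin N) b1O := Matrix.of fun i j => ⟨B i j, hB i j⟩ with hB'
  have h1 : (Ideal.Quotient.mk b1J).mapMatrix W' = (Ideal.Quotient.mk b1J).mapMatrix B' := by
    ext i j
    show Ideal.Quotient.mk b1J (W' i j) = Ideal.Quotient.mk b1J (B' i j)
    rw [Ideal.Quotient.eq, b1_mem_J]
    exact hWB i j
  have h2 : Ideal.Quotient.mk b1J W'.det = Ideal.Quotient.mk b1J B'.det := by
    rw [RingHom.map_det, RingHom.map_det, h1]
  rw [Ideal.Quotient.eq, b1_mem_J] at h2
  have h3 : ((W'.det : b1O) : ℚ[X]) = W.det := by
    have := RingHom.map_det b1O.subtype W'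
    exact this
  have h4 : ((B'.det : b1O) : ℚ[X]) = B.det := by
    have := RingHom.map_det b1O.subtype B'
    exact this
  intro m
  have h5 := h2 m
  have h6 : ((W'.det - B'.det : b1O) : ℚ[X]) = W.det - B.det := by
    rw [← h3, ← h4]
    rfl
  rwa [h6] at h5

private theorem b1_inv {N n : ℕ} (M G : Matrix (Fin N) (Fin N) ℚ)
    (h : ∀ i j : Fin N, i.val < n → j.val < n →
      (∑ c : Fin N, if c.val < n then M i c * G c j else 0) = if i = j then 1 else 0) :
    ∀ i j : Fin N, i.val < n → j.val < n →
      (∑ c : Fin N, if c.val < n then G i c * M c j else 0) = if i = j then 1 else 0 := by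
  set M' : Matrix (Fin N) (Fin N) ℚ := Matrix.of fun i j =>
    if i.val < n then (if j.val < n then M i j else 0) else (if i = j then 1 else 0) with hM'
  set G' : Matrix (Fin N) (Fin N) ℚ := Matrix.of fun i j =>
    if i.val < n then (if j.val < n then G i j else 0) else (if i = j then 1 else 0) with hG'
  have key : ∀ (A B : Matrix (Fin N) (Fin N) ℚ) (i j : Fin N), i.val < n →
      ((Matrix.of fun i j : Fin N => if i.val < n then (if j.val < n then A i j else 0) else
        (if i = j then 1 else 0)) * (Matrix.of fun i j : Fin N => if i.val < n then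
        (if j.val < n then B i j else 0) else (if i = j then 1 else 0))) i j =
      if j.val < n then (∑ c : Fin N, if c.val < n then A i c * B c j else 0) else (0 : ℚ) := by
    intro A B i j hi
    rw [Matrix.mul_apply]
    simp only [Matrix.of_apply, if_pos hi]
    by_cases hj : j.val < n
    · rw [if_pos hj]
      refine Finset.sum_congr rfl fun c _ => ?_
      by_cases hc : c.val < n
      · rw [if_pos hc, if_pos hc, if_pos hj, if_pos hc]
      · rw [if_neg hc, if_neg hc, zero_mul, if_neg hc]
    · rw [if_neg hj]
      refine Finset.sum_eq_zero fun c _ => ?_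
      by_cases hc : c.val < n
      · rw [if_pos hc, if_pos hc, if_neg hj, mul_zero]
      · rw [if_neg hc, zero_mul]
  have h1 : M' * G' = 1 := by
    ext i j
    by_cases hi : i.val < n
    · rw [key M G i j hi, Matrix.one_apply]
      by_cases hj : j.val < n
      · rw [if_pos hj]
        exact h i j hi hj
      · rw [if_neg hj, if_neg]
        rintro rfl
        exact hj hi
    · rw [Matrix.mul_apply]
      simp only [hM', Matrix.of_apply, if_neg hi, ite_mul, one_mul, zero_mul]
      rw [Finset.sum_ite_eq Finset.univ i, if_pos (Finset.mem_univ i)]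
      simp only [hG', Matrix.of_apply, if_neg hi]
      rw [Matrix.one_apply]
  have h2 : G' * M' = 1 := mul_eq_one_comm.1 h1
  intro i j hi hj
  have h3 := congrFun (congrFun h2 i) j
  rw [key G M i j hi, if_pos hj, Matrix.one_apply] at h3
  exact h3

open Polynomial in
theorem vertex_of_crit (N n : ℕ) (M : Matrix (Fin N) (Fin N) ℚ) (s : ℤ) (h : Crit N n M s) :
    VertexAt N n M s := by
  obtain ⟨hn, G, hPG, hG, hX, hY, hS⟩ := h
  have hGP := b1_inv M G hPG
  set XX : Fin N → Fin N → ℚ := fun i j => ∑ c : Fin N, if c.val < n then M i c * G c j else 0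
    with hXX
  set YY : Fin N → Fin N → ℚ := fun i j => ∑ c : Fin N, if c.val < n then G i c * M c j else 0
    with hYY
  set L0 : Matrix (Fin N) (Fin N) ℚ := Matrix.of fun i j =>
    if i.val < n then (if j.val < n then 2 ^ s * G i j else 0) else
      (if j.val < n then -XX i j else (if i = j then 1 else 0)) with hL0
  have h2 : ((2 : ℚ) ^ s) ≠ 0 := by positivity
  have h2s : ((2 : ℚ) ^ (-s)) * 2 ^ s = 1 := by
    rw [← zpow_add₀ two_ne_zero, neg_add_cancel, zpow_zero]
  -- the product with `M`
  have hLM1 : ∀ i j : Fin N, i.val < n → (L0 * M) i j = 2 ^ s * YY i j := by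
    intro i j hi
    rw [Matrix.mul_apply]
    simp only [hL0, hYY, Matrix.of_apply, if_pos hi]
    rw [Finset.mul_sum]
    refine Finset.sum_congr rfl fun c _ => ?_
    split_ifs
    · ring
    · ring
  have hLM2 : ∀ i j : Fin N, ¬ i.val < n →
      (L0 * M) i j = M i j - ∑ c : Fin N, if c.val < n then XX i c * M c j else 0 := by
    intro i j hi
    rw [Matrix.mul_apply]
    simp only [hL0, Matrix.of_apply, if_neg hi]
    have h3 : ∀ c : Fin N, (if c.val < n then -XX i c else if i = c then (1 : ℚ) else 0) * M c j =
        (if i = c then M c j else 0) - (if c.val < n then XX i c * M c j else 0) := by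
      intro c
      by_cases hc : c.val < n
      · rw [if_pos hc, if_pos hc, if_neg]
        · ring
        · rintro rfl
          exact hi hc
      · rw [if_neg hc, if_neg hc]
        split_ifs <;> ring
    rw [Finset.sum_congr rfl fun c _ => h3 c, Finset.sum_sub_distrib,
      Finset.sum_ite_eq Finset.univ i, if_pos (Finset.mem_univ i)]
  have hLM3 : ∀ i j : Fin N, ¬ i.val < n → j.val < n → (L0 * M) i j = 0 := by
    intro i j hi hj
    rw [hLM2 i j hi]
    have h3 : (∑ c : Fin N, if c.val < n then XX i c * M c j else 0) =
        ∑ d : Fin N, if d.val < n then M i d * YY d j else 0 := by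
      have e1 : ∀ c : Fin N, (if c.val < n then XX i c * M c j else 0) =
          ∑ d : Fin N, if c.val < n ∧ d.val < n then M i d * G d c * M c j else 0 := by
        intro c
        by_cases hc : c.val < n
        · rw [if_pos hc, hXX]
          simp only
          rw [Finset.sum_mul]
          refine Finset.sum_congr rfl fun d _ => ?_
          by_cases hd : d.val < n
          · rw [if_pos hd, if_pos ⟨hc, hd⟩]
          · rw [if_neg hd, if_neg fun h => hd h.2, zero_mul]
        · rw [if_neg hc]
          exact (Finset.sum_eq_zero fun d _ => if_neg fun h => hc h.1).symm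
      have e2 : ∀ d : Fin N, (if d.val < n then M i d * YY d j else 0) =
          ∑ c : Fin N, if c.val < n ∧ d.val < n then M i d * G d c * M c j else 0 := by
        intro d
        by_cases hd : d.val < n
        · rw [if_pos hd, hYY]
          simp only
          rw [Finset.mul_sum]
          refine Finset.sum_congr rfl fun c _ => ?_
          by_cases hc : c.val < n
          · rw [if_pos hc, if_pos ⟨hc, hd⟩, mul_assoc]
          · rw [if_neg hc, if_neg fun h => hc h.1, mul_zero]
        · rw [if_neg hd]
          exact (Finset.sum_eq_zero fun c _ => if_neg fun h => hd h.2).symm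
      rw [Finset.sum_congr rfl fun c _ => e1 c, Finset.sum_congr rfl fun d _ => e2 d,
        Finset.sum_comm]
    rw [h3]
    have h4 : ∀ d : Fin N, (if d.val < n then M i d * YY d j else 0) =
        if j = d then M i d else 0 := by
      intro d
      by_cases hd : d.val < n
      · rw [if_pos hd, hYY]
        simp only
        rw [hGP d j hd hj]
        by_cases hdj : d = j
        · rw [if_pos hdj, if_pos hdj.symm, mul_one]
        · rw [if_neg hdj, if_neg (Ne.symm hdj), mul_zero]
      · rw [if_neg hd, if_neg]
        rintro rfl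
        exact hd hj
    rw [Finset.sum_congr rfl fun d _ => h4 d, Finset.sum_ite_eq Finset.univ j,
      if_pos (Finset.mem_univ j), sub_self]
  have hLM4 : ∀ i j : Fin N, ¬ i.val < n → ¬ j.val < n → VG (s + 1) ((L0 * M) i j) := by
    intro i j hi hj
    rw [hLM2 i j hi]
    have h3 : (∑ c : Fin N, if c.val < n then XX i c * M c j else 0) =
        ∑ c : Fin N, ∑ d : Fin N,
          if c.val < n ∧ d.val < n then M i c * G c d * M d j else 0 := by
      rw [Finset.sum_comm]
      refine Finset.sum_congr rfl fun c _ => ?_
      by_cases hc : c.val < n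
      · rw [if_pos hc, hXX]
        simp only
        rw [Finset.sum_mul]
        refine Finset.sum_congr rfl fun d _ => ?_
        by_cases hd : d.val < n
        · rw [if_pos hd, if_pos ⟨hd, hc⟩]
        · rw [if_neg hd, if_neg fun h => hd h.1, zero_mul]
      · rw [if_neg hc]
        exact (Finset.sum_eq_zero fun d _ => if_neg fun h => hc h.2).symm
    rw [h3]
    exact hS i j (not_lt.1 hi) (not_lt.1 hj)
  -- the polynomial matrices
  set W : Matrix (Fin N) (Fin N) ℚ[X] :=
    L0.map C * (1 - (X : ℚ[X]) • (((2 : ℚ) ^ (-s)) • M).map C) with hW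
  have hWent : ∀ i j, W i j = C (L0 i j) - X * C (2 ^ (-s) * (L0 * M) i j) := by
    intro i j
    have e1 : W = L0.map C - (X : ℚ[X]) • (((2 : ℚ) ^ (-s)) • (L0 * M)).map C := by
      rw [hW, mul_sub, mul_one, Matrix.mul_smul, ← Matrix.map_mul, Matrix.mul_smul]
    rw [e1]
    simp only [Matrix.sub_apply, Matrix.map_apply, Matrix.smul_apply, smul_eq_mul]
  set B : Matrix (Fin N) (Fin N) ℚ[X] := Matrix.of fun i j =>
    if i.val < n then (if j.val < n then (if i = j then -X else 0) else -(X * C (YY i j))) else
      (if i = j then 1 else 0) with hB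
  have hB0 : ∀ i j, ∀ m, VG 0 ((B i j).coeff m) := by
    intro i j m
    by_cases hi : i.val < n
    · by_cases hj : j.val < n
      · by_cases hij : i = j
        · have e : B i j = -X := by simp only [hB, Matrix.of_apply, if_pos hi, if_pos hj, if_pos hij]
          rw [e, coeff_neg, coeff_X]
          split_ifs
          · simpa using VG_int (-1)
          · simpa using VG_zero 0
        · have e : B i j = 0 := by simp only [hB, Matrix.of_apply, if_pos hi, if_pos hj, if_neg hij]
          rw [e, coeff_zero]
          exact VG_zero 0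
      · have e : B i j = -(X * C (YY i j)) := by
          simp only [hB, Matrix.of_apply, if_pos hi, if_neg hj]
        rw [e, coeff_neg, coeff_mul_C, coeff_X]
        refine VG.neg ?_
        split_ifs
        · rw [one_mul]
          exact hY i j hi (not_lt.1 hj)
        · rw [zero_mul]
          exact VG_zero 0
    · have e : B i j = if i = j then 1 else 0 := by
        simp only [hB, Matrix.of_apply, if_neg hi]
      rw [e]
      split_ifs
      · rw [coeff_one]
        split_ifs
        · simpa using VG_int 1
        · exact VG_zero 0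
      · rw [coeff_zero]
        exact VG_zero 0
  have hVC : ∀ (q : ℚ) (m : ℕ), VG 1 q → VG 1 ((C q : ℚ[X]).coeff m) := by
    intro q m hq
    rw [coeff_C]
    split_ifs
    · exact hq
    · exact VG_zero 1
  have hWB : ∀ i j, ∀ m, VG 1 ((W i j - B i j).coeff m) := by
    intro i j m
    rw [hWent i j]
    by_cases hi : i.val < n
    · rw [hLM1 i j hi]
      by_cases hj : j.val < n
      · have e1 : L0 i j = 2 ^ s * G i j := by
          simp only [hL0, Matrix.of_apply, if_pos hi, if_pos hj]
        have e2 : B i j = -(X * C (if i = j then 1 else 0)) := by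
          simp only [hB, Matrix.of_apply, if_pos hi, if_pos hj]
          split_ifs
          · rw [C_1, mul_one]
          · rw [C_0, mul_zero, neg_zero]
        have e3 : YY i j = if i = j then 1 else 0 := hGP i j hi hj
        rw [e1, e2, e3, ← mul_assoc, h2s, one_mul, sub_neg_eq_add, sub_add_cancel]
        refine hVC _ _ ?_
        have := (VG_two_zpow s).mul (hG i j hi hj)
        have e4 : s + (1 - s) = 1 := by ring
        rwa [e4] at this
      · have e1 : L0 i j = 0 := by
          simp only [hL0, Matrix.of_apply, if_pos hi, if_neg hj]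
        have e2 : B i j = -(X * C (YY i j)) := by
          simp only [hB, Matrix.of_apply, if_pos hi, if_neg hj]
        rw [e1, e2, ← mul_assoc, h2s, one_mul, C_0, zero_sub, sub_neg_eq_add, neg_add_cancel,
          coeff_zero]
        exact VG_zero 1
    · have e2 : B i j = if i = j then 1 else 0 := by
        simp only [hB, Matrix.of_apply, if_neg hi]
      by_cases hj : j.val < n
      · have e1 : L0 i j = -XX i j := by
          simp only [hL0, Matrix.of_apply, if_neg hi, if_pos hj]
        rw [hLM3 i j hi hj, e1, e2, if_neg, mul_zero, C_0, mul_zero, sub_zero, sub_zero]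
        · exact hVC _ _ (hX i j (not_lt.1 hi) hj).neg
        · rintro rfl
          exact hi hj
      · have e1 : L0 i j = if i = j then 1 else 0 := by
          simp only [hL0, Matrix.of_apply, if_neg hi, if_neg hj]
        have e3 : (C (if i = j then (1 : ℚ) else 0) : ℚ[X]) = if i = j then 1 else 0 := by
          split_ifs
          · exact C_1
          · exact C_0
        rw [e1, e2, e3, sub_sub_cancel_left, coeff_neg, coeff_mul_C, coeff_X]
        refine VG.neg ?_
        split_ifs
        · rw [one_mul]
          have := (VG_two_zpow (-s)).mul (hLM4 i j hi hj)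
          have e4 : -s + (s + 1) = 1 := by ring
          rwa [e4] at this
        · rw [zero_mul]
          exact VG_zero 1
  have hdet := b1_det_congr W B hB0 hWB
  -- the determinant of `B`
  have hBdet : B.det = (-X) ^ n := by
    have htri : B.IsUpperTriangular := by
      intro i j hij
      have hij' : j < i := hij
      have hne : i ≠ j := hij'.ne'
      by_cases hi : i.val < n
      · have hj : j.val < n := lt_trans hij' hi
        simp only [hB, Matrix.of_apply, if_pos hi, if_pos hj, if_neg hne]
      · simp only [hB, Matrix.of_apply, if_neg hi, if_neg hne]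
    rw [Matrix.det_of_isUpperTriangular htri]
    have e : ∀ i : Fin N, B i i = if i.val < n then -X else 1 := by
      intro i
      by_cases hi : i.val < n
      · simp only [hB, Matrix.of_apply, if_pos hi, if_true]
      · simp only [hB, Matrix.of_apply, if_neg hi, if_true]
    rw [Finset.prod_congr rfl fun i _ => e i, Finset.prod_ite, Finset.prod_const_one, mul_one,
      Finset.prod_const, Fin.card_filter_val_lt, min_eq_right hn]
  have hWdet : W.det = C L0.det * (((2 : ℚ) ^ (-s)) • M).charpolyRev := by
    rw [hW, Matrix.det_mul, Matrix.charpolyRev]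
    congr 1
    have := RingHom.map_det (C : ℚ →+* ℚ[X]) L0
    rw [this]
    rfl
  have hcoef : ∀ m, L0.det * (((2 : ℚ) ^ (-s)) • M).charpolyRev.coeff m = W.det.coeff m := by
    intro m
    rw [hWdet, coeff_C_mul]
  have hBcoef : ∀ m, B.det.coeff m = if m = n then (-1) ^ n else 0 := by
    intro m
    have e : ((-X) ^ n : ℚ[X]) = C ((-1) ^ n) * X ^ n := by
      rw [C_pow, C_neg, C_1, ← mul_pow, neg_one_mul]
    rw [hBdet, e, coeff_C_mul_X_pow]
  have h1v : padicValRat 2 (((-1 : ℚ)) ^ n) = 0 := by
    rcases neg_one_pow_eq_or ℚ n with h | h <;> rw [h]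
    · exact padicValRat.one
    · rw [padicValRat.neg, padicValRat.one]
  have hnot : ¬ VG 1 ((-1 : ℚ) ^ n) := by
    rintro (h | h)
    · exact absurd h (pow_ne_zero n (by norm_num))
    · rw [h1v] at h
      norm_num at h
  refine ⟨L0.det, fun m hm => ?_, ?_, ?_⟩
  · rw [hcoef]
    have h3 := hdet m
    rw [coeff_sub, hBcoef, if_neg hm, sub_zero] at h3
    exact h3
  · rw [hcoef]
    intro h0
    have h3 := hdet n
    rw [coeff_sub, hBcoef, if_pos rfl, h0, zero_sub] at h3
    have h4 := h3.neg
    rw [neg_neg] at h4
    exact hnot h4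
  · rw [hcoef]
    have h3 := hdet n
    rw [coeff_sub, hBcoef, if_pos rfl] at h3
    have hne1 : ¬ VG 1 (W.det.coeff n) := by
      intro h5
      have h6 := h5.sub h3
      rw [sub_sub_cancel] at h6
      exact hnot h6
    have h0 : VG 0 (W.det.coeff n) := by
      have h5 : VG 0 ((-1 : ℚ) ^ n) := Or.inr h1v.ge
      have h6 := (h3.mono (by norm_num : (0 : ℤ) ≤ 1)).add h5
      rwa [sub_add_cancel] at h6
    rcases h0 with h0 | h0
    · exact absurd (Or.inl h0) hne1
    · refine le_antisymm ?_ h0
      by_contra h7
      exact hne1 (Or.inr (by omega))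

end Pool.Agent.Helper5.MD
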