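import Pool.Agent.Helper5.MD.CritDefs

/-!
# MD-B2 : a vertex counts eigenvalues

`v` is any valuation on `ℂ` with `v 2 < 1` (so `v q ≤ 1` for `VG 0 q`, `v q < 1` for `VG 1 q`, `v q = 1` if `padicValRat 2 q = 0`).
Let `α_i` be the roots of the characteristic polynomial over `ℂ`, `β_i = 2^(-s) α_i`; `charpolyRev = ∏ (1 - β_i T)`.
Let `I = {i : v β_i > 1}`.  `∏_(i ∈ I) β_i⁻¹ * ∏ (1 - β_i T) = ∏_I (β_i⁻¹ - T) ∏_(i ∉ I) (1 - β_i T)` has coefficients in the
valuation ring and reduction `(-T)^|I| ∏_(v β_i = 1) (1 - β̄_i T) ≠ 0`; comparing with `u * charpolyRev`, whose reduction is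
(nonzero constant) * `T^n`, one gets `|I| = n` and that no `β_i` has `v β_i = 1`.
-/

open scoped Nat
open Polynomial

namespace Pool.Agent.Helper5.MD

namespace B2

theorem reverse_X_sub_C_aux (a : ℂ) : (X - C a : ℂ[X]).reverse = 1 - C a * X := by
  have h : (X - C a : ℂ[X]) = 1 * X + C (-a) := by simp [sub_eq_add_neg]
  rw [h, reverse_add_C, reverse_mul_X]
  simp [sub_eq_add_neg]
  rw [← C_1, reverse_C]

theorem reverse_prod_aux (S : Multiset ℂ) :
    ((S.map (fun a => (X - C a : ℂ[X]))).prod).reverse = (S.map (fun a => (1 - C a * X : ℂ[X]))).prod := by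
  induction S using Multiset.induction_on with
  | empty => simp; rw [← C_1, reverse_C]
  | cons a S ih =>
    rw [Multiset.map_cons, Multiset.prod_cons, reverse_mul_of_domain, ih, reverse_X_sub_C_aux,
      Multiset.map_cons, Multiset.prod_cons]

theorem charpolyRev_eq_prod_aux {N : ℕ} (A : Matrix (Fin N) (Fin N) ℂ) :
    A.charpolyRev = (A.charpoly.roots.map (fun a => (1 - C a * X : ℂ[X]))).prod := by
  rw [← reverse_prod_aux, ← Matrix.reverse_charpoly]
  congr 1
  exact (IsAlgClosed.splits A.charpoly).eq_prod_roots_of_monic A.charpoly_monic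

theorem charpolyRev_smul_aux {R : Type*} [CommRing R] {N : ℕ} (c : R) (A : Matrix (Fin N) (Fin N) R) :
    (c • A).charpolyRev = A.charpolyRev.comp (C c * X) := by
  have h : ∀ p : R[X], p.comp (C c * X) = (compRingHom (C c * X)) p := fun p => rfl
  rw [h]
  unfold Matrix.charpolyRev
  rw [RingHom.map_det]
  congr 1
  ext1 i j
  rw [RingHom.mapMatrix_apply, Matrix.map_apply, Matrix.sub_apply, Matrix.sub_apply, map_sub,
    Matrix.smul_apply, Matrix.smul_apply, Matrix.map_apply, Matrix.map_apply, Matrix.smul_apply,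
    smul_eq_mul, smul_eq_mul, smul_eq_mul, coe_compRingHom_apply, coe_compRingHom_apply, mul_comp,
    X_comp, C_comp, C_mul, Matrix.one_apply]
  congr 1
  · split_ifs <;> simp
  · ring

theorem charpolyRev_map_aux {R S : Type*} [CommRing R] [CommRing S] {N : ℕ} (f : R →+* S)
    (A : Matrix (Fin N) (Fin N) R) :
    (A.map f).charpolyRev = A.charpolyRev.map f := by
  rw [← coe_mapRingHom]
  unfold Matrix.charpolyRev
  rw [RingHom.map_det]
  congr 1
  ext1 i j
  rw [RingHom.mapMatrix_apply, Matrix.map_apply, Matrix.sub_apply, Matrix.sub_apply, map_sub,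
    Matrix.smul_apply, Matrix.smul_apply, Matrix.map_apply, Matrix.map_apply, Matrix.map_apply,
    smul_eq_mul, smul_eq_mul, coe_mapRingHom, Polynomial.map_mul, map_X, map_C, Matrix.one_apply,
    Matrix.one_apply]
  congr 1
  split_ifs <;> simp

theorem charpolyRev_final_aux {N : ℕ} (M : Matrix (Fin N) (Fin N) ℚ) (s : ℤ) :
    (((2 : ℚ) ^ (-s)) • M).charpolyRev.map (algebraMap ℚ ℂ) =
      (((M.map (algebraMap ℚ ℂ)).charpoly.roots).map
        (fun a => (1 - C ((2 : ℂ) ^ (-s) * a) * X : ℂ[X]))).prod := by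
  rw [charpolyRev_smul_aux, Polynomial.map_comp, ← charpolyRev_map_aux, charpolyRev_eq_prod_aux]
  rw [Polynomial.multiset_prod_comp, Multiset.map_map]
  congr 1
  apply Multiset.map_congr rfl
  intro a _
  simp
  ring

section val

variable {Γ₀ : Type*} [LinearOrderedCommGroupWithZero Γ₀] (v : Valuation ℂ Γ₀)

theorem v_nat_le_aux (n : ℕ) : v (n : ℂ) ≤ 1 := by
  induction n with
  | zero => simp
  | succ n ih =>
    push_cast
    exact (v.map_add _ _).trans (max_le ih v.map_one.le)

theorem v_odd_aux (hv : v 2 < 1) (n : ℕ) (hn : ¬ 2 ∣ n) : v (n : ℂ) = 1 := by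
  obtain ⟨k, rfl⟩ : ∃ k, n = 2 * k + 1 := ⟨n / 2, by omega⟩
  push_cast
  rw [v.map_add_eq_of_lt_right, v.map_one]
  rw [v.map_one, v.map_mul]
  calc v 2 * v (k : ℂ) ≤ v 2 * 1 := by gcongr; exact v_nat_le_aux v k
    _ = v 2 := mul_one _
    _ < 1 := hv

theorem v_nat_aux (hv : v 2 < 1) (n : ℕ) (hn : n ≠ 0) :
    v (n : ℂ) = (v 2) ^ (padicValNat 2 n) := by
  obtain ⟨k, m, hm, hk⟩ := Nat.exists_eq_pow_mul_and_not_dvd hn 2 (by norm_num)
  have hp : padicValNat 2 n = k := by
    rw [hk]
    have hm0 : m ≠ 0 := by rintro rfl; simp at hm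
    have : Fact (Nat.Prime 2) := ⟨Nat.prime_two⟩
    rw [padicValNat.mul (by positivity) hm0, padicValNat.prime_pow,
      padicValNat.eq_zero_of_not_dvd hm, add_zero]
  rw [hp, hk]
  push_cast
  rw [v.map_mul, v.map_pow, v_odd_aux v hv m hm, mul_one]

theorem v_rat_aux (hv : v 2 < 1) (q : ℚ) (hq : q ≠ 0) :
    v (q : ℂ) = (v 2) ^ (padicValRat 2 q) := by
  have h2 : v (2 : ℂ) ≠ 0 := by
    rw [Ne, v.zero_iff]; norm_num
  have hn : v ((q.num : ℂ)) = (v 2) ^ (padicValNat 2 q.num.natAbs) := by
    rw [← v_nat_aux v hv _ (by simpa using hq)]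
    rcases Int.natAbs_eq q.num with h | h
    · conv_lhs => rw [h]
      simp
    · conv_lhs => rw [h]
      simp
  have hd : v ((q.den : ℂ)) = (v 2) ^ (padicValNat 2 q.den) := v_nat_aux v hv _ q.den_nz
  rw [Rat.cast_def, map_div₀, hn, hd]
  rw [padicValRat, padicValInt, zpow_sub₀ h2, zpow_natCast, zpow_natCast]

theorem v_VG1_aux (hv : v 2 < 1) (q : ℚ) (hq : VG 1 q) : v (q : ℂ) < 1 := by
  rcases hq with rfl | hq
  · simp
  by_cases h0 : q = 0
  · subst h0; simp
  rw [v_rat_aux v hv q h0]
  obtain ⟨n, hn⟩ := Int.eq_ofNat_of_zero_le (le_trans zero_le_one hq)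
  rw [hn, zpow_natCast]
  apply pow_lt_one₀ zero_le hv
  omega

theorem res_eq_zero_iff_aux (x : v.valuationSubring) :
    IsLocalRing.residue v.valuationSubring x = 0 ↔ v (x : ℂ) < 1 := by
  rw [IsLocalRing.residue_eq_zero_iff, IsLocalRing.mem_maximalIdeal, mem_nonunits_iff]
  have hx : v (x : ℂ) ≤ 1 := (Valuation.mem_valuationSubring_iff v _).1 x.2
  constructor
  · intro h
    refine lt_of_le_of_ne hx fun h1 => h ?_
    have hx0 : (x : ℂ) ≠ 0 := by
      intro h0
      rw [h0, map_zero] at h1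
      exact zero_ne_one h1
    refine IsUnit.of_mul_eq_one (⟨(x : ℂ)⁻¹, ?_⟩ : v.valuationSubring) ?_
    · rw [Valuation.mem_valuationSubring_iff, map_inv₀, h1, inv_one]
    · ext
      simp [hx0]
  · intro h hu
    obtain ⟨y, hy⟩ := hu.exists_right_inv
    have hy' : v (y : ℂ) ≤ 1 := (Valuation.mem_valuationSubring_iff v _).1 y.2
    have h1 : v (x : ℂ) * v (y : ℂ) = 1 := by
      rw [← map_mul, ← v.map_one]
      congr 1
      exact congrArg Subtype.val hy
    have h2 : v (x : ℂ) * v (y : ℂ) ≤ v (x : ℂ) := by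
      calc v (x : ℂ) * v (y : ℂ) ≤ v (x : ℂ) * 1 := by gcongr
        _ = _ := mul_one _
    rw [h1] at h2
    exact absurd h (not_lt.2 h2)

open Classical in
/-- a lift of `1 - a X`, up to a scalar, to the valuation ring -/
noncomputable def liftF (a : ℂ) : v.valuationSubring[X] :=
  if h : 1 < v a then
    C (⟨a⁻¹, by
      rw [Valuation.mem_valuationSubring_iff, map_inv₀]
      exact inv_le_one_of_one_le₀ h.le⟩ : v.valuationSubring) - X
  else 1 - C (⟨a, by
      rw [Valuation.mem_valuationSubring_iff]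
      exact not_lt.1 h⟩ : v.valuationSubring) * X

open Classical in
/-- the scalar -/
noncomputable def scF (a : ℂ) : ℂ := if 1 < v a then a⁻¹ else 1

theorem scF_ne_zero (a : ℂ) : scF v a ≠ 0 := by
  unfold scF
  split_ifs with h
  · intro h0
    rw [inv_eq_zero] at h0
    rw [h0, map_zero] at h
    exact absurd h (not_lt.2 zero_le)
  · exact one_ne_zero

theorem liftF_map (a : ℂ) :
    (liftF v a).map (v.valuationSubring.subtype) = C (scF v a) * (1 - C a * X) := by
  unfold liftF scF
  split_ifs with h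
  · have ha : a ≠ 0 := by
      rintro rfl
      rw [map_zero] at h
      exact absurd h (not_lt.2 zero_le)
    rw [Polynomial.map_sub, map_C, map_X, mul_sub, mul_one, ← mul_assoc, ← C_mul,
      inv_mul_cancel₀ ha, C_1, one_mul]
    rfl
  · simp

theorem liftF_res (a : ℂ) :
    (liftF v a).map (IsLocalRing.residue v.valuationSubring) ≠ 0 ∧
    ((liftF v a).map (IsLocalRing.residue v.valuationSubring)).natTrailingDegree =
      if 1 < v a then 1 else 0 := by
  unfold liftF
  split_ifs with h
  · have h0 : IsLocalRing.residue v.valuationSubring (⟨a⁻¹, by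
      rw [Valuation.mem_valuationSubring_iff, map_inv₀]
      exact inv_le_one_of_one_le₀ h.le⟩ : v.valuationSubring) = 0 := by
      rw [res_eq_zero_iff_aux]
      show v (a⁻¹) < 1
      rw [map_inv₀]
      exact inv_lt_one_of_one_lt₀ h
    rw [Polynomial.map_sub, map_C, map_X, h0, C_0, zero_sub]
    refine ⟨neg_ne_zero.2 X_ne_zero, ?_⟩
    rw [natTrailingDegree_neg]
    exact natTrailingDegree_X
  · set b : v.valuationSubring := ⟨a, by
      rw [Valuation.mem_valuationSubring_iff]
      exact not_lt.1 h⟩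
    have hc : ((1 - C b * X : v.valuationSubring[X]).map
        (IsLocalRing.residue v.valuationSubring)).coeff 0 = 1 := by
      simp
    refine ⟨fun h0 => ?_, ?_⟩
    · rw [h0] at hc
      simp at hc
    · rw [natTrailingDegree_eq_zero]
      right
      rw [hc]
      exact one_ne_zero

theorem liftF_prod (S : Multiset ℂ) :
    ((S.map (liftF v)).prod.map (IsLocalRing.residue v.valuationSubring)) ≠ 0 ∧
    ((S.map (liftF v)).prod.map (IsLocalRing.residue v.valuationSubring)).natTrailingDegree =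
      Multiset.card (S.filter (fun a => 1 < v a)) := by
  induction S using Multiset.induction_on with
  | empty => simp
  | cons a S ih =>
    rw [Multiset.map_cons, Multiset.prod_cons, Polynomial.map_mul]
    refine ⟨mul_ne_zero (liftF_res v a).1 ih.1, ?_⟩
    rw [natTrailingDegree_mul (liftF_res v a).1 ih.1, ih.2, (liftF_res v a).2]
    by_cases h : 1 < v a
    · rw [if_pos h, Multiset.filter_cons_of_pos (p := fun a => 1 < v a) _ h, Multiset.card_cons,
        add_comm]
    · rw [if_neg h, Multiset.filter_cons_of_neg (p := fun a => 1 < v a) _ h, zero_add]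

theorem liftF_prod_map (S : Multiset ℂ) :
    ((S.map (liftF v)).prod.map (v.valuationSubring.subtype)) =
      C ((S.map (scF v)).prod) * (S.map (fun a => (1 - C a * X : ℂ[X]))).prod := by
  induction S using Multiset.induction_on with
  | empty => simp
  | cons a S ih =>
    rw [Multiset.map_cons, Multiset.prod_cons, Polynomial.map_mul, ih, liftF_map, Multiset.map_cons,
      Multiset.prod_cons, Multiset.map_cons, Multiset.prod_cons, C_mul]
    ring

theorem card_filter_aux (S : Multiset ℂ) (u : ℂ) (n : ℕ)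
    (h1 : ∀ m, m ≠ n → v (u * (S.map (fun a => (1 - C a * X : ℂ[X]))).prod.coeff m) < 1)
    (h2 : v (u * (S.map (fun a => (1 - C a * X : ℂ[X]))).prod.coeff n) = 1) :
    Multiset.card (S.filter (fun a => 1 < v a)) = n := by
  set p : ℂ[X] := (S.map (fun a => (1 - C a * X : ℂ[X]))).prod with hp
  set Q : v.valuationSubring[X] := (S.map (liftF v)).prod with hQ
  set l : ℂ := (S.map (scF v)).prod with hl
  have hu : u ≠ 0 := by
    rintro rfl
    rw [zero_mul, map_zero] at h2
    exact zero_ne_one h2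
  have hvu : v u ≠ 0 := by rwa [Ne, v.zero_iff]
  have hl0 : l ≠ 0 := by
    rw [hl]
    apply Multiset.prod_ne_zero
    intro h
    obtain ⟨a, _, ha⟩ := Multiset.mem_map.1 h
    exact scF_ne_zero v a ha
  have hQc : ∀ m, ((Q.coeff m : v.valuationSubring) : ℂ) = l * p.coeff m := by
    intro m
    have := congrArg (fun q => q.coeff m) (liftF_prod_map v S)
    simp only [coeff_map, coeff_C_mul] at this
    exact this
  have hQv : ∀ m, v ((Q.coeff m : v.valuationSubring) : ℂ) = (v l / v u) * v (u * p.coeff m) := by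
    intro m
    rw [hQc, v.map_mul, v.map_mul]
    field_simp
  have hle : ∀ m, v ((Q.coeff m : v.valuationSubring) : ℂ) ≤ 1 := fun m =>
    (Valuation.mem_valuationSubring_iff v _).1 (Q.coeff m).2
  obtain ⟨hne, htd⟩ := liftF_prod v S
  rw [← hQ] at hne htd
  have hr : v l / v u = 1 := by
    apply le_antisymm
    · have := hle n
      rwa [hQv, h2, mul_one] at this
    · obtain ⟨m, hm⟩ : ∃ m, (Q.map (IsLocalRing.residue v.valuationSubring)).coeff m ≠ 0 := by
        by_contra hcon
        push Not at hcon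
        exact hne (Polynomial.ext fun m => by rw [hcon m, coeff_zero])
      rw [coeff_map, Ne, res_eq_zero_iff_aux, not_lt, hQv] at hm
      refine hm.trans ?_
      have h3 : v (u * p.coeff m) ≤ 1 := by
        by_cases hmn : m = n
        · rw [hmn, h2]
        · exact (h1 m hmn).le
      calc v l / v u * v (u * p.coeff m) ≤ v l / v u * 1 := by gcongr
        _ = v l / v u := mul_one _
  have hcn : (Q.map (IsLocalRing.residue v.valuationSubring)).coeff n ≠ 0 := by
    rw [coeff_map, Ne, res_eq_zero_iff_aux, hQv, hr, h2]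
    simp
  have hcm : ∀ m, m ≠ n → (Q.map (IsLocalRing.residue v.valuationSubring)).coeff m = 0 := by
    intro m hm
    rw [coeff_map, res_eq_zero_iff_aux, hQv, hr, one_mul]
    exact h1 m hm
  rw [← htd]
  by_contra hcon
  have h4 := hcm _ hcon
  have h5 : (Q.map (IsLocalRing.residue v.valuationSubring)).trailingCoeff ≠ 0 :=
    trailingCoeff_nonzero_iff_nonzero.2 hne
  exact h5 h4

end val

end B2

open B2 in
theorem card_roots_of_vertex {Γ₀ : Type*} [LinearOrderedCommGroupWithZero Γ₀]
    (v : Valuation ℂ Γ₀) (hv : v 2 < 1) (N n : ℕ) (M : Matrix (Fin N) (Fin N) ℚ) (s : ℤ)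
    (h : VertexAt N n M s) :
    Multiset.card ((M.map (algebraMap ℚ ℂ)).charpoly.roots.filter
      (fun α => v ((2 : ℂ) ^ s) < v α)) = n := by
  obtain ⟨u, h1, h2, h3⟩ := h
  set R := (M.map (algebraMap ℚ ℂ)).charpoly.roots with hR
  have hfin := charpolyRev_final_aux M s
  rw [← hR] at hfin
  have hprod : (R.map (fun a => (1 - C ((2 : ℂ) ^ (-s) * a) * X : ℂ[X]))).prod =
      ((R.map (fun a => (2 : ℂ) ^ (-s) * a)).map (fun a => (1 - C a * X : ℂ[X]))).prod := by
    rw [Multiset.map_map]
    rfl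
  rw [hprod] at hfin
  have hco : ∀ m, (u : ℂ) * ((R.map (fun a => (2 : ℂ) ^ (-s) * a)).map
      (fun a => (1 - C a * X : ℂ[X]))).prod.coeff m =
      ((u * (((2 : ℚ) ^ (-s)) • M).charpolyRev.coeff m : ℚ) : ℂ) := by
    intro m
    rw [← hfin, coeff_map]
    push_cast
    rfl
  have key := card_filter_aux v (R.map (fun a => (2 : ℂ) ^ (-s) * a)) (u : ℂ) n
    (fun m hm => by rw [hco]; exact v_VG1_aux v hv _ (h1 m hm))
    (by rw [hco, v_rat_aux v hv _ h2, h3, zpow_zero])
  rw [Multiset.filter_map, Multiset.card_map] at key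
  rw [← key]
  congr 1
  apply Multiset.filter_congr
  intro a _
  have h20 : v ((2 : ℂ) ^ s) ≠ 0 := by
    rw [Ne, v.zero_iff]
    exact zpow_ne_zero _ (by norm_num)
  simp only [Function.comp]
  rw [v.map_mul, zpow_neg, map_inv₀]
  rw [inv_mul_eq_div, one_lt_div₀ (zero_lt_iff.2 h20)]

end Pool.Agent.Helper5.MD
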