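import Mathlib

/-!
# MD-B3 : counting distinct values

Order `𝒢` increasingly; `t n < t n'` would contradict the cardinalities if `n < n'`; for consecutive elements
`n' < n` of `𝒢` the filter for `n` has more elements than that for `n'`, so some `α ∈ R` has `t n < v α ≤ t n'`.
These half open intervals are disjoint.

(Proof, helper25: `n ↦` the least value `v α` above `t n` is injective on `𝒢`.)
-/

namespace Pool.Agent.Helper5.MD

open Classical in
theorem card_values_of_card_filter {Γ₀ : Type*} [LinearOrder Γ₀] (R : Multiset ℂ) (v : ℂ → Γ₀)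
    (𝒢 : Finset ℕ) (h0 : ∀ n ∈ 𝒢, 1 ≤ n) (t : ℕ → Γ₀)
    (h : ∀ n ∈ 𝒢, Multiset.card (R.filter (fun α => t n < v α)) = n) :
    𝒢.card ≤ ((R.filter (fun α => ∃ n ∈ 𝒢, t n < v α)).map v).toFinset.card := by
  -- for each `n ∈ 𝒢` there is a minimal element above `t n`
  have hex : ∀ n ∈ 𝒢, ∃ α ∈ R, t n < v α ∧ ∀ β ∈ R, t n < v β → v α ≤ v β := by
    intro n hn
    have hne : (((R.filter (fun α => t n < v α)).map v).toFinset).Nonempty := by
      rw [Finset.nonempty_iff_ne_empty]
      intro he
      have h1 := h n hn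
      have h2 := h0 n hn
      rw [Multiset.toFinset_eq_empty, Multiset.map_eq_zero] at he
      rw [he] at h1
      simp at h1
      omega
    obtain ⟨x, hx, hmin⟩ := Finset.exists_min_image _ (fun x => x) hne
    rw [Multiset.mem_toFinset, Multiset.mem_map] at hx
    obtain ⟨α, hα, rfl⟩ := hx
    rw [Multiset.mem_filter] at hα
    refine ⟨α, hα.1, hα.2, fun β hβ hβ' => ?_⟩
    apply hmin
    rw [Multiset.mem_toFinset, Multiset.mem_map]
    exact ⟨β, Multiset.mem_filter.2 ⟨hβ, hβ'⟩, rfl⟩
  choose! a haR hat hamin using hex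
  have key : ∀ n ∈ 𝒢, ∀ n' ∈ 𝒢, n < n' → v (a n') < v (a n) := by
    intro n hn n' hn' hlt
    -- `t n' < t n`
    have : ∃ α ∈ R, t n' < v α ∧ v α ≤ t n := by
      by_contra hcon
      push Not at hcon
      have hle : R.filter (fun α => t n' < v α) ≤ R.filter (fun α => t n < v α) := by
        rw [Multiset.le_filter]
        refine ⟨Multiset.filter_le _ _, fun α hα => ?_⟩
        rw [Multiset.mem_filter] at hα
        exact hcon α hα.1 hα.2
      have := Multiset.card_le_card hle
      rw [h n hn, h n' hn'] at this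
      omega
    obtain ⟨α, hα, h1, h2⟩ := this
    exact lt_of_le_of_lt ((hamin n' hn' α hα h1).trans h2) (hat n hn)
  apply Finset.card_le_card_of_injOn (fun n => v (a n))
  · intro n hn
    have hn' : n ∈ 𝒢 := hn
    simp only [Finset.mem_coe, Multiset.mem_toFinset, Multiset.mem_map, Multiset.mem_filter]
    exact ⟨a n, ⟨haR n hn', n, hn', hat n hn'⟩, rfl⟩
  · intro n hn n' hn' heq
    by_contra hne
    rcases lt_or_gt_of_ne hne with hlt | hlt
    · exact absurd heq (ne_of_gt (key n hn n' hn' hlt))
    · exact absurd heq (ne_of_lt (key n' hn' n hn hlt))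

end Pool.Agent.Helper5.MD
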