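import Mathlib

/-!
# MD-B4 : a valuation on `ℂ` with `v 2 < 1`

Extend the local ring `ℤ_(2)` (a local subring of `ℂ`) to a valuation subring dominating it
(`LocalSubring.exists_le_valuationSubring`), or use Chevalley's theorem.
-/

namespace Pool.Agent.Helper5.MD

theorem exists_valuation_two :
    ∃ A : ValuationSubring ℂ, A.valuation 2 < 1 := by
  set R : Subring ℂ := (Int.castRingHom ℂ).range with hR
  have h2 : (2 : ℂ) ∈ R := ⟨2, by simp⟩
  have hI : (Ideal.span {(⟨2, h2⟩ : R)} : Ideal R) ≠ ⊤ := by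
    rw [Ne, Ideal.eq_top_iff_one, Ideal.mem_span_singleton']
    rintro ⟨⟨a, n, hn⟩, ha⟩
    have h3 := congrArg (Subtype.val : R → ℂ) ha
    simp only [Subring.coe_mul, Subring.coe_one] at h3
    rw [← hn] at h3
    have h4 : ((n * 2 : ℤ) : ℂ) = ((1 : ℤ) : ℂ) := by
      push_cast
      simpa using h3
    have h5 : n * 2 = 1 := by exact_mod_cast h4
    omega
  obtain ⟨B, _, hB⟩ := Ideal.image_subset_nonunits_valuationSubring _ hI
  exact ⟨B, B.mem_nonunits_iff.1
    (hB ⟨⟨2, h2⟩, Ideal.subset_span (Set.mem_singleton _), rfl⟩)⟩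

end Pool.Agent.Helper5.MD
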