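import Pool.Agent.Helper5.MD.VGBasic

/-!
# MD-C1 : `lam * lamInv = 1` (Krattenthaler's matrix inverse)

With `c_v = v (κ - v)` and `a_v = (κ ^ 2 - v ^ 2) / 4` one has
`(κ - 2 w + v) (κ - 2 w - v) = 4 (a_v - c_w)` and `(v + 1 - w) (κ - w - v - 1) = c_(v+1) - c_w`, so
`lam κ i w = (D_i / D_w) * (∏ v in [w, i), (a_v - c_w)) / (∏ v in (w, i], (c_v - c_w))`,
`D_i = ∏_(v < i) 2 (κ - v - 1) / (2 v + 1)`, and
`lamInv κ w j = (D_w / D_j) * ((a_j - c_j) / (a_w - c_w)) * (∏ v in (j, w], (a_v - c_w)) / (∏ v in [j, w), (c_v - c_w))`.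
Hence for `j < i`
`∑_w lam κ i w * lamInv κ w j = (D_i / D_j) (a_j - c_j) * ∑_(w = j..i) (∏ v in (j, i), (a_v - c_w)) / (∏ v in [j, i], v ≠ w, (c_v - c_w))`,
(at `w = j` and `w = i` the formula is the same), and this is `±` the divided difference of the
polynomial `∏ v in (j, i), (a_v - X)` of degree `i - j - 1` at the `i - j + 1` distinct nodes
`c_j, ..., c_i`, hence `0`  (Mathlib: Lagrange interpolation, `Lagrange.nodal`, or a direct
induction).  The nodes are distinct since `c_u - c_v = (u - v) (κ - u - v)` and `u + v ≤ 2 i < κ`.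
All denominators are nonzero because `3 i < κ`.
-/

open scoped Nat

namespace Pool.Agent.Helper5.MD

/-- the nodes -/
noncomputable def c1c (κ : ℚ) (v : ℕ) : ℚ := v * (κ - v)

/-- the roots of the numerators -/
noncomputable def c1a (κ : ℚ) (v : ℕ) : ℚ := (κ ^ 2 - v ^ 2) / 4

/-- the common factor -/
noncomputable def c1r (κ : ℚ) (v : ℕ) : ℚ := 2 * (κ - v - 1) / (2 * v + 1)

theorem c1_sub (κ : ℚ) (u w : ℕ) : c1c κ u - c1c κ w = (u - w) * (κ - u - w) := by
  unfold c1c; ring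

theorem c1_asub (κ : ℚ) (v w : ℕ) : c1a κ v - c1c κ w = (κ - 2 * w + v) * (κ - 2 * w - v) / 4 := by
  unfold c1a c1c; ring

theorem c1_lam (κ i w : ℕ) (hwi : w ≤ i) (hi : 3 * i < κ) :
    lam κ i w = (∏ v ∈ Finset.Ico w i, c1r κ v) *
      ((∏ v ∈ Finset.Ico w i, (c1a κ v - c1c κ w)) /
        ∏ v ∈ Finset.Ico (w + 1) (i + 1), (c1c κ v - c1c κ w)) := by
  have h1 : ∏ v ∈ Finset.Ico (w + 1) (i + 1), (c1c κ v - c1c κ w) =
      ∏ v ∈ Finset.Ico w i, (c1c κ (v + 1) - c1c κ w) := by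
    rw [Finset.prod_Ico_add' (fun v => c1c κ v - c1c κ w) w i 1]
  rw [h1, lam, if_pos hwi, ← Finset.prod_div_distrib, ← Finset.prod_mul_distrib]
  refine Finset.prod_congr rfl fun v hv => ?_
  rw [Finset.mem_Ico] at hv
  rw [c1_sub, c1_asub, c1r]
  have e1 : ((v + 1 : ℕ) : ℚ) - w ≠ 0 := by
    have : (w : ℚ) ≤ v := by exact_mod_cast hv.1
    push_cast
    intro h
    linarith
  have e2 : (κ : ℚ) - ((v + 1 : ℕ) : ℚ) - w ≠ 0 := by
    have h2 : (w : ℚ) ≤ v := by exact_mod_cast hv.1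
    have h3 : (v : ℚ) + 1 ≤ i := by exact_mod_cast hv.2
    have h4 : 3 * (i : ℚ) < κ := by exact_mod_cast hi
    push_cast
    intro h
    have h5 : (0 : ℚ) ≤ w := Nat.cast_nonneg w
    linarith
  have e3 : (2 * (v : ℚ) + 1) ≠ 0 := by positivity
  push_cast at e1 e2 ⊢
  have e1' : (v : ℚ) - w + 1 ≠ 0 := by
    intro h; apply e1; linarith
  have e2' : (κ : ℚ) - w - v - 1 ≠ 0 := by
    intro h; apply e2; linarith
  have h6 : (v : ℚ) + 1 - w = v - w + 1 := by ring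
  have h7 : (κ : ℚ) - (v + 1) - w = κ - w - v - 1 := by ring
  rw [h6, h7]
  field_simp
  ring

theorem c1_lamInv (κ w j i : ℕ) (hjw : j ≤ w) (hwi : w ≤ i) (hi : 3 * i < κ) :
    lamInv κ w j = (∏ v ∈ Finset.Ico j w, c1r κ v) * ((c1a κ j - c1c κ j) / (c1a κ w - c1c κ w)) *
      ((∏ v ∈ Finset.Ico (j + 1) (w + 1), (c1a κ v - c1c κ w)) /
        ∏ v ∈ Finset.Ico j w, (c1c κ v - c1c κ w)) := by
  have h1 : ∏ v ∈ Finset.Ico (j + 1) (w + 1), (c1a κ v - c1c κ w) =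
      ∏ v ∈ Finset.Ico j w, (c1a κ (v + 1) - c1c κ w) := by
    rw [Finset.prod_Ico_add' (fun v => c1a κ v - c1c κ w) j w 1]
  have h4 : 3 * (i : ℚ) < κ := by exact_mod_cast hi
  have h5 : (w : ℚ) ≤ i := by exact_mod_cast hwi
  have h0 : (0 : ℚ) ≤ w := Nat.cast_nonneg w
  have hp : (κ : ℚ) - w ≠ 0 := by intro h; linarith
  have hq : (κ : ℚ) - 3 * w ≠ 0 := by intro h; linarith
  have h2 : (c1a κ j - c1c κ j) / (c1a κ w - c1c κ w) =
      (κ - j) * (κ - 3 * j) / ((κ - w) * (κ - 3 * w)) := by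
    rw [c1_asub, c1_asub]
    have e1 : ((κ : ℚ) - 2 * w + w) * (κ - 2 * w - w) / 4 = (κ - w) * (κ - 3 * w) / 4 := by ring
    have e2 : ((κ : ℚ) - 2 * j + j) * (κ - 2 * j - j) / 4 = (κ - j) * (κ - 3 * j) / 4 := by ring
    rw [e1, e2]
    field_simp
  rw [h1, h2, lamInv, if_pos hjw, mul_comm (∏ v ∈ Finset.Ico j w, c1r κ v), mul_assoc,
    ← Finset.prod_div_distrib, ← Finset.prod_mul_distrib]
  congr 1
  refine Finset.prod_congr rfl fun v hv => ?_
  rw [Finset.mem_Ico] at hv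
  rw [c1_sub, c1_asub, c1r]
  have hv' : (v : ℚ) + 1 ≤ w := by exact_mod_cast hv.2
  have e1 : (w : ℚ) - v ≠ 0 := by intro h; linarith
  have e1' : (v : ℚ) - w ≠ 0 := by intro h; linarith
  have e2 : (κ : ℚ) - v - w ≠ 0 := by intro h; linarith
  have e3 : (2 * (v : ℚ) + 1) ≠ 0 := by positivity
  push_cast
  have h8 : (w : ℚ) - v = -(v - w) := by ring
  rw [h8]
  field_simp
  ring

theorem c1_node_ne (κ u w i : ℕ) (huw : u ≠ w) (hu : u ≤ i) (hw : w ≤ i) (hi : 3 * i < κ) :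
    c1c κ u - c1c κ w ≠ 0 := by
  rw [c1_sub]
  have h1 : (u : ℚ) - w ≠ 0 := sub_ne_zero.2 (by exact_mod_cast huw)
  have h2 : (κ : ℚ) - u - w ≠ 0 := by
    have h4 : 3 * (i : ℚ) < κ := by exact_mod_cast hi
    have h5 : (w : ℚ) ≤ i := by exact_mod_cast hw
    have h6 : (u : ℚ) ≤ i := by exact_mod_cast hu
    have h7 : (0 : ℚ) ≤ u := Nat.cast_nonneg u
    intro h
    linarith
  exact mul_ne_zero h1 h2

theorem c1_a_ne (κ w i : ℕ) (hw : w ≤ i) (hi : 3 * i < κ) : c1a κ w - c1c κ w ≠ 0 := by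
  rw [c1_asub]
  have h4 : 3 * (i : ℚ) < κ := by exact_mod_cast hi
  have h5 : (w : ℚ) ≤ i := by exact_mod_cast hw
  have h0 : (0 : ℚ) ≤ w := Nat.cast_nonneg w
  have e1 : ((κ : ℚ) - 2 * w + w) ≠ 0 := by intro h; linarith
  have e2 : ((κ : ℚ) - 2 * w - w) ≠ 0 := by intro h; linarith
  exact div_ne_zero (mul_ne_zero e1 e2) (by norm_num)

theorem lam_mul_lamInv (κ i j : ℕ) (hj : 1 ≤ j) (hji : j ≤ i) (hi : 3 * i < κ) :
    ∑ w ∈ Finset.Icc j i, lam κ i w * lamInv κ w j = if i = j then 1 else 0 := by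
  rcases eq_or_lt_of_le hji with rfl | hlt
  · rw [if_pos rfl, Finset.Icc_self, Finset.sum_singleton, c1_lam κ j j le_rfl hi,
      c1_lamInv κ j j j le_rfl le_rfl hi]
    simp [div_self (c1_a_ne κ j j le_rfl hi)]
  rw [if_neg (by omega)]
  set P : Polynomial ℚ := ∏ v ∈ Finset.Ico (j + 1) i, (Polynomial.C (c1a κ v) - Polynomial.X) with hP
  have hdeg : P.natDegree ≤ i - (j + 1) := by
    refine (Polynomial.natDegree_prod_le _ _).trans ?_
    refine (Finset.sum_le_sum (g := fun _ => 1) fun v _ => ?_).trans (by simp)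
    exact (Polynomial.natDegree_sub_le _ _).trans (by simp)
  have hcard : (Finset.Icc j i).card = i - j + 1 := by
    rw [Nat.card_Icc]; omega
  have hinj : Set.InjOn (fun v : ℕ => c1c κ v) (Finset.Icc j i) := by
    intro u hu w hw huw
    by_contra hne
    simp only [Finset.coe_Icc, Set.mem_Icc] at hu hw
    exact c1_node_ne κ u w i hne hu.2 hw.2 hi (sub_eq_zero.2 huw)
  have hP' : P.degree < (Finset.Icc j i).card := by
    rw [hcard]
    refine lt_of_le_of_lt Polynomial.degree_le_natDegree ?_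
    exact_mod_cast (by omega : P.natDegree < i - j + 1)
  have hkey := Lagrange.coeff_eq_sum hinj hP'
  rw [hcard, Nat.add_sub_cancel, Polynomial.coeff_eq_zero_of_natDegree_lt (by omega)] at hkey
  have hmain : ∀ w ∈ Finset.Icc j i, lam κ i w * lamInv κ w j =
      ((∏ v ∈ Finset.Ico j i, c1r κ v) * (c1a κ j - c1c κ j) * (-1) ^ (i - j)) *
        (P.eval (c1c κ w) / ∏ u ∈ (Finset.Icc j i).erase w, (c1c κ w - c1c κ u)) := by
    intro w hw
    rw [Finset.mem_Icc] at hw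
    rw [c1_lam κ i w hw.2 hi, c1_lamInv κ w j i hw.1 hw.2 hi]
    have hr : (∏ v ∈ Finset.Ico j w, c1r κ v) * ∏ v ∈ Finset.Ico w i, c1r κ v =
        ∏ v ∈ Finset.Ico j i, c1r κ v := Finset.prod_Ico_consecutive _ hw.1 hw.2
    have hnum : (∏ v ∈ Finset.Ico w i, (c1a κ v - c1c κ w)) *
        ∏ v ∈ Finset.Ico (j + 1) (w + 1), (c1a κ v - c1c κ w) =
        (c1a κ w - c1c κ w) * ∏ v ∈ Finset.Ico (j + 1) i, (c1a κ v - c1c κ w) := by
      rcases eq_or_lt_of_le hw.2 with rfl | hwi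
      · rw [Finset.Ico_self, Finset.prod_empty, one_mul, Finset.prod_Ico_succ_top (by omega), mul_comm]
      · rw [Finset.prod_eq_prod_Ico_succ_bot hwi, mul_assoc, mul_comm (∏ v ∈ Finset.Ico (w + 1) i, _),
          Finset.prod_Ico_consecutive _ (by omega) (by omega)]
    have hset : (Finset.Icc j i).erase w = Finset.Ico j w ∪ Finset.Ico (w + 1) (i + 1) := by
      ext u
      simp only [Finset.mem_erase, Finset.mem_Icc, Finset.mem_union, Finset.mem_Ico]
      omega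
    have hdisj : Disjoint (Finset.Ico j w) (Finset.Ico (w + 1) (i + 1)) := by
      rw [Finset.disjoint_left]
      intro u hu hu'
      rw [Finset.mem_Ico] at hu hu'
      omega
    have hden : ∏ u ∈ (Finset.Icc j i).erase w, (c1c κ w - c1c κ u) =
        (-1) ^ (i - j) * ((∏ v ∈ Finset.Ico j w, (c1c κ v - c1c κ w)) *
          ∏ v ∈ Finset.Ico (w + 1) (i + 1), (c1c κ v - c1c κ w)) := by
      rw [← Finset.prod_union hdisj, ← hset]
      have h2 : ∀ u ∈ (Finset.Icc j i).erase w, c1c κ w - c1c κ u = (-1) * (c1c κ u - c1c κ w) :=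
        fun u _ => by ring
      rw [Finset.prod_congr rfl h2, Finset.prod_mul_distrib, Finset.prod_const,
        Finset.card_erase_of_mem (Finset.mem_Icc.2 hw), hcard]
      simp
    have heval : P.eval (c1c κ w) = ∏ v ∈ Finset.Ico (j + 1) i, (c1a κ v - c1c κ w) := by
      rw [hP, Polynomial.eval_prod]
      simp
    have hd1 : ∏ v ∈ Finset.Ico j w, (c1c κ v - c1c κ w) ≠ 0 := by
      refine Finset.prod_ne_zero_iff.2 fun v hv => ?_
      rw [Finset.mem_Ico] at hv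
      exact c1_node_ne κ v w i (by omega) (by omega) hw.2 hi
    have hd2 : ∏ v ∈ Finset.Ico (w + 1) (i + 1), (c1c κ v - c1c κ w) ≠ 0 := by
      refine Finset.prod_ne_zero_iff.2 fun v hv => ?_
      rw [Finset.mem_Ico] at hv
      exact c1_node_ne κ v w i (by omega) (by omega) hw.2 hi
    have ha : c1a κ w - c1c κ w ≠ 0 := c1_a_ne κ w i hw.2 hi
    rw [hden, heval, ← hr]
    have hs : ((-1 : ℚ) ^ (i - j)) ≠ 0 := pow_ne_zero _ (by norm_num)
    generalize (∏ v ∈ Finset.Ico j w, c1r κ v) = R1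
    generalize (∏ v ∈ Finset.Ico w i, c1r κ v) = R2
    generalize hA : (∏ v ∈ Finset.Ico w i, (c1a κ v - c1c κ w)) = A at hnum ⊢
    generalize hB : ∏ v ∈ Finset.Ico (j + 1) (w + 1), (c1a κ v - c1c κ w) = B at hnum ⊢
    generalize hC : ∏ v ∈ Finset.Ico (j + 1) i, (c1a κ v - c1c κ w) = Cc at hnum ⊢
    generalize (∏ v ∈ Finset.Ico j w, (c1c κ v - c1c κ w)) = D1 at hd1 ⊢
    generalize (∏ v ∈ Finset.Ico (w + 1) (i + 1), (c1c κ v - c1c κ w)) = D2 at hd2 ⊢
    generalize (-1 : ℚ) ^ (i - j) = E at hs ⊢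
    generalize c1a κ w - c1c κ w = a at ha hnum ⊢
    generalize c1a κ j - c1c κ j = b
    field_simp
    linear_combination (R1 * R2 * b) * hnum
  rw [Finset.sum_congr rfl hmain, ← Finset.mul_sum, ← hkey, mul_zero]

end Pool.Agent.Helper5.MD
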