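import Pool.Agent.Helper5.MD.VGBasic

/-!
# MD-C2 : `muInv * mu = 1` (Krattenthaler's matrix inverse)

With `c_v = v (κ - v)`, `4 c_w - v (2 κ - v) = (2 w - v) (2 κ - 2 w - v)` and
`(v + 1 - w) (κ - w - v - 1) = c_(v+1) - c_w`.  So `mu κ w j` has the form
`(E_j / E_w) * (2 κ - 3 j) / (2 κ - 3 w) * (∏ v in [w, j), (e_v - c_w)) / (∏ v in (w, j], (c_v - c_w))` with
`e_v = v (2 κ - v) / 4`, `E_j = ∏_(v < j) 2 (v + 1) / (2 κ - 2 v - 1)`, and
`muInv κ j s` (note `(2 s - v - 1) (2 κ - 2 s - v - 1) = 4 (c_s - e_(v+1))`)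
has the form `E_s / E_j * (...)`; the sum `∑_w muInv κ j w * mu κ w s` for `j < s` is again a
divided difference of a polynomial of degree `s - j - 1` at the `s - j + 1` distinct nodes
`c_j, ..., c_s`, hence `0`.  (Krattenthaler, A new matrix inverse.)
One checks that for `j < s` the `w`-dependence of `muInv κ j w * mu κ w s` is
`∏ v in (j, s), (e_v - c_w) / ∏ v in [j, s], v ≠ w, (c_v - c_w)` up to a constant and a sign.
-/

open scoped Nat

namespace Pool.Agent.Helper5.MD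


/-- the nodes -/
private noncomputable def cc (κ : ℚ) (v : ℕ) : ℚ := v * (κ - v)

private noncomputable def ee (κ : ℚ) (v : ℕ) : ℚ := v * (2 * κ - v) / 4

private noncomputable def DD (κ : ℚ) (v : ℕ) : ℚ := 2 / (2 * κ - 2 * v - 1)

private lemma muInv_eq (κ : ℚ) {j w : ℕ} (h : j ≤ w) :
    muInv κ j w = (∏ v ∈ Finset.Ico j w, (v : ℚ)) * (∏ v ∈ Finset.Ico j w, DD κ v) *
      (∏ v ∈ Finset.Ico j w, (cc κ w - ee κ (v + 1))) /
        (∏ v ∈ Finset.Ico j w, (cc κ w - cc κ v)) := by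
  unfold muInv
  rw [if_pos h, ← Finset.prod_mul_distrib, ← Finset.prod_mul_distrib, ← Finset.prod_div_distrib]
  refine Finset.prod_congr rfl fun v _ => ?_
  have h1 : ((w : ℚ) - v) * (κ - w - v) = cc κ w - cc κ v := by
    unfold cc; ring
  have h2 : (2 * (w : ℚ) - v - 1) * (2 * κ - 2 * w - v - 1) = 4 * (cc κ w - ee κ (v + 1)) := by
    unfold cc ee; push_cast; ring
  rw [mul_assoc (v : ℚ), h2, mul_assoc (2 * (2 * κ - 2 * v - 1)), h1]
  unfold DD
  rw [div_eq_mul_inv, div_eq_mul_inv, div_eq_mul_inv, mul_inv, mul_inv]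
  ring

private lemma mu_eq (κ : ℚ) {w s : ℕ} (h : w ≤ s) :
    mu κ w s = (2 * κ - 3 * s) / (2 * κ - 3 * w) *
      ((∏ v ∈ Finset.Ico w s, ((v + 1 : ℕ) : ℚ)) * (∏ v ∈ Finset.Ico w s, DD κ v) *
      (∏ v ∈ Finset.Ico w s, (cc κ w - ee κ v)) /
        (∏ v ∈ Finset.Ico w s, (cc κ w - cc κ (v + 1)))) := by
  unfold mu
  rw [if_pos h, ← Finset.prod_mul_distrib, ← Finset.prod_mul_distrib, ← Finset.prod_div_distrib]
  congr 1
  refine Finset.prod_congr rfl fun v _ => ?_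
  have h1 : ((v : ℚ) - w + 1) * (κ - w - v - 1) = -(cc κ w - cc κ (v + 1)) := by
    unfold cc; push_cast; ring
  have h2 : (2 * (w : ℚ) - v) * (2 * κ - 2 * w - v) = 4 * (cc κ w - ee κ v) := by
    unfold cc ee; ring
  rw [mul_assoc (-((v : ℚ) + 1)), h2, mul_assoc (2 * (2 * κ - 2 * v - 1)), h1]
  unfold DD
  rw [div_eq_mul_inv, div_eq_mul_inv, div_eq_mul_inv, mul_inv, mul_inv, inv_neg]
  push_cast
  ring

private lemma prod_comb1 (F : ℕ → ℚ) {j w s : ℕ} (h1 : j ≤ w) (h2 : w ≤ s) :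
    F w * ((∏ v ∈ Finset.Ico j w, F v) * ∏ v ∈ Finset.Ico w s, F (v + 1)) =
      ∏ v ∈ Finset.Icc j s, F v := by
  rw [Finset.prod_Ico_add' F w s 1]
  have h3 : Finset.Icc j s = Finset.Ico j (s + 1) := by
    ext
    rw [Finset.mem_Icc, Finset.mem_Ico]
    omega
  rw [h3, ← Finset.prod_Ico_consecutive F h1 (by omega : w ≤ s + 1),
    Finset.prod_eq_prod_Ico_succ_bot (by omega : w < s + 1)]
  ring

private lemma prod_comb2 (F : ℕ → ℚ) {j w s : ℕ} (h1 : j ≤ w) (h2 : w ≤ s) (h3 : j < s) :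
    (∏ v ∈ Finset.Ico j w, F (v + 1)) * (∏ v ∈ Finset.Ico w s, F v) =
      F w * ∏ v ∈ Finset.Ioo j s, F v := by
  rw [Finset.prod_Ico_add' F j w 1]
  have h4 : Finset.Ioo j s = Finset.Ico (j + 1) s := by
    ext
    rw [Finset.mem_Ioo, Finset.mem_Ico]
    omega
  rw [h4]
  rcases h2.eq_or_lt with h | h
  · subst h
    rw [Finset.prod_Ico_succ_top (by omega : j + 1 ≤ w)]
    simp
    ring
  · rw [Finset.prod_eq_prod_Ico_succ_bot h,
      ← Finset.prod_Ico_consecutive F (by omega : j + 1 ≤ w + 1) (by omega : w + 1 ≤ s)]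
    ring

private lemma prod_comb3 (F : ℕ → ℚ) {j w s : ℕ} (h1 : j ≤ w) (h2 : w ≤ s) :
    (∏ v ∈ Finset.Ico j w, F v) * (∏ v ∈ Finset.Ico w s, F (v + 1)) =
      ∏ v ∈ (Finset.Icc j s).erase w, F v := by
  rw [Finset.prod_Ico_add' F w s 1]
  have h3 : (Finset.Icc j s).erase w = Finset.Ico j w ∪ Finset.Ico (w + 1) (s + 1) := by
    ext; simp; omega
  rw [h3, Finset.prod_union]
  rw [Finset.disjoint_left]
  intro a
  simp
  omega

private lemma term_eq (κ : ℚ) {j w s : ℕ} (h1 : j ≤ w) (h2 : w ≤ s) (h3 : j < s)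
    (hw : (w : ℚ) ≠ 0) (hk : 2 * κ - 3 * w ≠ 0) :
    muInv κ j w * mu κ w s =
      (2 * κ - 3 * s) * (∏ v ∈ Finset.Icc j s, (v : ℚ)) / 4 * (∏ v ∈ Finset.Ico j s, DD κ v) *
        ((∏ v ∈ Finset.Ioo j s, (cc κ w - ee κ v)) /
          ∏ v ∈ (Finset.Icc j s).erase w, (cc κ w - cc κ v)) := by
  rw [muInv_eq κ h1, mu_eq κ h2]
  have e1 := prod_comb1 (fun v => (v : ℚ)) h1 h2
  have e2 := prod_comb2 (fun v => cc κ w - ee κ v) h1 h2 h3
  have e3 := prod_comb3 (fun v => cc κ w - cc κ v) h1 h2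
  have e4 : (∏ v ∈ Finset.Ico j w, DD κ v) * (∏ v ∈ Finset.Ico w s, DD κ v) =
      ∏ v ∈ Finset.Ico j s, DD κ v := Finset.prod_Ico_consecutive _ h1 h2
  have e5 : cc κ w - ee κ w = w * (2 * κ - 3 * w) / 4 := by unfold cc ee; ring
  rw [e5] at e2
  rw [← e3, ← e4, ← e1]
  set P1 := ∏ v ∈ Finset.Ico j w, (v : ℚ)
  set P2 := ∏ v ∈ Finset.Ico w s, ((v + 1 : ℕ) : ℚ)
  set D1 := ∏ v ∈ Finset.Ico j w, DD κ v
  set D2 := ∏ v ∈ Finset.Ico w s, DD κ v
  set F1 := ∏ v ∈ Finset.Ico j w, (cc κ w - ee κ (v + 1))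
  set F2 := ∏ v ∈ Finset.Ico w s, (cc κ w - ee κ v)
  set G1 := ∏ v ∈ Finset.Ico j w, (cc κ w - cc κ v)
  set G2 := ∏ v ∈ Finset.Ico w s, (cc κ w - cc κ (v + 1))
  set F := ∏ v ∈ Finset.Ioo j s, (cc κ w - ee κ v)
  calc P1 * D1 * F1 / G1 * ((2 * κ - 3 * s) / (2 * κ - 3 * w) * (P2 * D2 * F2 / G2))
      = (2 * κ - 3 * s) / (2 * κ - 3 * w) * (P1 * P2) * (D1 * D2) * (F1 * F2) / (G1 * G2) := by
        rw [div_eq_mul_inv, div_eq_mul_inv, div_eq_mul_inv, div_eq_mul_inv, mul_inv]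
        ring
    _ = _ := by
        rw [e2]
        field_simp

theorem muInv_mul_mu (κ j s : ℕ) (hj : 1 ≤ j) (hjs : j ≤ s) (hs : 3 * s < κ) :
    ∑ w ∈ Finset.Icc j s, muInv κ j w * mu κ w s = if j = s then 1 else 0 := by
  have hsk : 3 * (s : ℚ) < κ := by exact_mod_cast hs
  rcases hjs.eq_or_lt with h | h
  · subst h
    have hj0 : (0 : ℚ) ≤ j := Nat.cast_nonneg j
    have h1 : 2 * (κ : ℚ) - 3 * j ≠ 0 := by
      intro h0
      linarith
    simp [muInv, mu]
    exact h1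
  · rw [if_neg h.ne]
    have hterm : ∀ w ∈ Finset.Icc j s, muInv κ j w * mu κ w s =
        (2 * κ - 3 * s) * (∏ v ∈ Finset.Icc j s, (v : ℚ)) / 4 *
          (∏ v ∈ Finset.Ico j s, DD κ v) *
        ((∏ v ∈ Finset.Ioo j s, (cc κ w - ee κ v)) /
          ∏ v ∈ (Finset.Icc j s).erase w, (cc κ w - cc κ v)) := by
      intro w hw
      rw [Finset.mem_Icc] at hw
      have hws : (w : ℚ) ≤ s := by exact_mod_cast hw.2
      have hw0 : (0 : ℚ) < w := by
        have : 0 < w := by omega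
        exact_mod_cast this
      refine term_eq κ hw.1 hw.2 h hw0.ne' ?_
      intro h0
      linarith
    rw [Finset.sum_congr rfl hterm, ← Finset.mul_sum]
    set P : Polynomial ℚ := ∏ v ∈ Finset.Ioo j s, (Polynomial.X - Polynomial.C (ee κ v)) with hP
    have hdeg : P.degree = ((s - j - 1 : ℕ) : WithBot ℕ) := by
      rw [hP, Polynomial.degree_prod]
      simp
    have hcard : (Finset.Icc j s).card = s + 1 - j := Nat.card_Icc j s
    have hinj : Set.InjOn (fun v => cc (κ : ℚ) v) (Finset.Icc j s : Finset ℕ) := by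
      intro a ha b hb hab
      rw [Finset.mem_coe, Finset.mem_Icc] at ha hb
      by_contra hne
      have h1 : ((a : ℚ) - b) * (κ - a - b) = 0 := by
        have : cc (κ : ℚ) a = cc (κ : ℚ) b := hab
        unfold cc at this
        linear_combination this
      have has : (a : ℚ) ≤ s := by exact_mod_cast ha.2
      have hbs : (b : ℚ) ≤ s := by exact_mod_cast hb.2
      have hs0 : (0 : ℚ) ≤ s := Nat.cast_nonneg s
      rcases mul_eq_zero.1 h1 with h2 | h2
      · apply hne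
        have : (a : ℚ) = b := by linarith
        exact_mod_cast this
      · linarith
    have hsum := Lagrange.coeff_eq_sum (s := Finset.Icc j s) (v := fun v => cc (κ : ℚ) v)
      (P := P) hinj (by
        rw [hdeg, hcard]
        have : s - j - 1 < s + 1 - j := by omega
        exact_mod_cast this)
    have hzero : P.coeff ((Finset.Icc j s).card - 1) = 0 := by
      apply Polynomial.coeff_eq_zero_of_degree_lt
      rw [hdeg, hcard]
      have : s - j - 1 < s + 1 - j - 1 := by omega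
      exact_mod_cast this
    rw [hzero] at hsum
    have heval : ∀ w, P.eval (cc κ w) = ∏ v ∈ Finset.Ioo j s, (cc κ w - ee κ v) := by
      intro w
      rw [hP, Polynomial.eval_prod]
      simp
    simp only [heval] at hsum
    rw [← hsum, mul_zero]


end Pool.Agent.Helper5.MD
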