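import Pool.Agent.Helper5.MD.VGBasic

/-!
# MD-C3b : the WZ recursion for the `LU` identity

Write `F i w = lam κ i w * pv κ w * mu κ w j`.  For `w ≤ i`
`lam κ (i+1) w = lam κ i w * (κ - 2 w + i) (κ - 2 w - i) (κ - i - 1) / (2 (i - w + 1) (2 i + 1) (κ - w - i - 1))` (definition),
and the shift in `w` is
`F i (w+1) * (κ - 2 w) (κ - 2 w + i - 1) (κ - 2 w + i - 2) (κ - w - 1 - i) (κ - w - 1 - j) (2 w - j + 1) (2 w - j + 2)
 = F i w * (κ - 2 w - 2) (κ - 2 w - i) (κ - 2 w - i - 1) (2 κ - 2 w - j) (2 κ - 2 w - j - 1) (i - w) (j - w)`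
(for `w + 1 ≤ min i j`).  The certificate: with
`H w = -(2 w - j) (2 w - j - 1) (κ - 2 w + i + 1) (κ - 2 w + i) (κ - w - j) (κ - 3 i - 2) /
  (2 (i - w + 1) (2 i + 1) (κ - 2 w) (κ - i - j - 1)) * F i w`  (`w ≤ i`),
one has, for `w + 1 ≤ i`,
`(2 i - j + 1) (2 i - j + 2) F (i+1) w - (κ - i - j) (κ + i - 2 j) F i w = H (w+1) - H w`,
and for `w = i` the same with `H (i+1)` replaced by `-(2 i - j + 1) (2 i - j + 2) F (i+1) (i+1)`.
`H 1 = 0` or more precisely `H w = 0` for `2 w ≤ j + 1` (for `2 w < j` because `mu κ w j = 0`, the factor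
`2 w - v` vanishing at `v = 2 w`), so the sum telescopes.  (All verified numerically.)
If `j ≤ w` some factors `F` vanish (`mu κ w j = 0` for `w > j`): the recursion in `w` is still true
because of the factor `j - w`.
-/

open scoped Nat

namespace Pool.Agent.Helper5.MD

theorem C3b_lam_row (κ : ℚ) (i w : ℕ) (h : w ≤ i) :
    lam κ (i + 1) w = lam κ i w * ((κ - 2 * w + i) * (κ - 2 * w - i) * (κ - i - 1) /
      (2 * (i - w + 1) * (2 * i + 1) * (κ - w - i - 1))) := by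
  unfold lam
  rw [if_pos (by omega), if_pos h, Finset.prod_Ico_succ_top h]

theorem C3b_lam_shift (κ : ℚ) (w i : ℕ) (h : w + 1 ≤ i) (hκ : 3 * (i : ℚ) < κ) :
    lam κ i (w + 1) * ((κ - 2 * w + i - 1) * (κ - 2 * w + i - 2) *
      ((κ - 3 * w) * (κ - 3 * w - 1) * (κ - 3 * w - 2)) * (κ - w - i - 1)) =
    lam κ i w * ((κ - 2 * w - i) * (κ - 2 * w - i - 1) * (2 * (i - w)) *
      ((2 * w + 1) * (κ - 2 * w - 1) * (κ - 2 * w - 2))) := by
  induction i, h using Nat.le_induction with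
  | base =>
    rw [C3b_lam_row κ w w le_rfl]
    have h1 : lam κ w w = 1 := by unfold lam; simp
    have h2 : lam κ (w + 1) (w + 1) = 1 := by unfold lam; simp
    rw [h1, h2]
    push_cast at hκ ⊢
    have hw : (0 : ℚ) ≤ w := Nat.cast_nonneg w
    have d1 : (κ - w - w - 1) ≠ 0 := by
      have : 0 < κ - w - w - 1 := by linarith
      exact this.ne'
    have d2 : (2 * (w : ℚ) + 1) ≠ 0 := by positivity
    field_simp
    ring
  | succ i hi ih =>
    have hi' : ((w : ℚ) + 1) ≤ i := by exact_mod_cast hi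
    have hw : (0 : ℚ) ≤ w := Nat.cast_nonneg w
    push_cast at hκ
    have ih' := ih (by linarith)
    rw [C3b_lam_row κ i w (by omega), C3b_lam_row κ i (w + 1) hi]
    set a := lam κ i (w + 1)
    set b := lam κ i w
    push_cast
    have d1 : (κ - w - i - 1) ≠ 0 := by
      have : 0 < κ - w - i - 1 := by linarith
      exact this.ne'
    have d2 : (κ - (w + 1) - i - 1) ≠ 0 := by
      have : 0 < κ - (w + 1) - i - 1 := by linarith
      exact this.ne'
    have d3 : ((i : ℚ) - w) ≠ 0 := by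
      have : 0 < (i : ℚ) - w := by linarith
      exact this.ne'
    have d4 : ((i : ℚ) - w + 1) ≠ 0 := by
      have : 0 < (i : ℚ) - w + 1 := by linarith
      exact this.ne'
    have d5 : ((i : ℚ) - (w + 1) + 1) ≠ 0 := by
      have : 0 < (i : ℚ) - (w + 1) + 1 := by linarith
      exact this.ne'
    have d6 : (2 * (i : ℚ) + 1) ≠ 0 := by positivity
    have e1 : a * ((κ - 2 * (w + 1) + i) * (κ - 2 * (w + 1) - i) * (κ - i - 1) /
        (2 * (i - (w + 1) + 1) * (2 * i + 1) * (κ - (w + 1) - i - 1))) *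
        ((κ - 2 * w + (i + 1) - 1) * (κ - 2 * w + (i + 1) - 2) *
          ((κ - 3 * w) * (κ - 3 * w - 1) * (κ - 3 * w - 2)) * (κ - w - (i + 1) - 1)) =
        (a * ((κ - 2 * w + i - 1) * (κ - 2 * w + i - 2) *
          ((κ - 3 * w) * (κ - 3 * w - 1) * (κ - 3 * w - 2)) * (κ - w - i - 1))) *
        ((κ - 2 * w - 2 - i) * (κ - i - 1) * (κ - 2 * w + i) /
          (2 * (i - w) * (2 * i + 1) * (κ - w - i - 1))) := by
      field_simp
      ring
    have e2 : b * ((κ - 2 * w + i) * (κ - 2 * w - i) * (κ - i - 1) /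
        (2 * (i - w + 1) * (2 * i + 1) * (κ - w - i - 1))) *
        ((κ - 2 * w - (i + 1)) * (κ - 2 * w - (i + 1) - 1) * (2 * ((i + 1) - w)) *
          ((2 * w + 1) * (κ - 2 * w - 1) * (κ - 2 * w - 2))) =
        (b * ((κ - 2 * w - i) * (κ - 2 * w - i - 1) * (2 * (i - w)) *
          ((2 * w + 1) * (κ - 2 * w - 1) * (κ - 2 * w - 2)))) *
        ((κ - 2 * w - 2 - i) * (κ - i - 1) * (κ - 2 * w + i) /
          (2 * (i - w) * (2 * i + 1) * (κ - w - i - 1))) := by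
      field_simp
      ring
    rw [e1, e2, ih']

/-- the product part of `mu` -/
noncomputable def C3b_muP (κ : ℚ) (w j : ℕ) : ℚ :=
  ∏ v ∈ Finset.Ico w j,
    (-(v + 1) * (2 * w - v) * (2 * κ - 2 * w - v) /
      (2 * (2 * κ - 2 * v - 1) * (v - w + 1) * (κ - w - v - 1)))

theorem C3b_muP_row (κ : ℚ) (w j : ℕ) (h : w ≤ j) :
    C3b_muP κ w (j + 1) = C3b_muP κ w j *
      (-(j + 1) * (2 * w - j) * (2 * κ - 2 * w - j) /
      (2 * (2 * κ - 2 * j - 1) * (j - w + 1) * (κ - w - j - 1))) := by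
  unfold C3b_muP
  rw [Finset.prod_Ico_succ_top h]

theorem C3b_muP_shift (κ : ℚ) (w j : ℕ) (h : w + 1 ≤ j) (hκ : 3 * (j : ℚ) < κ) :
    C3b_muP κ (w + 1) j * ((2 * w - j + 2) * (2 * w - j + 1) *
      ((2 * κ - 3 * w) * (2 * κ - 3 * w - 1) * (2 * κ - 3 * w - 2)) * (κ - w - j - 1)) =
    -C3b_muP κ w j * ((2 * κ - 2 * w - j) * (2 * κ - 2 * w - j - 1) * (j - w) *
      (2 * (2 * κ - 2 * w - 1) * (κ - 2 * w - 1) * (κ - 2 * w - 2))) := by
  induction j, h using Nat.le_induction with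
  | base =>
    rw [C3b_muP_row κ w w le_rfl]
    have h1 : C3b_muP κ w w = 1 := by unfold C3b_muP; simp
    have h2 : C3b_muP κ (w + 1) (w + 1) = 1 := by unfold C3b_muP; simp
    rw [h1, h2]
    push_cast at hκ ⊢
    have hw : (0 : ℚ) ≤ w := Nat.cast_nonneg w
    have d1 : (κ - w - w - 1) ≠ 0 := by
      have : 0 < κ - w - w - 1 := by linarith
      exact this.ne'
    have d2 : (2 * κ - 2 * w - 1) ≠ 0 := by
      have : 0 < 2 * κ - 2 * w - 1 := by linarith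
      exact this.ne'
    have d3 : (2 * (κ - w) - 1) ≠ 0 := by
      have : 0 < 2 * (κ - w) - 1 := by linarith
      exact this.ne'
    field_simp
    ring
  | succ j hj ih =>
    have hj' : ((w : ℚ) + 1) ≤ j := by exact_mod_cast hj
    have hw : (0 : ℚ) ≤ w := Nat.cast_nonneg w
    push_cast at hκ
    have ih' := ih (by linarith)
    rw [C3b_muP_row κ w j (by omega), C3b_muP_row κ (w + 1) j hj]
    set a := C3b_muP κ (w + 1) j
    set b := C3b_muP κ w j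
    push_cast
    have d1 : (κ - w - j - 1) ≠ 0 := by
      have : 0 < κ - w - j - 1 := by linarith
      exact this.ne'
    have d2 : (κ - (w + 1) - j - 1) ≠ 0 := by
      have : 0 < κ - (w + 1) - j - 1 := by linarith
      exact this.ne'
    have d3 : ((j : ℚ) - w) ≠ 0 := by
      have : 0 < (j : ℚ) - w := by linarith
      exact this.ne'
    have d4 : ((j : ℚ) - w + 1) ≠ 0 := by
      have : 0 < (j : ℚ) - w + 1 := by linarith
      exact this.ne'
    have d5 : ((j : ℚ) - (w + 1) + 1) ≠ 0 := by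
      have : 0 < (j : ℚ) - (w + 1) + 1 := by linarith
      exact this.ne'
    have d6 : (2 * κ - 2 * j - 1) ≠ 0 := by
      have : 0 < 2 * κ - 2 * j - 1 := by linarith
      exact this.ne'
    have e1 : a * (-(j + 1) * (2 * (w + 1) - j) * (2 * κ - 2 * (w + 1) - j) /
        (2 * (2 * κ - 2 * j - 1) * (j - (w + 1) + 1) * (κ - (w + 1) - j - 1))) *
        ((2 * w - (j + 1) + 2) * (2 * w - (j + 1) + 1) *
      ((2 * κ - 3 * w) * (2 * κ - 3 * w - 1) * (2 * κ - 3 * w - 2)) * (κ - w - (j + 1) - 1)) =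
        (a * ((2 * w - j + 2) * (2 * w - j + 1) *
      ((2 * κ - 3 * w) * (2 * κ - 3 * w - 1) * (2 * κ - 3 * w - 2)) * (κ - w - j - 1))) *
        (-(j + 1) * (2 * κ - 2 * w - 2 - j) * (2 * w - j) /
          (2 * (2 * κ - 2 * j - 1) * (j - w) * (κ - w - j - 1))) := by
      field_simp
      ring
    have e2 : -(b * (-(j + 1) * (2 * w - j) * (2 * κ - 2 * w - j) /
      (2 * (2 * κ - 2 * j - 1) * (j - w + 1) * (κ - w - j - 1)))) *
        ((2 * κ - 2 * w - (j + 1)) * (2 * κ - 2 * w - (j + 1) - 1) * ((j + 1) - w) *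
      (2 * (2 * κ - 2 * w - 1) * (κ - 2 * w - 1) * (κ - 2 * w - 2))) =
        (-b * ((2 * κ - 2 * w - j) * (2 * κ - 2 * w - j - 1) * (j - w) *
      (2 * (2 * κ - 2 * w - 1) * (κ - 2 * w - 1) * (κ - 2 * w - 2)))) *
        (-(j + 1) * (2 * κ - 2 * w - 2 - j) * (2 * w - j) /
          (2 * (2 * κ - 2 * j - 1) * (j - w) * (κ - w - j - 1))) := by
      field_simp
      ring
    rw [e1, e2, ih']

theorem C3b_mu_eq (κ : ℚ) (w j : ℕ) (h : w ≤ j) :
    mu κ w j = (2 * κ - 3 * j) / (2 * κ - 3 * w) * C3b_muP κ w j := by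
  unfold mu C3b_muP
  rw [if_pos h]

theorem C3b_mu_shift (κ : ℚ) (w j : ℕ) (h : w + 1 ≤ j) (hκ : 3 * (j : ℚ) < κ) :
    mu κ (w + 1) j * ((2 * w - j + 2) * (2 * w - j + 1) *
      ((2 * κ - 3 * w - 1) * (2 * κ - 3 * w - 2) * (2 * κ - 3 * w - 3)) * (κ - w - j - 1)) =
    -mu κ w j * ((2 * κ - 2 * w - j) * (2 * κ - 2 * w - j - 1) * (j - w) *
      (2 * (2 * κ - 2 * w - 1) * (κ - 2 * w - 1) * (κ - 2 * w - 2))) := by
  have hs := C3b_muP_shift κ w j h hκ
  rw [C3b_mu_eq κ w j (by omega), C3b_mu_eq κ (w + 1) j h]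
  have hj' : ((w : ℚ) + 1) ≤ j := by exact_mod_cast h
  have hw : (0 : ℚ) ≤ w := Nat.cast_nonneg w
  have d1 : (2 * κ - 3 * w) ≠ 0 := by
    have : 0 < 2 * κ - 3 * w := by linarith
    exact this.ne'
  have d2 : (2 * κ - 3 * w - 3) ≠ 0 := by
    have : 0 < 2 * κ - 3 * w - 3 := by linarith
    exact this.ne'
  have e1 : (2 * κ - 3 * j) / (2 * κ - 3 * ((w + 1 : ℕ) : ℚ)) * C3b_muP κ (w + 1) j *
      ((2 * w - j + 2) * (2 * w - j + 1) *
      ((2 * κ - 3 * w - 1) * (2 * κ - 3 * w - 2) * (2 * κ - 3 * w - 3)) * (κ - w - j - 1)) =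
      (2 * κ - 3 * j) / (2 * κ - 3 * w) * (C3b_muP κ (w + 1) j * ((2 * w - j + 2) *
      (2 * w - j + 1) *
      ((2 * κ - 3 * w) * (2 * κ - 3 * w - 1) * (2 * κ - 3 * w - 2)) * (κ - w - j - 1))) := by
    have : (2 * κ - 3 * ((w + 1 : ℕ) : ℚ)) = 2 * κ - 3 * w - 3 := by push_cast; ring
    rw [this]
    field_simp
  rw [e1, hs]
  ring

theorem C3b_pv_succ (κ : ℚ) (w : ℕ) (h : 1 ≤ w) :
    pv κ (w + 1) = pv κ w * (-(κ - 3 * w) * (κ - 3 * w - 1) * (κ - 3 * w - 2) *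
      (2 * κ - 3 * w - 1) * (2 * κ - 3 * w - 2) * (2 * κ - 3 * w - 3) /
      (4 * (2 * w + 1) * (2 * κ - 2 * w - 1) * (κ - 2 * w) * (κ - 2 * w - 1) ^ 2 *
        (κ - 2 * w - 2))) := by
  unfold pv
  rw [Finset.prod_Ico_succ_top h]
  ring

theorem C3b_mu_zero (κ : ℚ) (w j : ℕ) (h : j < w) : mu κ w j = 0 := by
  unfold mu
  rw [if_neg (by omega)]

theorem C3b_alg (a b c A1 A2 B1 B2 y z x1 x2 x3 x4 x5 x6 x7 x8 x9 x10 x11 x12 x13 : ℚ)
    (h1 : x1 ≠ 0) (h2 : x2 ≠ 0) (h3 : x3 ≠ 0) (h4 : x4 ≠ 0) (h5 : x5 ≠ 0) (h6 : x6 ≠ 0)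
    (h7 : x7 ≠ 0) (h8 : x8 ≠ 0) (h9 : x9 ≠ 0) (h10 : x10 ≠ 0) (h11 : x11 ≠ 0)
    (h12 : x11 = x12) (h13 : x13 ≠ 0) :
    a * (A1 * A2 * (2 * y) * (x13 * x9 * x10)) / ((x1 * x2 * x3) * x11) *
      (-b * (B1 * B2 * z * (2 * x7 * x9 * x10)) / (x4 * x5 * x6)) *
      (c * (-x1 * x2 * x3 * x4 * x5 * x6 / (4 * x13 * x7 * x8 * x9 ^ 2 * x10))) =
    a * c * b * (x10 * A1 * A2 * B1 * B2 * y * z) / (x8 * x12) := by
  subst h12
  field_simp
  ring

theorem C3b_alg2 (C A1 A2 B1 B2 z F x10 x8 x12 y s t : ℚ) (h1 : x10 ≠ 0) (h2 : y ≠ 0)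
    (h3 : x8 ≠ 0) (h4 : x12 ≠ 0) (h5 : s ≠ 0) (h6 : t ≠ 0) :
    -(C * A1 * A2 * B1 * B2 * z) / (2 * s * t * x8 * x12) * F =
    F * (x10 * A1 * A2 * B1 * B2 * y * z) / (x8 * x12) * (-C / (2 * y * s * x10 * t)) := by
  field_simp

theorem C3b_alg3 (C C' A A' A'' B1 B2 z s t u v x r r' r1 a b c : ℚ)
    (e1 : r' = r) (e2 : A'' = A') (e3 : C' = C)
    (h1 : s ≠ 0) (h2 : t ≠ 0) (h3 : u ≠ 0) (h4 : v ≠ 0) (h5 : x ≠ 0) (h6 : r ≠ 0)
    (h7 : r1 ≠ 0) :
    -(C * A * A' * B1 * B2 * z) / (2 * s * t * u * v) * (a * b * c) =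
    -(a * (r' * A * r1 / (2 * 1 * s * v)) * b * c * (x * A'' * C' * B1 * B2 * 1 * z) /
      (u * x) / (r * r1 * t)) := by
  subst e1 e2 e3
  field_simp

theorem C3b_F_shift (κ : ℚ) (w i j : ℕ) (h1 : 1 ≤ w) (h : w + 1 ≤ i) (hκ : 3 * (i : ℚ) < κ)
    (hκ' : 3 * (j : ℚ) < κ) :
    lam κ i (w + 1) * pv κ (w + 1) * mu κ (w + 1) j *
      ((2 * w - j + 1) * (2 * w - j + 2) * (κ - 2 * w + i - 1) * (κ - 2 * w + i - 2) *
        (κ - w - 1 - j)) =
    lam κ i w * pv κ w * mu κ w j *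
      ((κ - 2 * w - 2) * (κ - 2 * w - i) * (κ - 2 * w - i - 1) * (2 * κ - 2 * w - j) *
        (2 * κ - 2 * w - j - 1) * (i - w) * (j - w)) / ((κ - 2 * w) * (κ - w - 1 - i)) := by
  rcases Nat.lt_or_ge w j with hj | hj
  · have hl := C3b_lam_shift κ w i h hκ
    have hm := C3b_mu_shift κ w j hj hκ'
    rw [C3b_pv_succ κ w h1]
    have hi' : ((w : ℚ) + 1) ≤ i := by exact_mod_cast h
    have hj' : ((w : ℚ) + 1) ≤ j := by exact_mod_cast hj
    have hw : (1 : ℚ) ≤ w := by exact_mod_cast h1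
    have p1 : 0 < κ - 3 * w := by linarith
    have p2 : 0 < κ - 3 * w - 1 := by linarith
    have p3 : 0 < κ - 3 * w - 2 := by linarith
    have p4 : 0 < 2 * κ - 3 * w - 1 := by linarith
    have p5 : 0 < 2 * κ - 3 * w - 2 := by linarith
    have p6 : 0 < 2 * κ - 3 * w - 3 := by linarith
    have p7 : 0 < 2 * κ - 2 * w - 1 := by linarith
    have p8 : 0 < κ - 2 * w := by linarith
    have p9 : 0 < κ - 2 * w - 1 := by linarith
    have p10 : 0 < κ - 2 * w - 2 := by linarith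
    have p11 : 0 < κ - w - i - 1 := by linarith
    have p12 : 0 < κ - w - 1 - i := by linarith
    have p13 : 0 < 2 * (w : ℚ) + 1 := by linarith
    set a := lam κ i (w + 1)
    set a' := lam κ i w
    set b := mu κ (w + 1) j
    set b' := mu κ w j
    set c := pv κ w
    have ha : a * ((κ - 2 * w + i - 1) * (κ - 2 * w + i - 2)) =
        a' * ((κ - 2 * w - i) * (κ - 2 * w - i - 1) * (2 * (i - w)) *
      ((2 * w + 1) * (κ - 2 * w - 1) * (κ - 2 * w - 2))) /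
        (((κ - 3 * w) * (κ - 3 * w - 1) * (κ - 3 * w - 2)) * (κ - w - i - 1)) := by
      rw [eq_div_iff (by positivity), ← hl]
      ring
    have hb : b * ((2 * w - j + 2) * (2 * w - j + 1) * (κ - w - 1 - j)) =
        -b' * ((2 * κ - 2 * w - j) * (2 * κ - 2 * w - j - 1) * (j - w) *
      (2 * (2 * κ - 2 * w - 1) * (κ - 2 * w - 1) * (κ - 2 * w - 2))) /
        ((2 * κ - 3 * w - 1) * (2 * κ - 3 * w - 2) * (2 * κ - 3 * w - 3)) := by
      rw [eq_div_iff (by positivity), ← hm]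
      ring
    have e1 : a * (c * (-(κ - 3 * w) * (κ - 3 * w - 1) * (κ - 3 * w - 2) *
      (2 * κ - 3 * w - 1) * (2 * κ - 3 * w - 2) * (2 * κ - 3 * w - 3) /
      (4 * (2 * w + 1) * (2 * κ - 2 * w - 1) * (κ - 2 * w) * (κ - 2 * w - 1) ^ 2 *
        (κ - 2 * w - 2)))) * b *
      ((2 * w - j + 1) * (2 * w - j + 2) * (κ - 2 * w + i - 1) * (κ - 2 * w + i - 2) *
        (κ - w - 1 - j)) =
      (a * ((κ - 2 * w + i - 1) * (κ - 2 * w + i - 2))) *
      (b * ((2 * w - j + 2) * (2 * w - j + 1) * (κ - w - 1 - j))) *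
      (c * (-(κ - 3 * w) * (κ - 3 * w - 1) * (κ - 3 * w - 2) *
      (2 * κ - 3 * w - 1) * (2 * κ - 3 * w - 2) * (2 * κ - 3 * w - 3) /
      (4 * (2 * w + 1) * (2 * κ - 2 * w - 1) * (κ - 2 * w) * (κ - 2 * w - 1) ^ 2 *
        (κ - 2 * w - 2)))) := by ring
    rw [e1, ha, hb]
    exact C3b_alg a' b' c _ _ _ _ _ _ _ _ _ _ _ _ _ _ _ _ _ _ _ p1.ne' p2.ne' p3.ne' p4.ne'
      p5.ne' p6.ne' p7.ne' p8.ne' p9.ne' p10.ne' p11.ne' (by ring) p13.ne'
  · rw [C3b_mu_zero κ (w + 1) j (by omega)]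
    rcases Nat.lt_or_ge j w with hj2 | hj2
    · rw [C3b_mu_zero κ w j hj2]
      simp
    · have : (j : ℚ) = w := by
        have : j = w := le_antisymm hj hj2
        exact_mod_cast this
      rw [this]
      simp

theorem lu_step (κ i j : ℕ) (hi : 1 ≤ i) (hj : 1 ≤ j) (hij : j ≤ 2 * i)
    (hi' : 3 * (i + 1) < κ) (hj' : 3 * j < κ) :
    (2 * (i : ℚ) - j + 1) * (2 * i - j + 2) *
      ∑ w ∈ Finset.Icc 1 (i + 1), lam κ (i + 1) w * pv κ w * mu κ w j =
    ((κ : ℚ) - i - j) * (κ + i - 2 * j) *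
      ∑ w ∈ Finset.Icc 1 i, lam κ i w * pv κ w * mu κ w j := by
  have hK : 3 * ((i : ℚ) + 1) < κ := by exact_mod_cast hi'
  have hK' : 3 * (j : ℚ) < κ := by exact_mod_cast hj'
  have hi1 : (1 : ℚ) ≤ i := by exact_mod_cast hi
  have hj1 : (1 : ℚ) ≤ j := by exact_mod_cast hj
  have hKa : 3 * ((i + 1 : ℕ) : ℚ) < κ := by push_cast; exact hK
  have hKb : 3 * (i : ℚ) < κ := by linarith
  -- the telescoping function
  set F : ℕ → ℚ := fun w => lam κ i w * pv κ w * mu κ w j with hF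
  set H : ℕ → ℚ := fun w => -((2 * w - j) * (2 * w - j - 1) * (κ - 2 * w + i + 1) *
    (κ - 2 * w + i) * (κ - w - j) * (κ - 3 * i - 2)) /
    (2 * (i - w + 1) * (2 * i + 1) * (κ - 2 * w) * (κ - i - j - 1)) * F w with hH
  set G : ℕ → ℚ := fun w => -((κ - 3 * i - 2) * (κ - 2 * w - i) * (κ - 2 * w - i - 1) *
    (2 * κ - 2 * w - j) * (2 * κ - 2 * w - j - 1) * (j - w)) /
    (2 * (2 * i + 1) * (κ - i - j - 1) * (κ - 2 * w) * (κ - w - 1 - i)) * F w with hG
  have p0 : 0 < (κ : ℚ) - i - j - 1 := by linarith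
  have p0' : 0 < 2 * (i : ℚ) + 1 := by linarith
  -- pointwise identity
  have hpt : ∀ w ∈ Finset.Icc 1 i, (2 * (i : ℚ) - j + 1) * (2 * i - j + 2) *
      (lam κ (i + 1) w * pv κ w * mu κ w j) -
      ((κ : ℚ) - i - j) * (κ + i - 2 * j) * F w = G w - H w := by
    intro w hw
    rw [Finset.mem_Icc] at hw
    have hw1 : (1 : ℚ) ≤ w := by exact_mod_cast hw.1
    have hw2 : (w : ℚ) ≤ i := by exact_mod_cast hw.2
    rw [C3b_lam_row κ i w hw.2]
    have p1 : 0 < (κ : ℚ) - w - i - 1 := by linarith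
    have p2 : 0 < (κ : ℚ) - w - 1 - i := by linarith
    have p3 : 0 < (i : ℚ) - w + 1 := by linarith
    have p4 : 0 < (κ : ℚ) - 2 * w := by linarith
    have q0 := p0.ne'
    have q0' := p0'.ne'
    have q1 := p1.ne'
    have q2 := p2.ne'
    have q3 := p3.ne'
    have q4 := p4.ne'
    have key : (2 * (i : ℚ) - j + 1) * (2 * i - j + 2) *
        ((κ - 2 * w + i) * (κ - 2 * w - i) * (κ - i - 1) /
      (2 * (i - w + 1) * (2 * i + 1) * (κ - w - i - 1))) -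
        ((κ : ℚ) - i - j) * (κ + i - 2 * j) =
        -((κ - 3 * i - 2) * (κ - 2 * w - i) * (κ - 2 * w - i - 1) *
    (2 * κ - 2 * w - j) * (2 * κ - 2 * w - j - 1) * (j - w)) /
    (2 * (2 * i + 1) * (κ - i - j - 1) * (κ - 2 * w) * (κ - w - 1 - i)) -
        -((2 * w - j) * (2 * w - j - 1) * (κ - 2 * w + i + 1) *
    (κ - 2 * w + i) * (κ - w - j) * (κ - 3 * i - 2)) /
    (2 * (i - w + 1) * (2 * i + 1) * (κ - 2 * w) * (κ - i - j - 1)) := by
      have e : (κ : ℚ) - w - i - 1 = κ - w - 1 - i := by ring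
      rw [e]
      field_simp
      ring
    simp only [hG, hH, hF]
    linear_combination (lam κ i w * pv κ w * mu κ w j) * key
  -- `G w = H (w + 1)`
  have hGH : ∀ w, 1 ≤ w → w + 1 ≤ i → G w = H (w + 1) := by
    intro w hw1 hwi
    have hs := C3b_F_shift κ w i j hw1 hwi hKb hK'
    have hw1' : (1 : ℚ) ≤ w := by exact_mod_cast hw1
    have hw2 : (w : ℚ) + 1 ≤ i := by exact_mod_cast hwi
    have p2 : 0 < (κ : ℚ) - w - 1 - i := by linarith
    have p3 : 0 < (i : ℚ) - w := by linarith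
    have p4 : 0 < (κ : ℚ) - 2 * w := by linarith
    have p5 : 0 < (κ : ℚ) - 2 * w - 2 := by linarith
    have q0 := p0.ne'
    have q0' := p0'.ne'
    have q2 := p2.ne'
    have q3 := p3.ne'
    have q4 := p4.ne'
    have q5 := p5.ne'
    simp only [hG, hH, hF]
    push_cast
    have e1 : -((2 * ((w : ℚ) + 1) - j) * (2 * (w + 1) - j - 1) * (κ - 2 * (w + 1) + i + 1) *
    (κ - 2 * (w + 1) + i) * (κ - (w + 1) - j) * (κ - 3 * i - 2)) /
    (2 * (i - (w + 1) + 1) * (2 * i + 1) * (κ - 2 * (w + 1)) * (κ - i - j - 1)) *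
      (lam κ i (w + 1) * pv κ (w + 1) * mu κ (w + 1) j) =
      (lam κ i (w + 1) * pv κ (w + 1) * mu κ (w + 1) j *
      ((2 * w - j + 1) * (2 * w - j + 2) * (κ - 2 * w + i - 1) * (κ - 2 * w + i - 2) *
        (κ - w - 1 - j))) * (-(κ - 3 * i - 2) /
        (2 * (i - w) * (2 * i + 1) * (κ - 2 * w - 2) * (κ - i - j - 1))) := by
      have e2 : ((i : ℚ) - (w + 1) + 1) = i - w := by ring
      have e3 : ((κ : ℚ) - 2 * (w + 1)) = κ - 2 * w - 2 := by ring
      rw [e2, e3]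
      field_simp
      ring
    rw [e1, hs]
    exact C3b_alg2 _ _ _ _ _ _ _ _ _ _ _ _ _ q5 q3 q4 q2 q0' q0
  -- the last term
  have hlast : G i = -((2 * (i : ℚ) - j + 1) * (2 * i - j + 2) *
      (lam κ (i + 1) (i + 1) * pv κ (i + 1) * mu κ (i + 1) j)) := by
    have hs := C3b_F_shift κ i (i + 1) j hi le_rfl hKa hK'
    rw [C3b_lam_row κ i i le_rfl] at hs
    push_cast at hs
    have p2 : 0 < (κ : ℚ) - i := by linarith
    have p3 : 0 < (κ : ℚ) - i - 1 := by linarith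
    have p4 : 0 < (κ : ℚ) - 2 * i := by linarith
    have p5 : 0 < (κ : ℚ) - 2 * i - 1 := by linarith
    have p6 : 0 < (κ : ℚ) - 2 * i - 2 := by linarith
    have q0 := p0.ne'
    have q0' := p0'.ne'
    have q2 := p2.ne'
    have q3 := p3.ne'
    have q4 := p4.ne'
    have q5 := p5.ne'
    have q6 := p6.ne'
    set X := lam κ (i + 1) (i + 1) * pv κ (i + 1) * mu κ (i + 1) j with hX
    have e1 : X * ((2 * i - j + 1) * (2 * i - j + 2) * (κ - 2 * i + (i + 1) - 1) *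
        (κ - 2 * i + (i + 1) - 2) * (κ - i - 1 - j)) =
        ((2 * (i : ℚ) - j + 1) * (2 * i - j + 2) * X) * ((κ - i) * (κ - i - 1) *
        (κ - i - j - 1)) := by ring
    rw [e1] at hs
    have e2 : (2 * (i : ℚ) - j + 1) * (2 * i - j + 2) * X =
        (lam κ i i * ((κ - 2 * i + i) * (κ - 2 * i - i) * (κ - i - 1) /
        (2 * (i - i + 1) * (2 * i + 1) * (κ - i - i - 1))) * pv κ i * mu κ i j *
      ((κ - 2 * i - 2) * (κ - 2 * i - (i + 1)) * (κ - 2 * i - (i + 1) - 1) *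
        (2 * κ - 2 * i - j) * (2 * κ - 2 * i - j - 1) * ((i + 1) - i) * (j - i)) /
        ((κ - 2 * i) * (κ - i - 1 - (i + 1)))) / ((κ - i) * (κ - i - 1) *
        (κ - i - j - 1)) := by
      rw [eq_div_iff (by positivity)]
      exact hs
    rw [e2]
    simp only [hG, hF]
    have e3 : (κ : ℚ) - i - i - 1 = κ - 2 * i - 1 := by ring
    have e4 : (κ : ℚ) - i - 1 - (i + 1) = κ - 2 * i - 2 := by ring
    have e5 : (κ : ℚ) - i - 1 - i = κ - 2 * i - 1 := by ring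
    have e6 : ((i : ℚ) - i + 1) = 1 := by ring
    have e7 : (((i : ℚ) + 1) - i) = 1 := by ring
    rw [e3, e4, e5, e6, e7]
    exact C3b_alg3 _ _ _ _ _ _ _ _ _ _ _ _ _ _ _ _ _ _ _ (by ring) (by ring) (by ring)
      q0' q0 q4 q5 q6 q2 q3
  -- `H 1 = 0`
  have hH1 : H 1 = 0 := by
    simp only [hH, hF]
    rcases Nat.lt_or_ge j 3 with h3 | h3
    · interval_cases j
      · norm_num
      · norm_num
    · have : mu κ 1 j = 0 := by
        unfold mu
        rw [if_pos (by omega)]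
        have h2 : (2 : ℕ) ∈ Finset.Ico 1 j := by
          rw [Finset.mem_Ico]; omega
        rw [Finset.prod_eq_zero h2 (by norm_num)]
        simp
      rw [this]
      simp
  -- telescoping
  have htel : ∀ m, 1 ≤ m → m ≤ i → ∑ w ∈ Finset.Icc 1 m, (G w - H w) = G m := by
    intro m hm
    induction m, hm using Nat.le_induction with
    | base =>
      intro _
      simp [hH1]
    | succ m hm ih =>
      intro hmi
      rw [Finset.sum_Icc_succ_top (by omega), ih (by omega), hGH m hm hmi]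
      ring
  have hsum : ∑ w ∈ Finset.Icc 1 i, ((2 * (i : ℚ) - j + 1) * (2 * i - j + 2) *
      (lam κ (i + 1) w * pv κ w * mu κ w j) -
      ((κ : ℚ) - i - j) * (κ + i - 2 * j) * F w) = G i := by
    rw [Finset.sum_congr rfl hpt]
    exact htel i hi le_rfl
  rw [Finset.sum_sub_distrib, ← Finset.mul_sum, ← Finset.mul_sum] at hsum
  rw [Finset.sum_Icc_succ_top (by omega)]
  rw [hlast] at hsum
  linear_combination hsum

end Pool.Agent.Helper5.MD
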