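import Pool.Agent.Helper5.MD.C3aBase
import Pool.Agent.Helper5.MD.C3bStep

/-!
# MD-C3 : the `LU` identity in case 1

`b1 κ i j = ∑_w lam κ i w * pv κ w * mu κ w j`.  If `j > 2 i` both sides vanish (`mu κ w j = 0` for `j > 2 w`).
Otherwise induct on `i` starting from `i = ⌈j / 2⌉` (MD-C3a; then only `w = i` contributes) with MD-C3b
and the same recursion
`(2 i - j + 1) (2 i - j + 2) b1 κ (i+1) j = (κ - i - j) (κ + i - 2 j) b1 κ i j` for `b1`
(write `b1 κ i j = (3 j - 2 κ) / N * ch (x - 1) (N - 1)`, `x = i + j - κ`, `N = 2 i - j ≥ 1`; for `N = 0` check directly).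
-/

open scoped Nat

namespace Pool.Agent.Helper5.MD

theorem mu_eq_zero_of_lt (κ : ℚ) (w j : ℕ) (h : 2 * w < j) : mu κ w j = 0 := by
  unfold mu
  rw [if_pos (by omega)]
  have hz : ∏ v ∈ Finset.Ico w j,
      (-((v : ℚ) + 1) * (2 * w - v) * (2 * κ - 2 * w - v) /
        (2 * (2 * κ - 2 * v - 1) * (v - w + 1) * (κ - w - v - 1))) = 0 := by
    apply Finset.prod_eq_zero (i := 2 * w) (by simp; omega)
    push_cast
    simp
  rw [hz, mul_zero]

theorem mu_eq_zero_of_gt (κ : ℚ) (w j : ℕ) (h : j < w) : mu κ w j = 0 := by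
  unfold mu
  rw [if_neg (by omega)]

theorem lam_self (κ : ℚ) (i : ℕ) : lam κ i i = 1 := by
  unfold lam
  simp

theorem ff_succ_left (x : ℚ) (n : ℕ) :
    ∏ i ∈ Finset.range (n + 1), (x - i) = x * ∏ i ∈ Finset.range n, (x - 1 - i) := by
  rw [Finset.prod_range_succ']
  rw [mul_comm]
  congr 1
  · simp
  · apply Finset.prod_congr rfl
    intro i _
    push_cast
    ring

theorem b1_rec (κ : ℚ) (i j : ℕ) (hij : j ≤ 2 * i) :
    (2 * (i : ℚ) - j + 1) * (2 * i - j + 2) * b1 κ (i + 1) j =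
      (κ - i - j) * (κ + i - 2 * j) * b1 κ i j := by
  unfold b1
  rw [if_pos (by omega), if_pos hij]
  obtain ⟨N, hN⟩ : ∃ N, 2 * i = j + N := ⟨2 * i - j, by omega⟩
  have e1 : 2 * (i + 1) - j = N + 2 := by omega
  have e2 : 2 * i - j = N := by omega
  have e3 : (2 : ℚ) * i = j + N := by exact_mod_cast hN
  rw [e1, e2]
  set x : ℚ := i + j - κ with hx
  have e4 : ((i + 1 : ℕ) : ℚ) + j - κ = x + 1 := by push_cast; rw [hx]; ring
  have e5 : (x + 1 - 1 : ℚ) = x := by ring
  rw [e4, e5]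
  unfold ch
  have hf : (((N + 2)! : ℕ) : ℚ) = (N + 2) * ((N + 1) * (N ! : ℚ)) := by
    rw [Nat.factorial_succ, Nat.factorial_succ]
    push_cast
    ring
  have hN0 : ((N ! : ℕ) : ℚ) ≠ 0 := by exact_mod_cast Nat.factorial_ne_zero N
  have h1 : (N + 1 : ℚ) ≠ 0 := by positivity
  have h2 : (N + 2 : ℚ) ≠ 0 := by positivity
  have p1 : ∏ i ∈ Finset.range (N + 2), (x + 1 - (i : ℚ)) =
      (x + 1) * ((∏ i ∈ Finset.range N, (x - (i : ℚ))) * (x - N)) := by
    rw [ff_succ_left (x + 1) (N + 1)]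
    rw [e5, Finset.prod_range_succ]
  have p2 : ∏ i ∈ Finset.range (N + 2), (x - (i : ℚ)) =
      x * ((∏ i ∈ Finset.range N, (x - 1 - (i : ℚ))) * (x - 1 - N)) := by
    rw [ff_succ_left x (N + 1), Finset.prod_range_succ]
  have p3 : x * (∏ i ∈ Finset.range N, (x - 1 - (i : ℚ))) =
      (∏ i ∈ Finset.range N, (x - (i : ℚ))) * (x - N) := by
    rw [← ff_succ_left x N, Finset.prod_range_succ]
  have c1 : (2 * (i : ℚ) - j + 1) = N + 1 := by rw [e3]; ring
  have c2 : (2 * (i : ℚ) - j + 2) = N + 2 := by rw [e3]; ring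
  have c3 : (κ - i - j : ℚ) = - x := by rw [hx]; ring
  have c4 : (κ + i - 2 * j : ℚ) = N - x := by
    have : (N : ℚ) = 2 * i - j := by rw [e3]; ring
    rw [this, hx]; ring
  rw [c1, c2, c3, c4, p1, p2, hf]
  set P := ∏ i ∈ Finset.range N, (x - (i : ℚ)) with hP
  set Q := ∏ i ∈ Finset.range N, (x - 1 - (i : ℚ)) with hQ
  field_simp
  linear_combination (x - N - 1 - (x - N)) * p3

theorem lam_pv_mu_aux (κ j : ℕ) (hj : 1 ≤ j) (hj' : 3 * j < κ) (i : ℕ) (hi : 1 ≤ i)
    (hij : j ≤ 2 * i) (hi' : 3 * i < κ) :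
    ∑ w ∈ Finset.Icc 1 i, lam κ i w * pv κ w * mu κ w j = b1 κ i j := by
  induction i with
  | zero => omega
  | succ i ih =>
    by_cases h : j ≤ 2 * i
    · have hi1 : 1 ≤ i := by omega
      have ih' := ih hi1 h (by omega)
      have st := lu_step κ i j hi1 hj h (by omega) hj'
      rw [ih', ← b1_rec (κ : ℚ) i j h] at st
      have hc : (j : ℚ) ≤ 2 * i := by exact_mod_cast h
      have n1 : (2 * (i : ℚ) - j + 1) ≠ 0 := by
        have : (0 : ℚ) < 2 * (i : ℚ) - j + 1 := by linarith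
        exact this.ne'
      have n2 : (2 * (i : ℚ) - j + 2) ≠ 0 := by
        have : (0 : ℚ) < 2 * (i : ℚ) - j + 2 := by linarith
        exact this.ne'
      exact mul_left_cancel₀ (mul_ne_zero n1 n2) st
    · -- base case
      have hs : ∑ w ∈ Finset.Icc 1 (i + 1), lam κ (i + 1) w * pv κ w * mu κ w j =
          pv κ (i + 1) * mu κ (i + 1) j := by
        rw [Finset.sum_eq_single (i + 1)]
        · rw [lam_self, one_mul]
        · intro w hw hne
          rw [Finset.mem_Icc] at hw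
          rw [mu_eq_zero_of_lt (κ : ℚ) w j (by omega), mul_zero]
        · intro hn
          exact absurd (Finset.mem_Icc.2 ⟨by omega, le_refl _⟩) hn
      rw [hs]
      rcases (by omega : j = 2 * (i + 1) ∨ j = 2 * (i + 1) - 1) with hj2 | hj2
      · subst hj2
        rw [pv_mu_two_mul κ (i + 1) (by omega) hj']
        unfold b1 ch
        simp
        norm_num
      · subst hj2
        rw [pv_mu_two_mul_sub κ (i + 1) (by omega) hj']
        unfold b1 ch
        rw [if_pos (by omega)]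
        have e : 2 * (i + 1) - (2 * (i + 1) - 1) = 1 := by omega
        rw [e]
        have e' : ((2 * (i + 1) - 1 : ℕ) : ℚ) = 2 * i + 1 := by
          have : 2 * (i + 1) - 1 = 2 * i + 1 := by omega
          rw [this]; push_cast; ring
        rw [e']
        simp
        ring

theorem lam_pv_mu (κ i j : ℕ) (hi : 1 ≤ i) (hj : 1 ≤ j) (hi' : 3 * i < κ) (hj' : 3 * j < κ) :
    ∑ w ∈ Finset.Icc 1 (min i j), lam κ i w * pv κ w * mu κ w j = b1 κ i j := by
  have hs : ∑ w ∈ Finset.Icc 1 (min i j), lam κ i w * pv κ w * mu κ w j =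
      ∑ w ∈ Finset.Icc 1 i, lam κ i w * pv κ w * mu κ w j := by
    apply Finset.sum_subset
    · apply Finset.Icc_subset_Icc_right
      exact min_le_left _ _
    · intro w hw hn
      rw [Finset.mem_Icc] at hw hn
      rw [mu_eq_zero_of_gt (κ : ℚ) w j (by omega), mul_zero]
  rw [hs]
  by_cases h : j ≤ 2 * i
  · exact lam_pv_mu_aux κ j hj hj' i hi h hi'
  · unfold b1
    rw [if_neg h]
    apply Finset.sum_eq_zero
    intro w hw
    rw [Finset.mem_Icc] at hw
    rw [mu_eq_zero_of_lt (κ : ℚ) w j (by omega), mul_zero]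

end Pool.Agent.Helper5.MD
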