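import Pool.Agent.Helper5.MD.VGBasic

/-!
# MD-C3a : base cases of the `LU` identity

For `w ≥ 1`:  `pv κ w * mu κ w (2 w) = 2` and `pv κ w * mu κ w (2 w - 1) = 6 w - 3 - 2 κ`.
The products in `mu κ w (2 w)` are falling products, and the ratio
`mu κ (w+1) (2 w + 2) / mu κ w (2 w)` is the inverse of `pv κ (w + 1) / pv κ w`.
-/

open scoped Nat

namespace Pool.Agent.Helper5.MD

/-- falling product -/
noncomputable def fD (x : ℚ) (n : ℕ) : ℚ := ∏ t ∈ Finset.range n, (x - t)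

theorem fD_succ (x : ℚ) (n : ℕ) : fD x (n + 1) = fD x n * (x - n) :=
  Finset.prod_range_succ _ _

theorem fD_succ' (x : ℚ) (n : ℕ) : fD x (n + 1) = x * fD (x - 1) n := by
  unfold fD
  rw [Finset.prod_range_succ']
  rw [mul_comm]
  congr 1
  · simp
  · refine Finset.prod_congr rfl fun t _ => ?_
    push_cast
    ring

/-- falling product with step two -/
noncomputable def fT (x : ℚ) (n : ℕ) : ℚ := ∏ t ∈ Finset.range n, (x - 2 * t)

theorem fT_succ (x : ℚ) (n : ℕ) : fT x (n + 1) = fT x n * (x - 2 * n) :=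
  Finset.prod_range_succ _ _

theorem fT_succ' (x : ℚ) (n : ℕ) : fT x (n + 1) = x * fT (x - 2) n := by
  unfold fT
  rw [Finset.prod_range_succ']
  rw [mul_comm]
  congr 1
  · simp
  · refine Finset.prod_congr rfl fun t _ => ?_
    push_cast
    ring

/-- rising product -/
noncomputable def fU (x : ℚ) (n : ℕ) : ℚ := ∏ t ∈ Finset.range n, (x + t)

theorem fU_succ (x : ℚ) (n : ℕ) : fU x (n + 1) = fU x n * (x + n) :=
  Finset.prod_range_succ _ _

theorem fU_succ' (x : ℚ) (n : ℕ) : fU x (n + 1) = x * fU (x + 1) n := by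
  unfold fU
  rw [Finset.prod_range_succ']
  rw [mul_comm]
  congr 1
  · simp
  · refine Finset.prod_congr rfl fun t _ => ?_
    push_cast
    ring

theorem fD_self (w : ℕ) : fD w w = fU 1 w := by
  induction w with
  | zero => simp [fD, fU]
  | succ w ih =>
    rw [fD_succ', fU_succ]
    have : ((w + 1 : ℕ) : ℚ) - 1 = w := by push_cast; ring
    rw [this, ih]
    push_cast
    ring

theorem fU_one_pos (w : ℕ) : 0 < fU 1 w := Finset.prod_pos fun t _ => by positivity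

/-- closed form of `mu κ w (2 w)` -/
theorem mu_two_mul (κ : ℚ) (w : ℕ) :
    mu κ w (2 * w) = (2 * κ - 6 * w) / (2 * κ - 3 * w) * ((-1 / 2) ^ w *
      (fU (w + 1) w * fD (2 * κ - 3 * w) w / (fT (2 * κ - 2 * w - 1) w * fD (κ - 2 * w - 1) w))) := by
  unfold mu
  rw [if_pos (by omega), Finset.prod_Ico_eq_prod_range]
  have h1 : 2 * w - w = w := by omega
  rw [h1]
  congr 1
  · push_cast; ring
  · have h2 : ∀ t ∈ Finset.range w,
        (-(((w + t : ℕ) : ℚ) + 1) * (2 * w - ((w + t : ℕ) : ℚ)) *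
          (2 * κ - 2 * w - ((w + t : ℕ) : ℚ)) /
        (2 * (2 * κ - 2 * ((w + t : ℕ) : ℚ) - 1) * (((w + t : ℕ) : ℚ) - w + 1) *
          (κ - w - ((w + t : ℕ) : ℚ) - 1))) =
        (-1 / 2) * ((((w : ℚ) + 1) + t) * ((w : ℚ) - t) * ((2 * κ - 3 * w) - t) /
          (((2 * κ - 2 * w - 1) - 2 * t) * (1 + t) * ((κ - 2 * w - 1) - t))) := by
      intro t _
      push_cast
      have e1 : ((w : ℚ) + t - w + 1) = 1 + t := by ring
      have e2 : (2 * κ - 2 * ((w : ℚ) + t) - 1) = (2 * κ - 2 * w - 1) - 2 * t := by ring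
      have e3 : (κ - w - ((w : ℚ) + t) - 1) = (κ - 2 * w - 1) - t := by ring
      rw [e1, e2, e3]
      have e4 : ∀ a b c d : ℚ, -a / (2 * b * c * d) = (-1 / 2) * (a / (b * c * d)) := by
        intro a b c d
        rw [mul_assoc, mul_assoc, mul_div_assoc', div_mul_eq_mul_div, div_div, mul_assoc]
        ring
      have e5 : -((w : ℚ) + t + 1) * (2 * w - (w + t)) * (2 * κ - 2 * w - (w + t)) =
          -((((w : ℚ) + 1) + t) * ((w : ℚ) - t) * ((2 * κ - 3 * w) - t)) := by ring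
      rw [e5, e4]
    rw [Finset.prod_congr rfl h2, Finset.prod_mul_distrib, Finset.prod_const, Finset.card_range,
      Finset.prod_div_distrib, Finset.prod_mul_distrib, Finset.prod_mul_distrib,
      Finset.prod_mul_distrib, Finset.prod_mul_distrib]
    congr 1
    change fU (w + 1) w * fD w w * fD (2 * κ - 3 * w) w /
      (fT (2 * κ - 2 * w - 1) w * fU 1 w * fD (κ - 2 * w - 1) w) = _
    rw [fD_self]
    have h3 := (fU_one_pos w).ne'
    rw [show fU (w + 1) w * fU 1 w * fD (2 * κ - 3 * w) w =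
      (fU (w + 1) w * fD (2 * κ - 3 * w) w) * fU 1 w by ring,
      show fT (2 * κ - 2 * w - 1) w * fU 1 w * fD (κ - 2 * w - 1) w =
      (fT (2 * κ - 2 * w - 1) w * fD (κ - 2 * w - 1) w) * fU 1 w by ring,
      mul_div_mul_right _ _ h3]

theorem mu_alg (G A B C D a1 b1 b2 b3 b4 c0 c1 c2 c3 c4 d1 d2 d3 f1 f2 g1 : ℚ)
    (ha1 : a1 ≠ 0) (hb1 : b1 ≠ 0) (hb2 : b2 ≠ 0) (hb3 : b3 ≠ 0) (hb4 : b4 ≠ 0) (hc1 : c1 ≠ 0)
    (hc2 : c2 ≠ 0) (hc3 : c3 ≠ 0) (hc4 : c4 ≠ 0) (hd1 : d1 ≠ 0) (hd2 : d2 ≠ 0) (hd3 : d3 ≠ 0)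
    (hf1 : f1 ≠ 0) (hf2 : f2 ≠ 0) (hC : C ≠ 0) (hD : D ≠ 0) :
    2 * c4 / b4 * (G * (-1 / 2) * (A * g1 * (2 * a1) / a1 *
      (B * (2 * c0) * d2 * (2 * f1) * d3 / (b1 * b2 * b3)) /
        (C * d2 * d3 / d1 * (D * c2 * c3 * c4 / (f1 * f2))))) =
    2 * c1 / b1 * (G * (A * B / (C * D))) *
      (-(4 * g1 * c0 * f1 ^ 2 * f2 * d1) / (c1 * c2 * c3 * b2 * b3 * b4)) := by
  field_simp
  ring

theorem mu_shift (κ : ℚ) (w : ℕ) (h : (6 : ℚ) * w + 3 < κ) :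
    mu κ (w + 1) (2 * (w + 1)) = mu κ w (2 * w) *
      (-(4 * (2 * w + 1) * (κ - 2 * w) * (κ - 2 * w - 1) ^ 2 * (κ - 2 * w - 2) *
        (2 * κ - 2 * w - 1)) / ((κ - 3 * w) * (κ - 3 * w - 1) * (κ - 3 * w - 2) *
          (2 * κ - 3 * w - 1) * (2 * κ - 3 * w - 2) * (2 * κ - 3 * w - 3))) := by
  have hw0 : (0 : ℚ) ≤ w := Nat.cast_nonneg w
  rw [mu_two_mul, mu_two_mul]
  -- the shifts
  have hP1 : ((w : ℚ) + 1) * fU (((w + 1 : ℕ) : ℚ) + 1) (w + 1) =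
      fU (w + 1) w * (2 * w + 1) * (2 * w + 2) := by
    rw [fU_succ]
    have h1 := fU_succ' ((w : ℚ) + 1) w
    rw [fU_succ] at h1
    push_cast
    have h2 : fU ((w : ℚ) + 1 + 1) w * (w + 1) = fU (w + 1) w * (w + 1 + w) := by
      rw [h1]; ring
    linear_combination (2 * (w : ℚ) + 2) * h2
  have hP2 : (2 * κ - 3 * w) * (2 * κ - 3 * w - 1) * (2 * κ - 3 * w - 2) *
      fD (2 * κ - 3 * ((w + 1 : ℕ) : ℚ)) (w + 1) =
      fD (2 * κ - 3 * w) w * (2 * κ - 4 * w) * (2 * κ - 4 * w - 1) * (2 * κ - 4 * w - 2) *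
        (2 * κ - 4 * w - 3) := by
    have h1 : fD (2 * κ - 3 * w) (w + 1 + 1 + 1 + 1) =
        (2 * κ - 3 * w) * ((2 * κ - 3 * w - 1) * ((2 * κ - 3 * w - 1 - 1) *
          fD (2 * κ - 3 * w - 1 - 1 - 1) (w + 1))) := by
      rw [fD_succ', fD_succ', fD_succ']
    rw [fD_succ, fD_succ, fD_succ, fD_succ] at h1
    have h2 : 2 * κ - 3 * ((w + 1 : ℕ) : ℚ) = 2 * κ - 3 * w - 1 - 1 - 1 := by push_cast; ring
    rw [h2]
    push_cast at h1
    linear_combination -h1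
  have hP3 : (2 * κ - 2 * w - 1) * fT (2 * κ - 2 * ((w + 1 : ℕ) : ℚ) - 1) (w + 1) =
      fT (2 * κ - 2 * w - 1) w * (2 * κ - 4 * w - 1) * (2 * κ - 4 * w - 3) := by
    have h1 := fT_succ' (2 * κ - 2 * w - 1) (w + 1)
    rw [fT_succ, fT_succ] at h1
    have h2 : 2 * κ - 2 * ((w + 1 : ℕ) : ℚ) - 1 = 2 * κ - 2 * w - 1 - 2 := by push_cast; ring
    rw [h2]
    push_cast at h1
    linear_combination -h1
  have hP4 : (κ - 2 * w - 1) * (κ - 2 * w - 2) *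
      fD (κ - 2 * ((w + 1 : ℕ) : ℚ) - 1) (w + 1) =
      fD (κ - 2 * w - 1) w * (κ - 3 * w - 1) * (κ - 3 * w - 2) * (κ - 3 * w - 3) := by
    have h1 : fD (κ - 2 * w - 1) (w + 1 + 1 + 1) =
        (κ - 2 * w - 1) * ((κ - 2 * w - 1 - 1) *
          fD (κ - 2 * w - 1 - 1 - 1) (w + 1)) := by
      rw [fD_succ', fD_succ']
    rw [fD_succ, fD_succ, fD_succ] at h1
    have h2 : κ - 2 * ((w + 1 : ℕ) : ℚ) - 1 = κ - 2 * w - 1 - 1 - 1 := by push_cast; ring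
    rw [h2]
    push_cast at h1
    linear_combination -h1
  -- nonvanishing
  have n3 : fT (2 * κ - 2 * w - 1) w ≠ 0 := by
    refine (Finset.prod_pos fun t ht => ?_).ne'
    have h1 : (t : ℚ) + 1 ≤ w := by exact_mod_cast Finset.mem_range.mp ht
    linarith
  have n4 : fD (κ - 2 * w - 1) w ≠ 0 := by
    refine (Finset.prod_pos fun t ht => ?_).ne'
    have h1 : (t : ℚ) + 1 ≤ w := by exact_mod_cast Finset.mem_range.mp ht
    linarith
  have a1 : (w : ℚ) + 1 ≠ 0 := by positivity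
  have b1 : 2 * κ - 3 * w ≠ 0 := by apply ne_of_gt; linarith
  have b2 : 2 * κ - 3 * w - 1 ≠ 0 := by apply ne_of_gt; linarith
  have b3 : 2 * κ - 3 * w - 2 ≠ 0 := by apply ne_of_gt; linarith
  have b4 : 2 * κ - 3 * w - 3 ≠ 0 := by apply ne_of_gt; linarith
  have c1 : κ - 3 * w ≠ 0 := by apply ne_of_gt; linarith
  have c2 : κ - 3 * w - 1 ≠ 0 := by apply ne_of_gt; linarith
  have c3 : κ - 3 * w - 2 ≠ 0 := by apply ne_of_gt; linarith
  have c4 : κ - 3 * w - 3 ≠ 0 := by apply ne_of_gt; linarith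
  have d1 : 2 * κ - 2 * w - 1 ≠ 0 := by apply ne_of_gt; linarith
  have d2 : 2 * κ - 4 * w - 1 ≠ 0 := by apply ne_of_gt; linarith
  have d3 : 2 * κ - 4 * w - 3 ≠ 0 := by apply ne_of_gt; linarith
  have f1 : κ - 2 * w - 1 ≠ 0 := by apply ne_of_gt; linarith
  have f2 : κ - 2 * w - 2 ≠ 0 := by apply ne_of_gt; linarith
  have q1 : fU (((w + 1 : ℕ) : ℚ) + 1) (w + 1) =
      fU (w + 1) w * (2 * w + 1) * (2 * ((w : ℚ) + 1)) / ((w : ℚ) + 1) := by
    rw [eq_div_iff a1]; linear_combination hP1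
  have q2 : fD (2 * κ - 3 * ((w + 1 : ℕ) : ℚ)) (w + 1) =
      fD (2 * κ - 3 * w) w * (2 * (κ - 2 * w)) * (2 * κ - 4 * w - 1) * (2 * (κ - 2 * w - 1)) *
        (2 * κ - 4 * w - 3) / ((2 * κ - 3 * w) * (2 * κ - 3 * w - 1) * (2 * κ - 3 * w - 2)) := by
    rw [eq_div_iff (mul_ne_zero (mul_ne_zero b1 b2) b3)]; linear_combination hP2
  have q3 : fT (2 * κ - 2 * ((w + 1 : ℕ) : ℚ) - 1) (w + 1) =
      fT (2 * κ - 2 * w - 1) w * (2 * κ - 4 * w - 1) * (2 * κ - 4 * w - 3) /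
        (2 * κ - 2 * w - 1) := by
    rw [eq_div_iff d1]; linear_combination hP3
  have q4 : fD (κ - 2 * ((w + 1 : ℕ) : ℚ) - 1) (w + 1) =
      fD (κ - 2 * w - 1) w * (κ - 3 * w - 1) * (κ - 3 * w - 2) * (κ - 3 * w - 3) /
        ((κ - 2 * w - 1) * (κ - 2 * w - 2)) := by
    rw [eq_div_iff (mul_ne_zero f1 f2)]; linear_combination hP4
  have e1 : 2 * κ - 3 * ((w + 1 : ℕ) : ℚ) = 2 * κ - 3 * w - 3 := by push_cast; ring
  have e2 : 2 * κ - 6 * ((w + 1 : ℕ) : ℚ) = 2 * (κ - 3 * w - 3) := by push_cast; ring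
  have e3 : 2 * κ - 6 * (w : ℚ) = 2 * (κ - 3 * w) := by ring
  rw [q1, q2, q3, q4, pow_succ, e1, e2, e3]
  exact mu_alg _ _ _ _ _ _ _ _ _ _ _ _ _ _ _ _ _ _ _ _ _ a1 b1 b2 b3 b4 c1 c2 c3 c4 d1 d2 d3
    f1 f2 n3 n4

theorem pv_succ (κ : ℚ) (w : ℕ) (hw : 1 ≤ w) :
    pv κ (w + 1) = pv κ w * (-(κ - 3 * w) * (κ - 3 * w - 1) * (κ - 3 * w - 2) *
      (2 * κ - 3 * w - 1) * (2 * κ - 3 * w - 2) * (2 * κ - 3 * w - 3) /
      (4 * (2 * w + 1) * (2 * κ - 2 * w - 1) * (κ - 2 * w) * (κ - 2 * w - 1) ^ 2 *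
        (κ - 2 * w - 2))) := by
  unfold pv
  rw [Finset.prod_Ico_succ_top hw]
  exact (mul_assoc _ _ _).symm

theorem pv_mu_aux (κ : ℚ) (w : ℕ) (hw : 1 ≤ w) (h : (6 : ℚ) * w - 3 < κ) :
    pv κ w * mu κ w (2 * w) = 2 := by
  induction w, hw using Nat.le_induction with
  | base =>
    have h1 : pv κ 1 = 3 - 2 * κ := by simp [pv]
    have n1 : 2 * κ - 3 ≠ 0 := by apply ne_of_gt; push_cast at h; linarith
    have n2 : κ - 3 ≠ 0 := by apply ne_of_gt; push_cast at h; linarith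
    have h2 : mu κ 1 (2 * 1) = -2 / (2 * κ - 3) := by
      unfold mu
      rw [if_pos (by norm_num)]
      rw [show Finset.Ico 1 (2 * 1) = {1} by rfl, Finset.prod_singleton]
      push_cast
      have i1 : κ - 1 - 1 - 1 = κ - 3 := by ring
      have i2 : 2 * κ - 3 * 1 = 2 * κ - 3 := by ring
      have i3 : 2 * κ - 2 * 1 - 1 = 2 * κ - 3 := by ring
      have i4 : 2 * κ - 3 * 2 = 2 * (κ - 3) := by ring
      rw [i1, i2, i3, i4]
      generalize κ - 3 = X at *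
      generalize 2 * κ - 3 = Y at *
      field_simp
      norm_num
    rw [h1, h2]
    field_simp
    ring
  | succ w hw ih =>
    push_cast at h
    have hw1 : (1 : ℚ) ≤ w := by exact_mod_cast hw
    have ih' := ih (by linarith)
    rw [pv_succ κ w hw, mu_shift κ w (by linarith)]
    have c0 : κ - 2 * w ≠ 0 := by apply ne_of_gt; linarith
    have b2 : 2 * κ - 3 * w - 1 ≠ 0 := by apply ne_of_gt; linarith
    have b3 : 2 * κ - 3 * w - 2 ≠ 0 := by apply ne_of_gt; linarith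
    have b4 : 2 * κ - 3 * w - 3 ≠ 0 := by apply ne_of_gt; linarith
    have c1 : κ - 3 * w ≠ 0 := by apply ne_of_gt; linarith
    have c2 : κ - 3 * w - 1 ≠ 0 := by apply ne_of_gt; linarith
    have c3 : κ - 3 * w - 2 ≠ 0 := by apply ne_of_gt; linarith
    have d1 : 2 * κ - 2 * w - 1 ≠ 0 := by apply ne_of_gt; linarith
    have f1 : κ - 2 * w - 1 ≠ 0 := by apply ne_of_gt; linarith
    have f2 : κ - 2 * w - 2 ≠ 0 := by apply ne_of_gt; linarith
    have g1 : 2 * (w : ℚ) + 1 ≠ 0 := by positivity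
    generalize pv κ w = A at *
    generalize mu κ w (2 * w) = B at *
    have key : ∀ X Y : ℚ, X ≠ 0 → Y ≠ 0 → A * (-X / Y) * (B * (-Y / X)) = A * B := by
      intro X Y hX hY
      field_simp
    have k1 := key ((κ - 3 * w) * (κ - 3 * w - 1) * (κ - 3 * w - 2) *
      (2 * κ - 3 * w - 1) * (2 * κ - 3 * w - 2) * (2 * κ - 3 * w - 3))
      (4 * (2 * w + 1) * (2 * κ - 2 * w - 1) * (κ - 2 * w) * (κ - 2 * w - 1) ^ 2 *
        (κ - 2 * w - 2)) (by positivity) (by positivity)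
    refine Eq.trans ?_ (k1.trans ih')
    have e1 : -(κ - 3 * w) * (κ - 3 * w - 1) * (κ - 3 * w - 2) *
      (2 * κ - 3 * w - 1) * (2 * κ - 3 * w - 2) * (2 * κ - 3 * w - 3) =
      -((κ - 3 * w) * (κ - 3 * w - 1) * (κ - 3 * w - 2) *
      (2 * κ - 3 * w - 1) * (2 * κ - 3 * w - 2) * (2 * κ - 3 * w - 3)) := by ring
    have e2 : 4 * (2 * (w : ℚ) + 1) * (κ - 2 * w) * (κ - 2 * w - 1) ^ 2 * (κ - 2 * w - 2) *
        (2 * κ - 2 * w - 1) = 4 * (2 * w + 1) * (2 * κ - 2 * w - 1) * (κ - 2 * w) *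
        (κ - 2 * w - 1) ^ 2 * (κ - 2 * w - 2) := by ring
    rw [e1, e2]

theorem pv_mu_two_mul (κ w : ℕ) (hw : 1 ≤ w) (h : 3 * (2 * w) < κ) :
    pv κ w * mu κ w (2 * w) = 2 := by
  apply pv_mu_aux _ _ hw
  have : (3 : ℚ) * (2 * w) < κ := by exact_mod_cast h
  linarith

theorem pv_mu_two_mul_sub (κ w : ℕ) (hw : 1 ≤ w) (h : 3 * (2 * w - 1) < κ) :
    pv κ w * mu κ w (2 * w - 1) = 6 * w - 3 - 2 * κ := by
  obtain ⟨m, rfl⟩ : ∃ m, w = m + 1 := ⟨w - 1, by omega⟩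
  have hk : (6 : ℚ) * m + 3 < κ := by
    have : 6 * m + 3 < κ := by omega
    exact_mod_cast this
  have hm0 : (0 : ℚ) ≤ m := Nat.cast_nonneg m
  have h1 := pv_mu_aux (κ : ℚ) (m + 1) hw (by push_cast; linarith)
  have e1 : 2 * (m + 1) - 1 = 2 * m + 1 := by omega
  rw [e1]
  have h2 : mu (κ : ℚ) (m + 1) (2 * (m + 1)) =
      mu (κ : ℚ) (m + 1) (2 * m + 1) * (-2 / (2 * κ - 6 * m - 3)) := by
    unfold mu
    rw [if_pos (by omega), if_pos (by omega)]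
    rw [show 2 * (m + 1) = 2 * m + 1 + 1 by ring, Finset.prod_Ico_succ_top (by omega)]
    have gen : ∀ a b c d Q : ℚ, a * b = c * d → a * (Q * b) = c * Q * d := by
      intro a b c d Q h; linear_combination Q * h
    apply gen
    push_cast
    have n1 : (2 : ℚ) * κ - 6 * m - 3 ≠ 0 := by apply ne_of_gt; linarith
    have n2 : (2 : ℚ) * κ - 3 * (m + 1) ≠ 0 := by apply ne_of_gt; linarith
    have n3 : (κ : ℚ) - 3 * m - 3 ≠ 0 := by apply ne_of_gt; linarith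
    have n4 : (2 : ℚ) * κ - 4 * m - 3 ≠ 0 := by apply ne_of_gt; linarith
    have n5 : (m : ℚ) + 1 ≠ 0 := by positivity
    have i1 : (2 : ℚ) * κ - 3 * (2 * m + 1 + 1) = 2 * (κ - 3 * m - 3) := by ring
    have i2 : (2 : ℚ) * κ - 3 * (2 * m + 1) = 2 * κ - 6 * m - 3 := by ring
    have i3 : (2 : ℚ) * κ - 2 * (2 * m + 1) - 1 = 2 * κ - 4 * m - 3 := by ring
    have i4 : (2 : ℚ) * m + 1 - (m + 1) + 1 = m + 1 := by ring
    have i5 : (κ : ℚ) - (m + 1) - (2 * m + 1) - 1 = κ - 3 * m - 3 := by ring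
    have i6 : (2 : ℚ) * κ - 2 * (m + 1) - (2 * m + 1) = 2 * κ - 4 * m - 3 := by ring
    rw [i1, i2, i3, i4, i5, i6]
    have i7 : (2 : ℚ) * (m + 1) - (2 * m + 1) = 1 := by ring
    have i8 : -((2 : ℚ) * m + 1 + 1) = -(2 * (m + 1)) := by ring
    rw [i7, i8]
    generalize (κ : ℚ) - 3 * m - 3 = X at *
    generalize (2 : ℚ) * κ - 6 * m - 3 = Y at *
    generalize (2 : ℚ) * κ - 3 * (m + 1) = Z at *
    generalize (2 : ℚ) * κ - 4 * m - 3 = W at *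
    generalize (m : ℚ) + 1 = V at *
    field_simp
  rw [h2] at h1
  have n1 : (2 : ℚ) * κ - 6 * m - 3 ≠ 0 := by apply ne_of_gt; linarith
  have h3 : pv (κ : ℚ) (m + 1) * mu (κ : ℚ) (m + 1) (2 * m + 1) * (-2) = 2 * (2 * κ - 6 * m - 3) := by
    field_simp at h1
    linarith
  push_cast
  linarith


end Pool.Agent.Helper5.MD
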