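import Pool.Agent.Helper5.MD.C1LamInv
import Pool.Agent.Helper5.MD.C2MuInv
import Pool.Agent.Helper5.MD.C3LU

/-!
# MD-C4 : the three identities in both cases

Case `ε = true` follows from case `ε = false` by diagonal rescaling:
`b2 κ i j * (3 j - 2 κ) = (6 i - 2 κ) * b1 κ i j` and `LL true κ i w = lam κ i w (κ - 3 i) / (κ - 3 w)`,
`UU true κ w j = mu κ w j (2 κ - 3 w) / (2 κ - 3 j)`, `PP true κ w = pv κ w (6 w - 2 κ) / (3 w - 2 κ)`.
-/

open scoped Nat

namespace Pool.Agent.Helper5.MD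


private lemma ch_succ_left (x : ℚ) (m : ℕ) : ch x (m + 1) * (m + 1) = x * ch (x - 1) m := by
  unfold ch
  rw [Finset.prod_range_succ', Nat.factorial_succ]
  push_cast
  have hp : ∏ k ∈ Finset.range m, (x - ((k : ℚ) + 1)) = ∏ k ∈ Finset.range m, (x - 1 - (k : ℚ)) :=
    Finset.prod_congr rfl fun k _ => by ring
  rw [hp]
  have h0 : ((m : ℚ) + 1) ≠ 0 := by positivity
  have h1 : ((m ! : ℕ) : ℚ) ≠ 0 := by exact_mod_cast (Nat.factorial_ne_zero m)
  field_simp
  ring

private lemma ch_succ_right (x : ℚ) (m : ℕ) : ch x (m + 1) * (m + 1) = (x - m) * ch x m := by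
  unfold ch
  rw [Finset.prod_range_succ, Nat.factorial_succ]
  push_cast
  have h0 : ((m : ℚ) + 1) ≠ 0 := by positivity
  have h1 : ((m ! : ℕ) : ℚ) ≠ 0 := by exact_mod_cast (Nat.factorial_ne_zero m)
  field_simp

private lemma ne_a {κ w : ℕ} (h : 3 * w < κ) : ((κ : ℚ) - 3 * w) ≠ 0 := by
  have : (3 : ℚ) * w < κ := by exact_mod_cast h
  linarith

private lemma ne_b {κ w : ℕ} (h : 3 * w < κ) : (2 * (κ : ℚ) - 3 * w) ≠ 0 := by
  have h1 : (3 : ℚ) * w < κ := by exact_mod_cast h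
  have h2 : (0 : ℚ) ≤ κ := by positivity
  linarith

theorem b2_eq (κ i j : ℕ) (hi : 1 ≤ i) (hj : 1 ≤ j) (hi' : 3 * i < κ) (hj' : 3 * j < κ) :
    b2 κ i j * (3 * j - 2 * κ) = (6 * i - 2 * κ) * b1 κ i j := by
  unfold b1 b2
  rcases lt_trichotomy j (2 * i) with h | h | h
  · rw [if_pos h, if_pos h.le]
    obtain ⟨m, hm⟩ : ∃ m, 2 * i - j = m + 1 := ⟨2 * i - j - 1, by omega⟩
    have hm2 : 2 * i = j + (m + 1) := by omega
    have hm3 : (2 : ℚ) * i = j + (m + 1) := by exact_mod_cast hm2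
    rw [hm, Nat.add_sub_cancel]
    have h1 := ch_succ_left ((i : ℚ) + j - κ) m
    have h2 := ch_succ_right ((i : ℚ) + j - κ - 1) m
    have hm0 : ((m : ℚ) + 1) ≠ 0 := by positivity
    have h1' : ch ((i : ℚ) + j - κ) (m + 1) =
        ((i : ℚ) + j - κ) * ch ((i : ℚ) + j - κ - 1) m / (m + 1) := by
      rw [eq_div_iff hm0, h1]
    have h2' : ch ((i : ℚ) + j - κ - 1) (m + 1) =
        ((i : ℚ) + j - κ - 1 - m) * ch ((i : ℚ) + j - κ - 1) m / (m + 1) := by
      rw [eq_div_iff hm0, h2]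
    rw [h1', h2']
    have hi2 : (i : ℚ) = (j + (m + 1)) / 2 := by linarith
    rw [hi2]
    field_simp
    ring
  · rw [if_neg (by omega), if_pos h, if_pos h.le]
    have h0 : 2 * i - j = 0 := by omega
    rw [h0]
    have hc : ∀ x : ℚ, ch x 0 = 1 := by
      intro x
      unfold ch
      simp
    rw [hc, hc]
    have hj2 : (j : ℚ) = 2 * i := by exact_mod_cast h
    rw [hj2]
    ring
  · rw [if_neg (by omega), if_neg (by omega), if_neg (by omega)]
    ring

theorem LL_mul_LI (ε : Bool) (κ i j : ℕ) (hj : 1 ≤ j) (hji : j ≤ i) (hi : 3 * i < κ) :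
    ∑ w ∈ Finset.Icc j i, LL ε κ i w * LI ε κ w j = if i = j then 1 else 0 := by
  have hmain := lam_mul_lamInv κ i j hj hji hi
  cases ε with
  | false => simpa [LL, LI] using hmain
  | true =>
    have hrw : ∑ w ∈ Finset.Icc j i, LL true κ i w * LI true κ w j =
        (((κ : ℚ) - 3 * i) / (κ - 3 * j)) * ∑ w ∈ Finset.Icc j i, lam κ i w * lamInv κ w j := by
      rw [Finset.mul_sum]
      refine Finset.sum_congr rfl fun w hw => ?_
      rw [Finset.mem_Icc] at hw
      have h1 : ((κ : ℚ) - 3 * w) ≠ 0 := ne_a (by omega)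
      have h2 : ((κ : ℚ) - 3 * j) ≠ 0 := ne_a (by omega)
      simp only [LL, LI, if_true]
      field_simp
    rw [hrw, hmain]
    by_cases h : i = j
    · subst h
      rw [if_pos rfl, mul_one, div_self (ne_a hi)]
    · rw [if_neg h, mul_zero]

theorem UI_mul_UU (ε : Bool) (κ j s : ℕ) (hj : 1 ≤ j) (hjs : j ≤ s) (hs : 3 * s < κ) :
    ∑ w ∈ Finset.Icc j s, UI ε κ j w * UU ε κ w s = if j = s then 1 else 0 := by
  have hmain := muInv_mul_mu κ j s hj hjs hs
  cases ε with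
  | false => simpa [UI, UU] using hmain
  | true =>
    have hrw : ∑ w ∈ Finset.Icc j s, UI true κ j w * UU true κ w s =
        ((2 * (κ : ℚ) - 3 * j) / (2 * κ - 3 * s)) *
          ∑ w ∈ Finset.Icc j s, muInv κ j w * mu κ w s := by
      rw [Finset.mul_sum]
      refine Finset.sum_congr rfl fun w hw => ?_
      rw [Finset.mem_Icc] at hw
      have h1 : (2 * (κ : ℚ) - 3 * w) ≠ 0 := ne_b (by omega)
      have h2 : (2 * (κ : ℚ) - 3 * s) ≠ 0 := ne_b (by omega)
      simp only [UI, UU, if_true]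
      field_simp
    rw [hrw, hmain]
    by_cases h : j = s
    · subst h
      rw [if_pos rfl, mul_one, div_self (ne_b hs)]
    · rw [if_neg h, mul_zero]

theorem LL_PP_UU (ε : Bool) (κ i j : ℕ) (hi : 1 ≤ i) (hj : 1 ≤ j) (hi' : 3 * i < κ)
    (hj' : 3 * j < κ) :
    ∑ w ∈ Finset.Icc 1 (min i j), LL ε κ i w * PP ε κ w * UU ε κ w j = bb ε κ i j := by
  have hmain := lam_pv_mu κ i j hi hj hi' hj'
  cases ε with
  | false => simpa [LL, PP, UU, bb] using hmain
  | true =>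
    have hjn : (2 * (κ : ℚ) - 3 * j) ≠ 0 := ne_b hj'
    have hrw : ∑ w ∈ Finset.Icc 1 (min i j), LL true κ i w * PP true κ w * UU true κ w j =
        (2 * ((κ : ℚ) - 3 * i) / (2 * κ - 3 * j)) *
          ∑ w ∈ Finset.Icc 1 (min i j), lam κ i w * pv κ w * mu κ w j := by
      rw [Finset.mul_sum]
      refine Finset.sum_congr rfl fun w hw => ?_
      rw [Finset.mem_Icc] at hw
      have hwi : w ≤ i := le_trans hw.2 (min_le_left _ _)
      have h1 : ((κ : ℚ) - 3 * w) ≠ 0 := ne_a (by omega)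
      have h2 : (2 * (κ : ℚ) - 3 * w) ≠ 0 := ne_b (by omega)
      have h3 : (6 * (w : ℚ) - 2 * κ) = -2 * (κ - 3 * w) := by ring
      have h4 : (3 * (w : ℚ) - 2 * κ) = -(2 * κ - 3 * w) := by ring
      simp only [LL, PP, UU, if_true]
      rw [h3, h4]
      have h5 : ((κ : ℚ) - 3 * i) / (κ - 3 * w) * (-2 * (κ - 3 * w) / -(2 * κ - 3 * w)) *
          ((2 * κ - 3 * w) / (2 * κ - 3 * j)) = 2 * ((κ : ℚ) - 3 * i) / (2 * κ - 3 * j) := by
        rw [div_mul_div_comm, div_mul_div_comm, div_eq_div_iff]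
        · ring
        · exact mul_ne_zero (mul_ne_zero h1 (neg_ne_zero.2 h2)) hjn
        · exact hjn
      rw [← h5]
      ring
    rw [hrw, hmain]
    have hb := b2_eq κ i j hi hj hi' hj'
    simp only [bb, if_true]
    have h6 : (3 * (j : ℚ) - 2 * κ) = -(2 * κ - 3 * j) := by ring
    rw [h6] at hb
    rw [div_mul_eq_mul_div, div_eq_iff hjn]
    linarith


end Pool.Agent.Helper5.MD
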