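import Pool.Agent.Helper5.MD.VGBasic

/-!
# The vertex criterion: definitions
-/

namespace Pool.Agent.Helper5.MD

/-- The hypotheses of the block criterion at the index `n` with slope bound `s`, for an `N × N`
rational matrix `M`: `G` is the inverse of the leading `n × n` block. -/
def Crit (N n : ℕ) (M : Matrix (Fin N) (Fin N) ℚ) (s : ℤ) : Prop :=
  n ≤ N ∧ ∃ G : Matrix (Fin N) (Fin N) ℚ,
    (∀ i j : Fin N, i.val < n → j.val < n →
      (∑ c : Fin N, if c.val < n then M i c * G c j else 0) = if i = j then 1 else 0) ∧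
    (∀ i j : Fin N, i.val < n → j.val < n → VG (1 - s) (G i j)) ∧
    (∀ i j : Fin N, n ≤ i.val → j.val < n →
      VG 1 (∑ c : Fin N, if c.val < n then M i c * G c j else 0)) ∧
    (∀ i j : Fin N, i.val < n → n ≤ j.val →
      VG 0 (∑ c : Fin N, if c.val < n then G i c * M c j else 0)) ∧
    (∀ i j : Fin N, n ≤ i.val → n ≤ j.val →
      VG (s + 1) (M i j - ∑ c : Fin N, ∑ d : Fin N,
        if c.val < n ∧ d.val < n then M i c * G c d * M d j else 0))

/-- The reversed characteristic polynomial of `2 ^ (-s) M` is, up to a scalar `u`, congruent to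
(unit) * `X ^ n` modulo the maximal ideal of `ℤ_(2)`. -/
def VertexAt (N n : ℕ) (M : Matrix (Fin N) (Fin N) ℚ) (s : ℤ) : Prop :=
  ∃ u : ℚ, (∀ m : ℕ, m ≠ n → VG 1 (u * (((2 : ℚ) ^ (-s)) • M).charpolyRev.coeff m)) ∧
    u * (((2 : ℚ) ^ (-s)) • M).charpolyRev.coeff n ≠ 0 ∧
    padicValRat 2 (u * (((2 : ℚ) ^ (-s)) • M).charpolyRev.coeff n) = 0

/-- the scaled matrix `M` as a matrix over `Fin (κ - 1)` (index shift by one) -/
noncomputable def MAT (ε : Bool) (κ : ℕ) : Matrix (Fin (κ - 1)) (Fin (κ - 1)) ℚ :=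
  Matrix.of fun i j => MM ε κ (i.val + 1) (j.val + 1)

end Pool.Agent.Helper5.MD
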