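import Pool.Agent.Helper5.MD.VGBasic

/-!
# MD-D1 : binomial coefficients and windows

`vC N r ≤ max_(N - r < m ≤ N) v2 m`: let `m0` be an index with `v2 m0 = M` maximal; for `m ≠ m0` in the window
`v2 m ≤ v2 (m - m0)` (as `v2 m ≤ M`), so `∑_(m ≠ m0) v2 m ≤ v2 (i! (r-1-i)!) ≤ v2 ((r-1)!)`, and
`r! C(N, r) = ∏ m`.  With the `Good` hypothesis `4 v2 m ≤ 12 + |m - x|`.
Second statement: if all `m` in the window `[N - r + 1, N]` lie in `[1, 127]`, then `v2 (m + 128 t) = v2 m`.
Third statement: the Kummer bound (Mathlib: `Nat.factorization_choose_le_log`).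
-/

open scoped Nat

namespace Pool.Agent.Helper5.MD

/-- A position where there is a carry gives a multiple of the power in the window. -/
theorem exists_window (N r : ℕ) (hr : r ≤ N) (h : 1 ≤ vC N r) :
    ∃ m : ℕ, N < m + r ∧ m ≤ N ∧ vC N r ≤ padicValNat 2 m := by
  have hK := padicValNat_choose (p := 2) (b := Nat.log 2 N + 1) hr (Nat.lt_succ_self _)
  set S := Finset.filter (fun i => 2 ^ i ≤ r % 2 ^ i + (N - r) % 2 ^ i)
    (Finset.Ico 1 (Nat.log 2 N + 1)) with hS
  have hne : S.Nonempty := by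
    rw [← Finset.card_pos, ← hK]
    exact h
  obtain ⟨M, hM, hmax⟩ := S.exists_max_image id hne
  have hM' := hM
  rw [hS, Finset.mem_filter, Finset.mem_Ico] at hM'
  obtain ⟨⟨hM1, hM2⟩, hc⟩ := hM'
  have hcard : S.card ≤ M := by
    have hsub : S ⊆ Finset.Ico 1 (M + 1) := by
      intro i hi
      have h1 := hmax i hi
      rw [hS, Finset.mem_filter, Finset.mem_Ico] at hi
      rw [Finset.mem_Ico]
      simp only [id] at h1
      omega
    have := Finset.card_le_card hsub
    simpa using this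
  have hp : 0 < 2 ^ M := by positivity
  refine ⟨((N - r) / 2 ^ M + 1) * 2 ^ M, ?_, ?_, ?_⟩
  · have h1 := Nat.div_add_mod (N - r) (2 ^ M)
    have h2 := Nat.mod_lt (N - r) hp
    have h3 : ((N - r) / 2 ^ M + 1) * 2 ^ M = 2 ^ M * ((N - r) / 2 ^ M) + 2 ^ M := by ring
    omega
  · have h1 := Nat.div_add_mod (N - r) (2 ^ M)
    have h2 := Nat.mod_le r (2 ^ M)
    have h3 : ((N - r) / 2 ^ M + 1) * 2 ^ M = 2 ^ M * ((N - r) / 2 ^ M) + 2 ^ M := by ring
    omega
  · unfold vC
    rw [hK]
    refine hcard.trans ?_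
    rw [padicValNat.mul (Nat.succ_ne_zero _) hp.ne', padicValNat.prime_pow]
    exact Nat.le_add_left _ _

theorem vC_window (x0 x : ℕ) (hG : Good x0 x) (N r B : ℕ) (hr : r ≤ N) (h1 : N ≤ x + B)
    (h2 : x + r ≤ N + 1 + B) : 4 * vC N r ≤ 12 + B := by
  rcases Nat.eq_zero_or_pos (vC N r) with h0 | h0
  · rw [h0]; omega
  obtain ⟨m, hm1, hm2, hm3⟩ := exists_window N r hr h0
  have hm0 : 1 ≤ m := by omega
  have hg := hG.2 m hm0
  have habs : ((m : ℤ) - x).natAbs ≤ B := by omega
  omega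

theorem vC_near (N r t : ℕ) (hr : r ≤ N) (hN : N < 128) : vC (N + 128 * t) r = vC N r := by
  have hb : Nat.log 2 N < Nat.log 2 (N + 128 * t) + 8 := by
    have := Nat.log_mono_right (b := 2) (show N ≤ N + 128 * t by omega)
    omega
  have hK1 := padicValNat_choose (p := 2) (b := Nat.log 2 (N + 128 * t) + 8) hr hb
  have hK2 := padicValNat_choose (p := 2) (n := N + 128 * t) (k := r)
    (b := Nat.log 2 (N + 128 * t) + 8) (by omega) (by omega)
  unfold vC
  rw [hK1, hK2]
  congr 1
  apply Finset.filter_congr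
  intro i hi
  rcases Nat.lt_or_ge i 8 with h8 | h8
  · have hd : (2 : ℕ) ^ i ∣ 128 * t := by
      refine Dvd.dvd.mul_right ?_ _
      have : (128 : ℕ) = 2 ^ 7 := by norm_num
      rw [this]
      exact pow_dvd_pow 2 (by omega)
    have he : (N + 128 * t - r) % 2 ^ i = (N - r) % 2 ^ i := by
      obtain ⟨c, hc⟩ := hd
      rw [hc, show N + 2 ^ i * c - r = (N - r) + 2 ^ i * c by omega, Nat.add_mul_mod_self_left]
    rw [he]
  · have hge : 128 * 2 ^ (i - 7) = 2 ^ i := by
      rw [show (128 : ℕ) = 2 ^ 7 by norm_num, ← pow_add]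
      congr 1
      omega
    have hge' : 128 ≤ 2 ^ i := by
      rw [← hge]
      have : 0 < 2 ^ (i - 7) := by positivity
      omega
    have hr' : r % 2 ^ i = r := Nat.mod_eq_of_lt (by omega)
    have hNr : (N - r) % 2 ^ i = N - r := Nat.mod_eq_of_lt (by omega)
    have hT : (N + 128 * t - r) % 2 ^ i = (N - r) + 128 * (t % 2 ^ (i - 7)) := by
      have hdm := Nat.div_add_mod t (2 ^ (i - 7))
      have hml := Nat.mod_lt t (show 0 < 2 ^ (i - 7) by positivity)
      have e1 : N + 128 * t - r = ((N - r) + 128 * (t % 2 ^ (i - 7))) + 2 ^ i * (t / 2 ^ (i - 7)) := by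
        conv_lhs => rw [← hdm]
        rw [← hge, Nat.mul_add, ← Nat.mul_assoc]
        omega
      rw [e1, Nat.add_mul_mod_self_left]
      apply Nat.mod_eq_of_lt
      rw [← hge]
      omega
    have hml := Nat.mod_lt t (show 0 < 2 ^ (i - 7) by positivity)
    rw [hr', hNr, hT]
    constructor
    · intro h
      rw [← hge] at h
      omega
    · intro h
      omega

theorem vC_le_log (N r : ℕ) : vC N r ≤ Nat.log 2 N := by
  have h := Nat.factorization_choose_le_log (p := 2) (n := N) (k := r)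
  rwa [Nat.factorization_def _ Nat.prime_two] at h

theorem vC_two_pow_le (N r : ℕ) (hr : r ≤ N) (hN : 1 ≤ N) : 2 ^ vC N r ≤ N :=
  (Nat.pow_le_pow_right (by norm_num) (vC_le_log N r)).trans (Nat.pow_log_le_self 2 (by omega))


end Pool.Agent.Helper5.MD
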