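import Pool.Agent.Helper5.MD.D1Window

/-!
# MD-D3 : the inequality for `S'`

By symmetry `c ≤ a`.  With the identities `C(x-2e-1, a-e) C(x-1, 2e) = C(x-1, a+e) C(a+e, 2e)` and
`C(x, 2e) (x - 2e) = C(x-1, 2e) x` and `v2 ((3e)!) - v2 ((2e)!) ≥ v2 (e!) = e - s(e)`, the claim follows from
`2 + v2 x + vC (x-1) (a+e) + vC (x-1) (c+e) + vC (a+e) (2e) + vC (c+e) (2e) + 2 s(e) ≤ 2 a + 2 c + η + v2 (x - 2e)`.
Far case `a ≥ 13`: `4 vC (x-1) (a+e) ≤ 12 + (a+e)` (MD-D1, window `[x-a-e, x-1]`), the same for `c`, `v2 x ≤ 2`,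
`2 ^ vC (a+e) (2e) ≤ a + e`, `2 ^ vC (c+e) (2e) ≤ c + e`, `s(e) ≤ log2 e + 1`: linear against logarithmic.
Near case `a ≤ 12`: by MD-D1 (`vC_near`) all quantities equal those for `x = x0`
(`x0 = 84, 43, 85`; windows stay in `[1, 127]`), finite check by `decide`
(about `12^3` cases times three; the inequality `rhs - lhs ≥ 0` was verified numerically for all
`a, c ≤ 40` and adversarial `x`; minimal slack `0`).
-/

open scoped Nat

namespace Pool.Agent.Helper5.MD

namespace D3

/-- Legendre sum for arguments less than `256` -/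
def lg (n : ℕ) : ℕ := n / 2 + n / 4 + n / 8 + n / 16 + n / 32 + n / 64 + n / 128

theorem vf_eq_lg (n : ℕ) (hn : n < 256) : vf n = lg n := by
  have h : Nat.log 2 n < 8 := by
    rcases Nat.eq_zero_or_pos n with rfl | h0
    · simp
    · exact Nat.log_lt_of_lt_pow (by omega) (by norm_num; omega)
  unfold vf
  rw [padicValNat_factorial h, show Finset.Ico 1 8 = {1, 2, 3, 4, 5, 6, 7} from rfl]
  simp [lg, add_assoc]

theorem vC_add (n r : ℕ) (hr : r ≤ n) : vC n r + vf r + vf (n - r) = vf n := by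
  unfold vC vf
  rw [← padicValNat.mul (Nat.choose_pos hr).ne' (Nat.factorial_ne_zero _),
    ← padicValNat.mul (mul_ne_zero (Nat.choose_pos hr).ne' (Nat.factorial_ne_zero _))
      (Nat.factorial_ne_zero _), Nat.choose_mul_factorial_mul_factorial hr]

theorem eight_mul_le (k n : ℕ) (h : 2 ^ k ≤ n) : 8 * k ≤ 16 + n := by
  have h2 : ∀ k : ℕ, 8 * k ≤ 16 + 2 ^ k := by
    intro k
    induction k with
    | zero => simp
    | succ k ih =>
      by_cases hk : k < 3
      · interval_cases k <;> simp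
      · have : 2 ^ 3 ≤ 2 ^ k := Nat.pow_le_pow_right (by norm_num) (by omega)
        rw [pow_succ]
        omega
  exact (h2 k).trans (by omega)

theorem le_vf_add (e : ℕ) (he : 1 ≤ e) : ∃ s, e = vf e + s ∧ 8 * s ≤ 24 + e := by
  have h1 := sub_one_mul_padicValNat_factorial (p := 2) e
  have h2 := Nat.digit_sum_le 2 e
  refine ⟨(Nat.digits 2 e).sum, ?_, ?_⟩
  · unfold vf
    omega
  · have h3 : (Nat.digits 2 e).sum ≤ (Nat.digits 2 e).length • 1 := by
      apply List.sum_le_card_nsmul
      intro d hd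
      have := Nat.digits_lt_base (by norm_num : 1 < 2) hd
      omega
    rw [Nat.length_digits 2 e (by norm_num) (by omega)] at h3
    simp only [smul_eq_mul, mul_one] at h3
    have h4 := eight_mul_le (Nat.log 2 e) e (Nat.pow_log_le_self 2 (by omega))
    omega

/-- the finite check of the near case -/
def nearB (y e a c : ℕ) : Bool :=
  decide (e < 1) || decide (a < e) || decide (c < e) ||
  decide (2 + (lg y - lg (2 * e) - lg (y - 2 * e)) + (lg (y - 1) - lg (2 * e) - lg (y - 1 - 2 * e)) +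
      (lg (y - 2 * e - 1) - lg (a - e) - lg (y - 2 * e - 1 - (a - e))) +
      (lg (y - 2 * e - 1) - lg (c - e) - lg (y - 2 * e - 1 - (c - e))) + 2 * lg (2 * e) ≤
    2 * (a - e) + 2 * (c - e) + 2 * e + 2 * lg (3 * e) +
      (if e = 1 then (if y = 84 then 2 else 4) else 0))

theorem nearB_all : ∀ y ∈ [84, 43, 85], ∀ e < 13, ∀ a < 13, ∀ c < 13, nearB y e a c = true := by
  decide +kernel

theorem near_S (y : ℕ) (hy : y ∈ [84, 43, 85]) (e a c : ℕ) (he1 : e < 13) (ha : a < 13)
    (hc : c < 13) (he : 1 ≤ e) (hea : e ≤ a) (hec : e ≤ c) :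
    2 + (lg y - lg (2 * e) - lg (y - 2 * e)) + (lg (y - 1) - lg (2 * e) - lg (y - 1 - 2 * e)) +
      (lg (y - 2 * e - 1) - lg (a - e) - lg (y - 2 * e - 1 - (a - e))) +
      (lg (y - 2 * e - 1) - lg (c - e) - lg (y - 2 * e - 1 - (c - e))) + 2 * lg (2 * e) ≤
    2 * (a - e) + 2 * (c - e) + 2 * e + 2 * lg (3 * e) +
      (if e = 1 then (if y = 84 then 2 else 4) else 0) := by
  have h := nearB_all y hy e he1 a ha c hc
  unfold nearB at h
  simp only [Bool.or_eq_true, decide_eq_true_eq] at h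
  rcases h with ((h | h) | h) | h
  · omega
  · omega
  · omega
  · exact h

theorem vC_lg (n r : ℕ) (hr : r ≤ n) (hn : n < 256) : vC n r = lg n - lg r - lg (n - r) := by
  have h := vC_add n r hr
  rw [vf_eq_lg n hn, vf_eq_lg r (by omega), vf_eq_lg (n - r) (by omega)] at h
  omega

theorem ineq_S_aux (x0 x : ℕ) (hx0 : x0 = 84 ∨ x0 = 43 ∨ x0 = 85) (hG : Good x0 x)
    (a c e η : ℕ) (he : 1 ≤ e) (hea : e ≤ a) (hec : e ≤ c) (hca : c ≤ a)
    (hax : a + e < x) (hcx : c + e < x)
    (hη : e = 1 → (if x0 = 84 then 2 else 4) ≤ η) :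
    2 + vC x (2 * e) + vC (x - 1) (2 * e) + vC (x - 2 * e - 1) (a - e) +
      vC (x - 2 * e - 1) (c - e) + 2 * vf (2 * e) ≤
    2 * (a - e) + 2 * (c - e) + 2 * e + 2 * vf (3 * e) + η := by
  by_cases ha : a < 13
  · -- near case
    obtain ⟨t, ht⟩ : ∃ t, x = x0 + 128 * t := ⟨x / 128, by have := hG.1; omega⟩
    have hx1 : x - 1 = (x0 - 1) + 128 * t := by omega
    have hx2 : x - 2 * e - 1 = (x0 - 2 * e - 1) + 128 * t := by omega
    rw [hx2, hx1, ht, vC_near x0 (2 * e) t (by omega) (by omega),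
      vC_near (x0 - 1) (2 * e) t (by omega) (by omega),
      vC_near (x0 - 2 * e - 1) (a - e) t (by omega) (by omega),
      vC_near (x0 - 2 * e - 1) (c - e) t (by omega) (by omega),
      vC_lg x0 (2 * e) (by omega) (by omega), vC_lg (x0 - 1) (2 * e) (by omega) (by omega),
      vC_lg (x0 - 2 * e - 1) (a - e) (by omega) (by omega),
      vC_lg (x0 - 2 * e - 1) (c - e) (by omega) (by omega), vf_eq_lg (2 * e) (by omega),
      vf_eq_lg (3 * e) (by omega)]
    have h := near_S x0 (by rcases hx0 with h | h | h <;> simp [h]) e a c (by omega) ha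
      (by omega) he hea hec
    have h2 : (if e = 1 then (if x0 = 84 then 2 else 4) else 0) ≤ η := by
      split
      · exact hη ‹_›
      · omega
    omega
  · -- far case
    have hxpos : 0 < x := by omega
    -- trinomial revision
    have tri : ∀ b, e ≤ b → b + e < x →
        vC (x - 1) (b + e) + vC (b + e) (2 * e) = vC (x - 1) (2 * e) + vC (x - 2 * e - 1) (b - e) := by
      intro b hb hbx
      have h1 := Nat.choose_mul (n := x - 1) (k := b + e) (s := 2 * e) (by omega)
      rw [show x - 1 - 2 * e = x - 2 * e - 1 by omega, show b + e - 2 * e = b - e by omega] at h1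
      have h2 := congrArg (padicValNat 2) h1
      rw [padicValNat.mul (Nat.choose_pos (by omega)).ne' (Nat.choose_pos (by omega)).ne',
        padicValNat.mul (Nat.choose_pos (by omega)).ne' (Nat.choose_pos (by omega)).ne'] at h2
      exact h2
    have hab := Nat.choose_mul_succ_eq (x - 1) (2 * e)
    rw [show x - 1 + 1 = x by omega] at hab
    have hab2 := congrArg (padicValNat 2) hab
    rw [padicValNat.mul (Nat.choose_pos (by omega)).ne' (by omega),
      padicValNat.mul (Nat.choose_pos (by omega)).ne' (by omega)] at hab2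
    change vC (x - 1) (2 * e) + padicValNat 2 x = vC x (2 * e) + padicValNat 2 (x - 2 * e) at hab2
    have hv : padicValNat 2 x ≤ 2 := by
      by_contra hc
      have h8 : 2 ^ 3 ∣ x := (padicValNat_dvd_iff_le (by omega)).2 (by omega)
      have := hG.1
      omega
    have hvf : vf (2 * e) + vf e ≤ vf (3 * e) := by
      have := vC_add (3 * e) (2 * e) (by omega)
      rw [show 3 * e - 2 * e = e by omega] at this
      omega
    obtain ⟨s, hs1, hs2⟩ := le_vf_add e he
    have wa := vC_window x0 x hG (x - 1) (a + e) (a + e) (by omega) (by omega) (by omega)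
    have wc := vC_window x0 x hG (x - 1) (c + e) (c + e) (by omega) (by omega) (by omega)
    have la := eight_mul_le _ _ (vC_two_pow_le (a + e) (2 * e) (by omega) (by omega))
    have lc := eight_mul_le _ _ (vC_two_pow_le (c + e) (2 * e) (by omega) (by omega))
    have ta := tri a hea hax
    have tc := tri c hec hcx
    omega

end D3

theorem ineq_S (x0 x : ℕ) (hx0 : x0 = 84 ∨ x0 = 43 ∨ x0 = 85) (hG : Good x0 x)
    (a c e η : ℕ) (he : 1 ≤ e) (hea : e ≤ a) (hec : e ≤ c) (hax : a + e < x) (hcx : c + e < x)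
    (hη : e = 1 → (if x0 = 84 then 2 else 4) ≤ η) :
    2 + vC x (2 * e) + vC (x - 1) (2 * e) + vC (x - 2 * e - 1) (a - e) +
      vC (x - 2 * e - 1) (c - e) + 2 * vf (2 * e) ≤
    2 * (a - e) + 2 * (c - e) + 2 * e + 2 * vf (3 * e) + η := by
  rcases le_total c a with h | h
  · exact D3.ineq_S_aux x0 x hx0 hG a c e η he hea hec h hax hcx hη
  · have := D3.ineq_S_aux x0 x hx0 hG c a e η he hec hea h hcx hax hη
    omega

end Pool.Agent.Helper5.MD
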