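import Pool.Agent.Helper5.MD.D1Window

/-!
# MD-D4 : the inequality for `P⁻¹`

By symmetry `c ≤ b`.  With `C(x+b+e, b-e) C(x+2e, 2e) = C(x+b+e, b+e) C(b+e, 2e)` and
`C(x+2e-1, 2e) (x + 2e) = C(x+2e, 2e) x` the claim follows from
`v2 x + vC (x+b+e) (b+e) + vC (x+c+e) (c+e) + vC (b+e) (2e) + vC (c+e) (2e) + 2 s(e) ≤ 2 b + 2 c + v2 (x + 2e)`.
Far case `b ≥ 13`: `4 vC (x+b+e) (b+e) ≤ 12 + (b+e)` (MD-D1, window `[x+1, x+b+e]`) etc.;
near case `b ≤ 12`: `vC_near` and a finite check (`x0 + 24 ≤ 127`).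
-/

open scoped Nat

namespace Pool.Agent.Helper5.MD

namespace IneqP

/-- Sum of the last `k` binary digits. -/
def pc : ℕ → ℕ → ℕ
  | 0, _ => 0
  | k + 1, n => n % 2 + pc k (n / 2)

theorem pc_eq (k : ℕ) : ∀ n : ℕ, n < 2 ^ k → pc k n = (Nat.digits 2 n).sum := by
  induction k with
  | zero =>
    intro n hn
    have : n = 0 := by simpa using hn
    subst this
    simp [pc]
  | succ k ih =>
    intro n hn
    rcases Nat.eq_zero_or_pos n with h0 | h0
    · subst h0
      have h := ih 0 (by positivity)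
      simp only [pc, Nat.zero_mod, Nat.zero_div, zero_add]
      exact h
    · rw [Nat.digits_of_two_le_of_pos (le_refl 2) h0, List.sum_cons, pc, ih (n / 2)]
      rw [pow_succ] at hn
      omega

theorem vf_eq (n : ℕ) : vf n + (Nat.digits 2 n).sum = n := by
  have h := sub_one_mul_padicValNat_factorial (p := 2) n
  have h2 := Nat.digit_sum_le 2 n
  simp only [show 2 - 1 = 1 from rfl, one_mul] at h
  unfold vf
  omega

theorem vC_eq_digits (N r : ℕ) (hr : r ≤ N) :
    vC N r = (Nat.digits 2 r).sum + (Nat.digits 2 (N - r)).sum - (Nat.digits 2 N).sum := by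
  have h := sub_one_mul_padicValNat_choose_eq_sub_sum_digits' (p := 2) (k := r) (n := N - r)
  rw [Nat.sub_add_cancel hr] at h
  simp only [show 2 - 1 = 1 from rfl, one_mul] at h
  exact h

theorem vC_pc (N r : ℕ) (hr : r ≤ N) (hN : N < 128) :
    vC N r = pc 7 r + pc 7 (N - r) - pc 7 N := by
  rw [vC_eq_digits N r hr, pc_eq 7 r (by norm_num; omega), pc_eq 7 (N - r) (by norm_num; omega),
    pc_eq 7 N (by norm_num; omega)]

theorem vf_pc (n : ℕ) (hn : n < 128) : vf n = n - pc 7 n := by
  have h := vf_eq n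
  rw [pc_eq 7 n (by norm_num; omega)]
  omega

/-- Value of `vC` on small arguments. -/
def W (N r : ℕ) : ℕ := pc 7 r + pc 7 (N - r) - pc 7 N

/-- The finite check at one place. -/
def good (y b c e : ℕ) : Bool :=
  Nat.ble (W (y + 2 * e) (2 * e) + W (y + 2 * e - 1) (2 * e) +
      W (y + b + e) (b - e) + W (y + c + e) (c - e) +
      2 * (2 * e - pc 7 (2 * e)))
    (2 * (b - e) + 2 * (c - e) + 2 * e + 2 * (3 * e - pc 7 (3 * e)))

/-- The finite check. -/
def goods : Bool :=
  [84, 43, 85].all fun y => (List.range 13).all fun b => (List.range 13).all fun c =>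
    (List.range 13).all fun e => !(Nat.ble e b && Nat.ble e c) || good y b c e

theorem goods_true : goods = true := by
  decide +kernel

theorem check (y b c e : ℕ) (hy : y ∈ [84, 43, 85]) (hb : b < 13) (hc : c < 13) (he : e < 13)
    (heb : e ≤ b) (hec : e ≤ c) :
    W (y + 2 * e) (2 * e) + W (y + 2 * e - 1) (2 * e) +
      W (y + b + e) (b - e) + W (y + c + e) (c - e) +
      2 * (2 * e - pc 7 (2 * e)) ≤
    2 * (b - e) + 2 * (c - e) + 2 * e + 2 * (3 * e - pc 7 (3 * e)) := by
  have h := goods_true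
  unfold goods at h
  rw [List.all_eq_true] at h
  have h1 := h y hy
  rw [List.all_eq_true] at h1
  have h2 := h1 b (List.mem_range.mpr hb)
  rw [List.all_eq_true] at h2
  have h3 := h2 c (List.mem_range.mpr hc)
  rw [List.all_eq_true] at h3
  have h4 := h3 e (List.mem_range.mpr he)
  rw [Nat.ble_eq_true_of_le heb, Nat.ble_eq_true_of_le hec] at h4
  simp only [Bool.and_self, Bool.not_true, Bool.false_or] at h4
  exact Nat.le_of_ble_eq_true h4

theorem near (x0 x : ℕ) (hx0 : x0 = 84 ∨ x0 = 43 ∨ x0 = 85) (hG : Good x0 x)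
    (b c e : ℕ) (heb : e ≤ b) (hec : e ≤ c) (hb : b ≤ 12) (hc : c ≤ 12) :
    vC (x + 2 * e) (2 * e) + vC (x + 2 * e - 1) (2 * e) + vC (x + b + e) (b - e) +
      vC (x + c + e) (c - e) + 2 * vf (2 * e) ≤
    2 * (b - e) + 2 * (c - e) + 2 * e + 2 * vf (3 * e) := by
  have hx : x = x0 + 128 * (x / 128) := by
    have := hG.1
    omega
  obtain ⟨t, ht⟩ : ∃ t, x = x0 + 128 * t := ⟨x / 128, hx⟩
  have hx0b : x0 ≤ 85 ∧ 43 ≤ x0 := by omega
  have e1 : vC (x + 2 * e) (2 * e) = W (x0 + 2 * e) (2 * e) := by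
    rw [show x + 2 * e = (x0 + 2 * e) + 128 * t by omega, vC_near _ _ _ (by omega) (by omega),
      vC_pc _ _ (by omega) (by omega), W]
  have e2 : vC (x + 2 * e - 1) (2 * e) = W (x0 + 2 * e - 1) (2 * e) := by
    rw [show x + 2 * e - 1 = (x0 + 2 * e - 1) + 128 * t by omega,
      vC_near _ _ _ (by omega) (by omega), vC_pc _ _ (by omega) (by omega), W]
  have e3 : vC (x + b + e) (b - e) = W (x0 + b + e) (b - e) := by
    rw [show x + b + e = (x0 + b + e) + 128 * t by omega,
      vC_near _ _ _ (by omega) (by omega), vC_pc _ _ (by omega) (by omega), W]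
  have e4 : vC (x + c + e) (c - e) = W (x0 + c + e) (c - e) := by
    rw [show x + c + e = (x0 + c + e) + 128 * t by omega,
      vC_near _ _ _ (by omega) (by omega), vC_pc _ _ (by omega) (by omega), W]
  rw [e1, e2, e3, e4, vf_pc (2 * e) (by omega), vf_pc (3 * e) (by omega)]
  rcases hx0 with h | h | h
  · have := check 84 b c e (by simp) (by omega) (by omega) (by omega) heb hec
    rw [h]
    exact this
  · have := check 43 b c e (by simp) (by omega) (by omega) (by omega) heb hec
    rw [h]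
    exact this
  · have := check 85 b c e (by simp) (by omega) (by omega) (by omega) heb hec
    rw [h]
    exact this

theorem four_log (n : ℕ) : 4 * Nat.log 2 n ≤ n + 4 := by
  rcases Nat.eq_zero_or_pos n with h | h
  · subst h; simp
  have h1 := Nat.pow_log_le_self 2 (show n ≠ 0 by omega)
  have h2 : ∀ k : ℕ, 4 * k ≤ 2 ^ k + 4 := by
    intro k
    induction k with
    | zero => norm_num
    | succ k ih =>
      rcases Nat.lt_or_ge k 2 with h | h
      · interval_cases k <;> norm_num
      · have : 2 ^ 2 ≤ 2 ^ k := Nat.pow_le_pow_right (by norm_num) h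
        rw [pow_succ]
        omega
  have := h2 (Nat.log 2 n)
  omega

theorem eight_log (n : ℕ) : 8 * Nat.log 2 n ≤ n + 16 := by
  rcases Nat.eq_zero_or_pos n with h | h
  · subst h; simp
  have h1 := Nat.pow_log_le_self 2 (show n ≠ 0 by omega)
  have h2 : ∀ k : ℕ, 8 * k ≤ 2 ^ k + 16 := by
    intro k
    induction k with
    | zero => norm_num
    | succ k ih =>
      rcases Nat.lt_or_ge k 3 with h | h
      · interval_cases k <;> norm_num
      · have : 2 ^ 3 ≤ 2 ^ k := Nat.pow_le_pow_right (by norm_num) h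
        rw [pow_succ]
        omega
  have := h2 (Nat.log 2 n)
  omega

theorem digits_sum_le_log (n : ℕ) (hn : 1 ≤ n) : (Nat.digits 2 n).sum ≤ Nat.log 2 n + 1 := by
  have h := List.sum_le_card_nsmul (Nat.digits 2 n) 1 (by
    intro d hd
    have := Nat.digits_lt_base (by norm_num : 1 < 2) hd
    omega)
  rw [Nat.length_digits 2 n (by norm_num) (by omega)] at h
  simpa using h

theorem one_le_digits_sum (n : ℕ) (hn : 1 ≤ n) : 1 ≤ (Nat.digits 2 n).sum := by
  by_contra h
  have h0 : (Nat.digits 2 n).sum = 0 := by omega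
  have hl := Nat.getLast_digit_ne_zero 2 (m := n) (by omega)
  apply hl
  have hmem := List.getLast_mem (Nat.digits_ne_nil_iff_ne_zero.mpr (show n ≠ 0 by omega) :
    Nat.digits 2 n ≠ [])
  rw [List.sum_eq_zero_iff] at h0
  exact h0 _ hmem

theorem id1 (x b e : ℕ) (heb : e ≤ b) :
    vC (x + b + e) (b - e) + vC (x + 2 * e) (2 * e) = vC (x + b + e) (b + e) + vC (b + e) (2 * e) := by
  have h := Nat.choose_mul (n := x + b + e) (k := b + e) (s := b - e) (by omega)
  have e1 : x + b + e - (b - e) = x + 2 * e := by omega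
  have e2 : b + e - (b - e) = 2 * e := by omega
  rw [e1, e2] at h
  have e3 : (b + e).choose (b - e) = (b + e).choose (2 * e) := by
    rw [← Nat.choose_symm (show b - e ≤ b + e by omega), e2]
  rw [e3] at h
  have hv := congrArg (padicValNat 2) h
  rw [padicValNat.mul (Nat.choose_pos (by omega)).ne' (Nat.choose_pos (by omega)).ne',
    padicValNat.mul (Nat.choose_pos (by omega)).ne' (Nat.choose_pos (by omega)).ne'] at hv
  unfold vC
  omega

theorem id2 (x e : ℕ) (hx : 1 ≤ x) :
    vC (x + 2 * e - 1) (2 * e) + padicValNat 2 (x + 2 * e) =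
      vC (x + 2 * e) (2 * e) + padicValNat 2 x := by
  have h := Nat.choose_mul_succ_eq (x + 2 * e - 1) (2 * e)
  have e1 : x + 2 * e - 1 + 1 = x + 2 * e := by omega
  have e2 : x + 2 * e - 2 * e = x := by omega
  rw [e1, e2] at h
  have hv := congrArg (padicValNat 2) h
  rw [padicValNat.mul (Nat.choose_pos (by omega)).ne' (by omega),
    padicValNat.mul (Nat.choose_pos (by omega)).ne' (by omega)] at hv
  unfold vC
  omega

theorem far (x0 x : ℕ) (hx1 : 1 ≤ x) (hG : Good x0 x)
    (b c e : ℕ) (hec : e ≤ c) (hcb : c ≤ b) (hb : 13 ≤ b) :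
    vC (x + 2 * e) (2 * e) + vC (x + 2 * e - 1) (2 * e) + vC (x + b + e) (b - e) +
      vC (x + c + e) (c - e) + 2 * vf (2 * e) ≤
    2 * (b - e) + 2 * (c - e) + 2 * e + 2 * vf (3 * e) := by
  have h1 := id1 x b e (by omega)
  have h2 := id1 x c e hec
  have h3 := id2 x e hx1
  have h4 := vC_window x0 x hG (x + b + e) (b + e) (b + e) (by omega) (by omega) (by omega)
  have h5 := vC_window x0 x hG (x + c + e) (c + e) (c + e) (by omega) (by omega) (by omega)
  have h6 := hG.2 x hx1
  have h6' : 4 * padicValNat 2 x ≤ 12 := by simpa using h6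
  rcases Nat.eq_zero_or_pos e with he | he
  · subst he
    have z1 : vC (b + 0) (2 * 0) = 0 := by simp [vC]
    have z2 : vC (c + 0) (2 * 0) = 0 := by simp [vC]
    have z3 : vf (2 * 0) = 0 := by simp [vf]
    simp only [Nat.mul_zero] at *
    rw [z3]
    rw [z1] at h1
    rw [z2] at h2
    omega
  · have h7 := vC_le_log (b + e) (2 * e)
    have h8 := vC_le_log (c + e) (2 * e)
    have h9 := four_log (b + e)
    have h10 := four_log (c + e)
    have h11 := eight_log (3 * e)
    have h12 := vf_eq (2 * e)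
    have h13 := vf_eq (3 * e)
    have h14 := digits_sum_le_log (3 * e) (by omega)
    have h15 := one_le_digits_sum (2 * e) (by omega)
    omega

end IneqP

open IneqP in
theorem ineq_P (x0 x : ℕ) (hx0 : x0 = 84 ∨ x0 = 43 ∨ x0 = 85) (hG : Good x0 x)
    (b c e : ℕ) (heb : e ≤ b) (hec : e ≤ c) :
    vC (x + 2 * e) (2 * e) + vC (x + 2 * e - 1) (2 * e) + vC (x + b + e) (b - e) +
      vC (x + c + e) (c - e) + 2 * vf (2 * e) ≤
    2 * (b - e) + 2 * (c - e) + 2 * e + 2 * vf (3 * e) := by
  have hx1 : 1 ≤ x := by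
    have := hG.1
    omega
  by_cases hn : b ≤ 12 ∧ c ≤ 12
  · exact near x0 x hx0 hG b c e heb hec hn.1 hn.2
  · rcases le_total c b with h | h
    · exact far x0 x hx1 hG b c e hec h (by omega)
    · have := far x0 x hx1 hG c b e heb h (by omega)
      omega


end Pool.Agent.Helper5.MD
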