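import Pool.Agent.Helper5.MD.D1Window

/-!
# MD-D5 : the inequality for `X` and `Y`

Windows: `C(x+2e-1, a+e)` has window `[x+e-a, x+2e-1]`, `C(x+b+e, b-e)` has window `[x+2e+1, x+b+e]`.
Far case (`a ≥ 5` or `b ≥ 8`, say): by MD-D1 `4 vC ≤ 12 + max (a - e) (2 e - 1)` and `4 vC ≤ 12 + (b + e)`, so the sum
is `≤ 6 + (max a (2 b) + 2 b) / 4 ≤ 2 (a + b) - 1`; near case by `vC_near` and a finite check.
-/

open scoped Nat

namespace Pool.Agent.Helper5.MD

/-- the binary digit sum formula for `vC`, for computations -/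
private def xcv (n r : ℕ) : ℕ :=
  (Nat.digits 2 r).sum + (Nat.digits 2 (n - r)).sum - (Nat.digits 2 n).sum

private theorem vC_eq_xcv {n r : ℕ} (h : r ≤ n) : vC n r = xcv n r := by
  have : Fact (Nat.Prime 2) := ⟨Nat.prime_two⟩
  have h1 := sub_one_mul_padicValNat_choose_eq_sub_sum_digits (p := 2) h
  unfold vC xcv
  simpa using h1

private theorem xcheck : ∀ x0 ∈ ([84, 43, 85] : List ℕ), ∀ a ∈ List.range 4,
    ∀ b ∈ List.range 5, ∀ e ∈ List.range (b + 1), a = 0 ∨ (a = 1 ∧ b = 0) ∨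
    xcv (x0 + 2 * e - 1) (a + e) + xcv (x0 + b + e) (b - e) + 1 ≤ 2 * (a + b) := by
  unfold xcv
  decide

private theorem xcheck0 : ∀ x0 ∈ ([84, 43, 85] : List ℕ), xcv (x0 - 1) 1 ≤ 2 := by
  unfold xcv
  decide

theorem ineq_X (x0 x : ℕ) (hx0 : x0 = 84 ∨ x0 = 43 ∨ x0 = 85) (hG : Good x0 x)
    (a b e : ℕ) (ha : 1 ≤ a) (heb : e ≤ b) (hax : a < x) (hab : ¬ (a = 1 ∧ b = 0)) :
    vC (x + 2 * e - 1) (a + e) + vC (x + b + e) (b - e) + 1 ≤ 2 * (a + b) := by
  by_cases hn : a ≤ 3 ∧ b ≤ 4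
  · obtain ⟨ha3, hb4⟩ := hn
    have hmod := hG.1
    obtain ⟨t, ht⟩ : ∃ t, x = x0 + 128 * t := ⟨x / 128, by omega⟩
    have e1 : x + 2 * e - 1 = (x0 + 2 * e - 1) + 128 * t := by omega
    have e2 : x + b + e = (x0 + b + e) + 128 * t := by omega
    rw [e1, e2, vC_near _ _ _ (by omega) (by omega), vC_near _ _ _ (by omega) (by omega),
      vC_eq_xcv (by omega), vC_eq_xcv (by omega)]
    have hx0' : x0 ∈ [84, 43, 85] := by simpa using hx0
    rcases xcheck x0 hx0' a (List.mem_range.2 (by omega)) b (List.mem_range.2 (by omega)) e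
      (List.mem_range.2 (by omega)) with h | h | h
    · omega
    · exact absurd h hab
    · exact h
  · have h1 := vC_window x0 x hG (x + 2 * e - 1) (a + e) (max (a - e) (2 * e - 1))
      (by omega) (by omega) (by omega)
    have h2 := vC_window x0 x hG (x + b + e) (b - e) (b + e) (by omega) (by omega) (by omega)
    omega

theorem ineq_X0 (x0 x : ℕ) (hx0 : x0 = 84 ∨ x0 = 43 ∨ x0 = 85) (hG : Good x0 x) :
    vC (x - 1) 1 ≤ 2 := by
  have hmod := hG.1
  obtain ⟨t, ht⟩ : ∃ t, x = x0 + 128 * t := ⟨x / 128, by omega⟩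
  have e1 : x - 1 = (x0 - 1) + 128 * t := by omega
  rw [e1, vC_near _ _ _ (by omega) (by omega), vC_eq_xcv (by omega)]
  have hx0' : x0 ∈ [84, 43, 85] := by simpa using hx0
  exact xcheck0 x0 hx0'

end Pool.Agent.Helper5.MD
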