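import Pool.Agent.Helper5.MD.VBinom

/-!
# MD-V2 : `2`-adic size of `UU`

Exact identity (`t = j - w ≥ 1`, `X = 2 κ - 3 w`):
`mu κ w j * (∏_(v=w)^(j-1) (2 κ - 2 v - 1)) * C(κ - 2 w - 1, t) = (-1)^t (2 t - 1)!! * C(w + t, 2 t) * (C(X, t) - 3 C(X - 1, t - 1))`
(both sides vanish for `t > w`), and in case `ε = true` the last factor is `C(X, t)`.
-/

open scoped Nat

namespace Pool.Agent.Helper5.MD


theorem mu_prod (κ w t c : ℕ) (hκ : κ = 3 * (w + t) + c + 1) :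
    (∏ v ∈ Finset.Ico w (w + t),
    (-((v : ℚ) + 1) * (2 * w - v) * (2 * κ - 2 * w - v) /
      (2 * (2 * κ - 2 * v - 1) * (v - w + 1) * (κ - w - v - 1)))) *
      (2 ^ t * (t ! : ℕ) * ((∏ a ∈ Finset.range t, (2 * (2 * w + 3 * t + c - a) + 1) : ℕ) : ℚ) *
      ((t ! : ℕ) * ((w + 3 * t + c).choose t : ℕ))) =
      (((-1) ^ t : ℤ) : ℚ) * ((2 * t)! : ℕ) * ((w + t).choose (2 * t) : ℕ) *
        ((t ! : ℕ) * ((3 * w + 6 * t + 2 * c + 2).choose t : ℕ)) := by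
  rw [Finset.prod_Ico_eq_prod_range, Nat.add_sub_cancel_left]
  have e1 := prod_sym w t
  have e2 := prod_desc (3 * w + 6 * t + 2 * c + 2) t
  have e3 := prod_desc (w + 3 * t + c) t
  have e4 := prod_fact t
  have e5 : (2 : ℚ) ^ t = ∏ _a ∈ Finset.range t, (2 : ℚ) := by
    rw [Finset.prod_const, Finset.card_range]
  have e6 : (((-1) ^ t : ℤ) : ℚ) = ∏ _a ∈ Finset.range t, (-1 : ℚ) := by
    rw [Finset.prod_const, Finset.card_range]; push_cast; rfl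
  have e7 : ((∏ a ∈ Finset.range t, (2 * (2 * w + 3 * t + c - a) + 1) : ℕ) : ℚ) =
      ∏ a ∈ Finset.range t, (2 * (2 * (w : ℚ) + 3 * t + c - a) + 1) := by
    rw [Nat.cast_prod]
    apply Finset.prod_congr rfl
    intro a ha
    have hat : a < t := Finset.mem_range.1 ha
    rw [Nat.cast_add, Nat.cast_mul, Nat.cast_sub (by omega)]
    push_cast
    ring
  rw [mul_assoc (((-1) ^ t : ℤ) : ℚ), ← e1, ← e2, ← e3, ← e4, e5, e6, e7]
  push_cast
  simp only [← Finset.prod_mul_distrib]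
  apply Finset.prod_congr rfl
  intro a ha
  have hat : a < t := Finset.mem_range.1 ha
  have h1 : ((κ : ℕ) : ℚ) = 3 * (w + t) + c + 1 := by rw [hκ]; push_cast; ring
  rw [h1]
  have ha1 : (a : ℚ) < t := by exact_mod_cast hat
  have h0 : (0 : ℚ) ≤ w := by positivity
  have h2 : (0 : ℚ) ≤ c := by positivity
  have h3 : (0 : ℚ) ≤ t := by positivity
  have h4 : (0 : ℚ) ≤ a := by positivity
  have hd1 : (w : ℚ) + 3 * t + c - a ≠ 0 := by
    intro h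
    linarith
  have hd2 : (2 : ℚ) * (2 * w + 3 * t + c - a) + 1 ≠ 0 := by
    intro h
    linarith
  have hd3 : (a : ℚ) + 1 ≠ 0 := by positivity
  have hden : (2 : ℚ) * (2 * (3 * ((w : ℚ) + t) + c + 1) - 2 * (w + a) - 1) * (w + a - w + 1) *
      (3 * ((w : ℚ) + t) + c + 1 - w - (w + a) - 1) ≠ 0 := by
    have r1 : (w : ℚ) + a - w + 1 = a + 1 := by ring
    have r2 : 3 * ((w : ℚ) + t) + c + 1 - w - (w + a) - 1 = w + 3 * t + c - a := by ring
    have r3 : 2 * (3 * ((w : ℚ) + t) + c + 1) - 2 * (w + a) - 1 =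
      2 * (2 * w + 3 * t + c - a) + 1 := by ring
    rw [r1, r2, r3]
    exact mul_ne_zero (mul_ne_zero (mul_ne_zero two_ne_zero hd2) hd3) hd1
  rw [div_mul_eq_mul_div, div_eq_iff hden]
  ring

theorem VG_UU (ε : Bool) (κ w j : ℕ) (hw : 1 ≤ w) (hwj : w ≤ j) (hj : 3 * j < κ) :
    VG (-(vC (κ - 2 * w - 1) (j - w) : ℤ)) (UU ε κ w j) := by
  obtain ⟨t, rfl⟩ := Nat.exists_eq_add_of_le hwj
  obtain ⟨c, hc⟩ : ∃ c, κ = 3 * (w + t) + c + 1 := ⟨κ - 3 * (w + t) - 1, by omega⟩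
  have hP := mu_prod κ w t c hc
  have hO : Odd (∏ a ∈ Finset.range t, (2 * (2 * w + 3 * t + c - a) + 1)) :=
    odd_prod _ _ fun a _ => ⟨2 * w + 3 * t + c - a, rfl⟩
  have hC0 : (w + 3 * t + c).choose t ≠ 0 := (Nat.choose_pos (by omega)).ne'
  have hn0 : κ - 2 * w - 1 = w + 3 * t + c := by omega
  have h1 : ((κ : ℕ) : ℚ) = 3 * (w + t) + c + 1 := by rw [hc]; push_cast; ring
  have hX : 2 * (κ : ℚ) - 3 * w = ((3 * w + 6 * t + 2 * c + 2 : ℕ) : ℚ) := by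
    rw [h1]; push_cast; ring
  have hX0 : ((3 * w + 6 * t + 2 * c + 2 : ℕ) : ℚ) ≠ 0 := by positivity
  have hY : 2 * (κ : ℚ) - 3 * ((w + t : ℕ) : ℚ) = 3 * w + 3 * t + 2 * c + 2 := by
    rw [h1]; push_cast; ring
  have hY0 : (3 * w + 3 * t + 2 * c + 2 : ℚ) ≠ 0 := by positivity
  unfold vC
  rw [hn0, Nat.add_sub_cancel_left]
  have hmu : mu κ w (w + t) = (2 * (κ : ℚ) - 3 * ((w + t : ℕ) : ℚ)) / (2 * κ - 3 * w) *
      (∏ v ∈ Finset.Ico w (w + t),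
    (-((v : ℚ) + 1) * (2 * w - v) * (2 * κ - 2 * w - v) /
      (2 * (2 * κ - 2 * v - 1) * (v - w + 1) * (κ - w - v - 1)))) := by
    unfold mu
    rw [if_pos (Nat.le_add_right w t)]
  cases ε with
  | true =>
    refine VG_core t _ ((-1) ^ t) ((3 * w + 6 * t + 2 * c + 2).choose t : ℕ)
      ((w + t).choose (2 * t)) _ _ hO hC0 ?_
    simp only [UU, if_true]
    rw [Int.cast_natCast, ← hP, hmu, hX, hY]
    congr 1
    rw [mul_right_comm, div_mul_div_comm, mul_comm (3 * w + 3 * t + 2 * c + 2 : ℚ) _, div_self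
      (mul_ne_zero hX0 hY0), one_mul]
  | false =>
    obtain ⟨z, hz⟩ := frac_int (3 * w + 6 * t + 2 * c + 2) t (by omega) (-3)
    refine VG_core t _ ((-1) ^ t) z ((w + t).choose (2 * t)) _ _ hO hC0 ?_
    simp only [UU, Bool.false_eq_true, if_false]
    rw [← hz, hmu, mul_assoc, hP, hX, hY]
    have h2 : (3 * w + 3 * t + 2 * c + 2 : ℚ) / ((3 * w + 6 * t + 2 * c + 2 : ℕ) : ℚ) =
        (((3 * w + 6 * t + 2 * c + 2 : ℕ) : ℚ) + ((-3 : ℤ) : ℚ) * t) /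
          ((3 * w + 6 * t + 2 * c + 2 : ℕ) : ℚ) := by
      push_cast; congr 1; ring
    rw [h2]
    ring


end Pool.Agent.Helper5.MD
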