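import Pool.Agent.Helper5.MD.VBinom

/-!
# MD-V3 : `2`-adic size of `LI`

Exact identity (`t = i - j ≥ 1`, `Z = κ - 3 i + t`):
`lamInv κ i j * (∏_(v=j)^(i-1) (2 v + 1)) * C(κ - 2 i + t, t) = (-1)^t (2 t - 1)!! * C(κ - j, 2 t) * (C(Z, t) + 2 C(Z - 1, t - 1))`
(note `(κ - 3 j) / t * C(κ - 3 i + t - 1, t - 1) = (Z + 2 t) / t * C(Z - 1, t - 1)`, `κ - 2 i + t = κ - i - j`), and in case
`ε = true` the last factor is `C(κ - 3 i + t - 1, t)`.
-/

open scoped Nat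

namespace Pool.Agent.Helper5.MD


theorem lamInv_prod (κ j t c : ℕ) (hκ : κ = 3 * (j + t) + c + 1) :
    ((κ : ℚ) - j) / (κ - ((j + t : ℕ) : ℚ)) * (∏ v ∈ Finset.Ico j (j + t),
    (-((κ : ℚ) - v - 1) * (κ - 2 * ((j + t : ℕ) : ℚ) + v + 1) * (κ - 2 * ((j + t : ℕ) : ℚ) - v - 1) /
      (2 * (2 * v + 1) * (((j + t : ℕ) : ℚ) - v) * (κ - v - ((j + t : ℕ) : ℚ))))) *
      (2 ^ t * (t ! : ℕ) * ((∏ a ∈ Finset.range t, (2 * (j + (t - 1 - a)) + 1) : ℕ) : ℚ) *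
      ((t ! : ℕ) * ((j + t + c + 1 + t).choose t : ℕ))) =
      (((-1) ^ t : ℤ) : ℚ) * ((2 * t)! : ℕ) * ((2 * j + 2 * t + c + 1 + t).choose (2 * t) : ℕ) *
        ((t ! : ℕ) * ((c + t).choose t : ℕ)) := by
  rw [Finset.prod_Ico_eq_prod_range, Nat.add_sub_cancel_left, ← Finset.prod_range_reflect]
  have e1 := prod_sym (2 * j + 2 * t + c + 1) t
  have e2 := prod_asc c t
  have e3 := prod_asc (j + t + c + 1) t
  have e4 := prod_fact t
  have e5 : (2 : ℚ) ^ t = ∏ _a ∈ Finset.range t, (2 : ℚ) := by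
    rw [Finset.prod_const, Finset.card_range]
  have e6 : (((-1) ^ t : ℤ) : ℚ) = ∏ _a ∈ Finset.range t, (-1 : ℚ) := by
    rw [Finset.prod_const, Finset.card_range]; push_cast; rfl
  have e7 : ((∏ a ∈ Finset.range t, (2 * (j + (t - 1 - a)) + 1) : ℕ) : ℚ) =
      ∏ a ∈ Finset.range t, (2 * ((j : ℚ) + t - 1 - a) + 1) := by
    rw [Nat.cast_prod]
    apply Finset.prod_congr rfl
    intro a ha
    have hat : a < t := Finset.mem_range.1 ha
    have : t - 1 - a = t - (1 + a) := by omega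
    rw [this, Nat.cast_add, Nat.cast_mul, Nat.cast_add, Nat.cast_sub (by omega)]
    push_cast
    ring
  have e8 := prod_shift (2 * (j : ℚ) + 2 * t + c + 1) t
  have h1 : ((κ : ℕ) : ℚ) = 3 * (j + t) + c + 1 := by rw [hκ]; push_cast; ring
  have hy : (κ : ℚ) - ((j + t : ℕ) : ℚ) = 2 * (j : ℚ) + 2 * t + c + 1 := by
    rw [h1]; push_cast; ring
  have hy' : (κ : ℚ) - j = 2 * (j : ℚ) + 2 * t + c + 1 + t := by
    rw [h1]; ring
  have hy0 : 2 * (j : ℚ) + 2 * t + c + 1 ≠ 0 := by positivity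
  -- the product without the shift
  have hmain : (∏ a ∈ Finset.range t,
    (-((κ : ℚ) - ((j + (t - 1 - a) : ℕ) : ℚ) - 1) *
      (κ - 2 * ((j + t : ℕ) : ℚ) + ((j + (t - 1 - a) : ℕ) : ℚ) + 1) *
      (κ - 2 * ((j + t : ℕ) : ℚ) - ((j + (t - 1 - a) : ℕ) : ℚ) - 1) /
      (2 * (2 * ((j + (t - 1 - a) : ℕ) : ℚ) + 1) * (((j + t : ℕ) : ℚ) - ((j + (t - 1 - a) : ℕ) : ℚ)) *
        (κ - ((j + (t - 1 - a) : ℕ) : ℚ) - ((j + t : ℕ) : ℚ))))) *
      ((∏ _a ∈ Finset.range t, (2 : ℚ)) * (∏ a ∈ Finset.range t, ((a : ℚ) + 1)) *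
        (∏ a ∈ Finset.range t, (2 * ((j : ℚ) + t - 1 - a) + 1)) *
      (∏ a ∈ Finset.range t, (((j + t + c + 1 : ℕ) : ℚ) + 1 + a))) =
      (∏ _a ∈ Finset.range t, (-1 : ℚ)) * (∏ a ∈ Finset.range t, (2 * (j : ℚ) + 2 * t + c + 1 + a)) *
      (∏ a ∈ Finset.range t, (2 * (j : ℚ) + 2 * t + c + 1 - a)) *
      (∏ a ∈ Finset.range t, ((c : ℚ) + 1 + a)) := by
    simp only [← Finset.prod_mul_distrib]
    apply Finset.prod_congr rfl
    intro a ha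
    have hat : a < t := Finset.mem_range.1 ha
    have hv : ((j + (t - 1 - a) : ℕ) : ℚ) = (j : ℚ) + t - 1 - a := by
      have : t - 1 - a = t - (1 + a) := by omega
      rw [this, Nat.cast_add, Nat.cast_sub (by omega)]
      push_cast
      ring
    rw [hv, h1]
    push_cast
    have ha1 : (a : ℚ) + 1 ≤ t := by exact_mod_cast hat
    have h0 : (0 : ℚ) ≤ j := by positivity
    have h2 : (0 : ℚ) ≤ c := by positivity
    have h4 : (0 : ℚ) ≤ a := by positivity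
    have hd2 : (2 : ℚ) * ((j : ℚ) + t - 1 - a) + 1 ≠ 0 := by
      intro h
      linarith
    have hd3 : (a : ℚ) + 1 ≠ 0 := by positivity
    have hd1 : (j : ℚ) + t + c + 1 + 1 + a ≠ 0 := by positivity
    have hden : (2 : ℚ) * (2 * ((j : ℚ) + t - 1 - a) + 1) * ((j : ℚ) + t - ((j : ℚ) + t - 1 - a)) *
        (3 * ((j : ℚ) + t) + c + 1 - ((j : ℚ) + t - 1 - a) - ((j : ℚ) + t)) ≠ 0 := by
      have r1 : (j : ℚ) + t - ((j : ℚ) + t - 1 - a) = a + 1 := by ring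
      have r2 : 3 * ((j : ℚ) + t) + c + 1 - ((j : ℚ) + t - 1 - a) - ((j : ℚ) + t) =
        j + t + c + 1 + 1 + a := by ring
      rw [r1, r2]
      exact mul_ne_zero (mul_ne_zero (mul_ne_zero two_ne_zero hd2) hd3) hd1
    rw [div_mul_eq_mul_div, div_eq_iff hden]
    ring
  rw [e4, ← e5, ← e7, e3, ← e6, e2] at hmain
  have hYZ : (∏ a ∈ Finset.range t, (2 * (j : ℚ) + 2 * t + c + 1 + 1 + a)) *
      (∏ a ∈ Finset.range t, (2 * (j : ℚ) + 2 * t + c + 1 - a)) =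
      ((2 * t)! : ℕ) * ((2 * j + 2 * t + c + 1 + t).choose (2 * t) : ℕ) := by
    rw [← e1, ← Finset.prod_mul_distrib]
    apply Finset.prod_congr rfl
    intro a _
    push_cast
    ring
  rw [hy, hy', mul_assoc, hmain, mul_assoc (((-1) ^ t : ℤ) : ℚ) (((2 * t)! : ℕ) : ℚ), ← hYZ]
  rw [div_mul_eq_mul_div, div_eq_iff hy0]
  linear_combination ((((-1) ^ t : ℤ) : ℚ) *
    (∏ a ∈ Finset.range t, (2 * (j : ℚ) + 2 * t + c + 1 - a)) *
    ((t ! : ℕ) * ((c + t).choose t : ℕ))) * e8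

theorem VG_LI (ε : Bool) (κ i j : ℕ) (hj : 1 ≤ j) (hji : j ≤ i) (hi : 3 * i < κ) :
    VG (-(vC (κ - i - j) (i - j) : ℤ)) (LI ε κ i j) := by
  obtain ⟨t, rfl⟩ := Nat.exists_eq_add_of_le hji
  obtain ⟨c, hc⟩ : ∃ c, κ = 3 * (j + t) + c + 1 := ⟨κ - 3 * (j + t) - 1, by omega⟩
  have hP := lamInv_prod κ j t c hc
  have hO : Odd (∏ a ∈ Finset.range t, (2 * (j + (t - 1 - a)) + 1)) :=
    odd_prod _ _ fun a _ => ⟨j + (t - 1 - a), rfl⟩
  have hC0 : (j + t + c + 1 + t).choose t ≠ 0 := (Nat.choose_pos (by omega)).ne'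
  have hn0 : κ - (j + t) - j = j + t + c + 1 + t := by omega
  have h1 : ((κ : ℕ) : ℚ) = 3 * (j + t) + c + 1 := by rw [hc]; push_cast; ring
  have hX : (κ : ℚ) - 3 * ((j + t : ℕ) : ℚ) = (c : ℚ) + 1 := by
    rw [h1]; push_cast; ring
  have hX0 : (c : ℚ) + 1 ≠ 0 := by positivity
  have hY : (κ : ℚ) - 3 * j = (c : ℚ) + 1 + 3 * t := by
    rw [h1]; push_cast; ring
  have hY0 : (c : ℚ) + 1 + 3 * t ≠ 0 := by positivity
  unfold vC
  rw [hn0, Nat.add_sub_cancel_left]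
  set Q := ∏ v ∈ Finset.Ico j (j + t),
    (-((κ : ℚ) - v - 1) * (κ - 2 * ((j + t : ℕ) : ℚ) + v + 1) * (κ - 2 * ((j + t : ℕ) : ℚ) - v - 1) /
      (2 * (2 * v + 1) * (((j + t : ℕ) : ℚ) - v) * (κ - v - ((j + t : ℕ) : ℚ)))) with hQ
  have hlam : lamInv κ (j + t) j = ((κ : ℚ) - j) / (κ - ((j + t : ℕ) : ℚ)) * Q *
      (((c : ℚ) + 1 + 3 * t) / (c + 1)) := by
    unfold lamInv
    rw [if_pos (Nat.le_add_right j t), hX, hY, ← hQ, mul_right_comm _ Q, div_mul_div_comm]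
  cases ε with
  | true =>
    refine VG_core t _ ((-1) ^ t) ((c + t).choose t : ℕ)
      ((2 * j + 2 * t + c + 1 + t).choose (2 * t)) _ _ hO hC0 ?_
    simp only [LI, if_true]
    rw [Int.cast_natCast, ← hP, hlam, hX, hY]
    congr 1
    rw [mul_assoc, div_mul_div_comm, mul_comm ((c : ℚ) + 1 + 3 * t) _, div_self
      (mul_ne_zero hX0 hY0), mul_one]
  | false =>
    obtain ⟨z, hz⟩ := frac_int (c + 1 + t) t (by omega) 2
    refine VG_core t _ ((-1) ^ t) z ((2 * j + 2 * t + c + 1 + t).choose (2 * t)) _ _ hO hC0 ?_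
    simp only [LI, Bool.false_eq_true, if_false]
    have h3 := ch_shift c t
    have h4 : (((c + t).choose t : ℕ) : ℚ) * (((c : ℚ) + 1 + 3 * t) / (c + 1)) = z := by
      rw [← hz]
      have h5 : (((c + t).choose t : ℕ) : ℚ) * (((c : ℚ) + 1 + 3 * t) / (c + 1)) =
        (((c + t).choose t : ℕ) : ℚ) / (c + 1) * ((c : ℚ) + 1 + 3 * t) := by ring
      rw [h5, h3]
      push_cast
      ring
    rw [hlam, ← h4, mul_right_comm _ (((c : ℚ) + 1 + 3 * t) / (c + 1)), hP]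
    ring


end Pool.Agent.Helper5.MD
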