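import Pool.Agent.Helper5.MD.VBinom

/-!
# MD-V4 : `2`-adic size of `UI`

Exact identity (`t = s - j`):
`muInv κ j s * (∏_(v=j)^(s-1) (2 κ - 2 v - 1)) * C(κ - 2 s + t, t) = (2 t - 1)!! * C(s + t - 1, 2 t) * C(2 κ - 3 s + t - 1, t)`,
(`κ - 2 s + t = κ - s - j`), and in case `ε = true` (`t ≥ 1`, `Y = 2 κ - 3 s + t`) the last factor is `C(Y, t) + 2 C(Y - 1, t - 1)`.
-/

open scoped Nat

namespace Pool.Agent.Helper5.MD


theorem muInv_prod (κ j t c : ℕ) (hκ : κ = 3 * (j + 1 + t) + c + 1) :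
    (∏ v ∈ Finset.Ico (j + 1) (j + 1 + t),
    ((v : ℚ) * (2 * ((j + 1 + t : ℕ) : ℚ) - v - 1) * (2 * κ - 2 * ((j + 1 + t : ℕ) : ℚ) - v - 1) /
      (2 * (2 * κ - 2 * v - 1) * (((j + 1 + t : ℕ) : ℚ) - v) *
        (κ - ((j + 1 + t : ℕ) : ℚ) - v)))) *
      (2 ^ t * (t ! : ℕ) *
        ((∏ a ∈ Finset.range t, (2 * (2 * (j + 1) + 2 * t + c + 1 + a) + 1) : ℕ) : ℚ) *
      ((t ! : ℕ) * ((j + 1 + t + c + 1 + t).choose t : ℕ))) =
      ((1 : ℤ) : ℚ) * ((2 * t)! : ℕ) * ((j + t + t).choose (2 * t) : ℕ) *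
        ((t ! : ℕ) * ((3 * (j + 1) + 3 * t + 2 * c + 1 + t).choose t : ℕ)) := by
  rw [Finset.prod_Ico_eq_prod_range, Nat.add_sub_cancel_left, ← Finset.prod_range_reflect]
  have e1 := prod_sym (j + t) t
  have e2 := prod_asc (3 * (j + 1) + 3 * t + 2 * c + 1) t
  have e3 := prod_asc (j + 1 + t + c + 1) t
  have e4 := prod_fact t
  have e5 : (2 : ℚ) ^ t = ∏ _a ∈ Finset.range t, (2 : ℚ) := by
    rw [Finset.prod_const, Finset.card_range]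
  rw [Int.cast_one, one_mul, ← e1, ← e2, ← e3, ← e4, e5, Nat.cast_prod]
  simp only [← Finset.prod_mul_distrib]
  apply Finset.prod_congr rfl
  intro a ha
  have hat : a < t := Finset.mem_range.1 ha
  have hv : ((j + 1 + (t - 1 - a) : ℕ) : ℚ) = (j : ℚ) + t - a := by
    have : t - 1 - a = t - (1 + a) := by omega
    rw [this, Nat.cast_add, Nat.cast_sub (by omega)]
    push_cast
    ring
  have h1 : ((κ : ℕ) : ℚ) = 3 * (j + 1 + t) + c + 1 := by rw [hκ]; push_cast; ring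
  rw [hv, h1]
  push_cast
  have hd2 : (2 : ℚ) * (2 * ((j : ℚ) + 1) + 2 * t + c + 1 + a) + 1 ≠ 0 := by positivity
  have hd3 : (a : ℚ) + 1 ≠ 0 := by positivity
  have hd1 : (j : ℚ) + 1 + t + c + 1 + 1 + a ≠ 0 := by positivity
  have hden : (2 : ℚ) * (2 * (3 * ((j : ℚ) + 1 + t) + c + 1) - 2 * ((j : ℚ) + t - a) - 1) *
      ((j : ℚ) + 1 + t - ((j : ℚ) + t - a)) *
      (3 * ((j : ℚ) + 1 + t) + c + 1 - ((j : ℚ) + 1 + t) - ((j : ℚ) + t - a)) ≠ 0 := by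
    have r1 : (j : ℚ) + 1 + t - ((j : ℚ) + t - a) = a + 1 := by ring
    have r2 : 3 * ((j : ℚ) + 1 + t) + c + 1 - ((j : ℚ) + 1 + t) - ((j : ℚ) + t - a) =
      j + 1 + t + c + 1 + 1 + a := by ring
    have r3 : 2 * (3 * ((j : ℚ) + 1 + t) + c + 1) - 2 * ((j : ℚ) + t - a) - 1 =
      2 * (2 * ((j : ℚ) + 1) + 2 * t + c + 1 + a) + 1 := by ring
    rw [r1, r2, r3]
    exact mul_ne_zero (mul_ne_zero (mul_ne_zero two_ne_zero hd2) hd3) hd1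
  rw [div_mul_eq_mul_div, div_eq_iff hden]
  ring

theorem VG_UI (ε : Bool) (κ j s : ℕ) (hj : 1 ≤ j) (hjs : j ≤ s) (hs : 3 * s < κ) :
    VG (-(vC (κ - s - j) (s - j) : ℤ)) (UI ε κ j s) := by
  obtain ⟨t, rfl⟩ := Nat.exists_eq_add_of_le hjs
  obtain ⟨j, rfl⟩ : ∃ j', j = j' + 1 := ⟨j - 1, by omega⟩
  obtain ⟨c, hc⟩ : ∃ c, κ = 3 * (j + 1 + t) + c + 1 := ⟨κ - 3 * (j + 1 + t) - 1, by omega⟩
  have hP := muInv_prod κ j t c hc
  have hO : Odd (∏ a ∈ Finset.range t, (2 * (2 * (j + 1) + 2 * t + c + 1 + a) + 1)) :=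
    odd_prod _ _ fun a _ => ⟨2 * (j + 1) + 2 * t + c + 1 + a, rfl⟩
  have hC0 : (j + 1 + t + c + 1 + t).choose t ≠ 0 := (Nat.choose_pos (by omega)).ne'
  have hn0 : κ - (j + 1 + t) - (j + 1) = j + 1 + t + c + 1 + t := by omega
  have h1 : ((κ : ℕ) : ℚ) = 3 * (j + 1 + t) + c + 1 := by rw [hc]; push_cast; ring
  unfold vC
  rw [hn0, Nat.add_sub_cancel_left]
  have hmu : muInv κ (j + 1) (j + 1 + t) = ∏ v ∈ Finset.Ico (j + 1) (j + 1 + t),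
    ((v : ℚ) * (2 * ((j + 1 + t : ℕ) : ℚ) - v - 1) * (2 * κ - 2 * ((j + 1 + t : ℕ) : ℚ) - v - 1) /
      (2 * (2 * κ - 2 * v - 1) * (((j + 1 + t : ℕ) : ℚ) - v) *
        (κ - ((j + 1 + t : ℕ) : ℚ) - v))) := by
    unfold muInv
    rw [if_pos (Nat.le_add_right (j + 1) t)]
  rw [← hmu] at hP
  cases ε with
  | false =>
    refine VG_core t _ 1 ((3 * (j + 1) + 3 * t + 2 * c + 1 + t).choose t : ℕ)
      ((j + t + t).choose (2 * t)) _ _ hO hC0 ?_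
    simp only [UI, Bool.false_eq_true, if_false]
    rw [Int.cast_natCast, ← hP]
  | true =>
    obtain ⟨z, hz⟩ := frac_int (3 * (j + 1) + 3 * t + 2 * c + 1 + 1 + t) t (by omega) 2
    refine VG_core t _ 1 z ((j + t + t).choose (2 * t)) _ _ hO hC0 ?_
    simp only [UI, if_true]
    have h3 := ch_shift (3 * (j + 1) + 3 * t + 2 * c + 1) t
    have h2 : (2 * (κ : ℚ) - 3 * ((j + 1 : ℕ) : ℚ)) / (2 * κ - 3 * ((j + 1 + t : ℕ) : ℚ)) =
        (((3 * (j + 1) + 3 * t + 2 * c + 1 + 1 + t : ℕ) : ℚ) + ((2 : ℤ) : ℚ) * t) /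
          (((3 * (j + 1) + 3 * t + 2 * c + 1 : ℕ) : ℚ) + 1) := by
      rw [h1]; push_cast; congr 1 <;> ring
    have h4 : (((3 * (j + 1) + 3 * t + 2 * c + 1 + t).choose t : ℕ) : ℚ) *
        ((((3 * (j + 1) + 3 * t + 2 * c + 1 + 1 + t : ℕ) : ℚ) + ((2 : ℤ) : ℚ) * t) /
          (((3 * (j + 1) + 3 * t + 2 * c + 1 : ℕ) : ℚ) + 1)) = z := by
      rw [← hz, mul_div_assoc', mul_comm, mul_div_assoc, h3]
      ring
    rw [h2, ← h4, mul_right_comm, hP]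
    ring


end Pool.Agent.Helper5.MD
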