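import Pool.Agent.Helper5.MD.VGBasic

/-!
# MD-V5 : the pivots

`PS ε κ (w + e) / PS ε κ w = (-4)^e * (3 e)!^2 * N1 * N2 / (odd * (2 e)!^2 * C(κ - 2 w, 2 e) * C(κ - 2 w - 1, 2 e))` with
`N1 = C(κ - 3 w, 3 e)`, `N2 = C(2 κ - 3 w - 1, 3 e)` for `ε = false` and
`N1 = C(κ - 3 w - 1, 3 e)`, `N2 = C(2 κ - 3 w, 3 e)` for `ε = true`
(the products `∏ (κ - 3 v) (κ - 3 v - 1) (κ - 3 v - 2)` etc. over `v = w, ..., w + e - 1` are products of consecutive integers;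
`odd = ∏ (2 v + 1) (2 κ - 2 v - 1)`; the factor `16^e` comes from `2 ^ (4 w - 1)` in `PS`, and
`PP true κ w = pv κ w (6 w - 2 κ) / (3 w - 2 κ)`).
-/

open scoped Nat

namespace Pool.Agent.Helper5.MD

private theorem v5_desc (n r : ℕ) (h : r ≤ n) :
    ((n.descFactorial r : ℕ) : ℚ) = ∏ i ∈ Finset.range r, ((n : ℚ) - i) := by
  induction r with
  | zero => simp
  | succ r ih =>
    rw [Nat.descFactorial_succ, Finset.prod_range_succ, Nat.cast_mul, ih (by omega),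
      Nat.cast_sub (by omega)]
    ring

private theorem v5_vC (n r : ℕ) (h : r ≤ n) :
    padicValRat 2 (∏ i ∈ Finset.range r, ((n : ℚ) - i)) = vC n r + vf r := by
  rw [← v5_desc n r h, padicValRat.of_nat, Nat.descFactorial_eq_factorial_mul_choose,
    padicValNat.mul (Nat.factorial_ne_zero r) (Nat.choose_pos h).ne']
  unfold vC vf
  push_cast
  ring

/-- one factor of `pv` -/
noncomputable def v5f (κ : ℚ) (v : ℕ) : ℚ :=
    (-(κ - 3 * v) * (κ - 3 * v - 1) * (κ - 3 * v - 2) *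
      (2 * κ - 3 * v - 1) * (2 * κ - 3 * v - 2) * (2 * κ - 3 * v - 3) /
      (4 * (2 * v + 1) * (2 * κ - 2 * v - 1) * (κ - 2 * v) * (κ - 2 * v - 1) ^ 2 *
        (κ - 2 * v - 2)))

private theorem v5_pv (κ : ℚ) (w : ℕ) : pv κ w = (3 - 2 * κ) * ∏ v ∈ Finset.Ico 1 w, v5f κ v := rfl

private theorem v5_pv_succ (κ : ℚ) (w : ℕ) (hw : 1 ≤ w) : pv κ (w + 1) = pv κ w * v5f κ w := by
  rw [v5_pv, v5_pv, Finset.prod_Ico_succ_top hw, mul_assoc]

private theorem v5_fac (κ v : ℕ) (h : 3 * v + 3 < κ) :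
    ((κ : ℚ) - 3 * v ≠ 0 ∧ (κ : ℚ) - 3 * v - 1 ≠ 0 ∧ (κ : ℚ) - 3 * v - 2 ≠ 0 ∧
      2 * (κ : ℚ) - 3 * v - 1 ≠ 0 ∧ 2 * (κ : ℚ) - 3 * v - 2 ≠ 0 ∧ 2 * (κ : ℚ) - 3 * v - 3 ≠ 0) ∧
    ((2 * (v : ℚ) + 1) ≠ 0 ∧ (2 * (κ : ℚ) - 2 * v - 1) ≠ 0 ∧ (κ : ℚ) - 2 * v ≠ 0 ∧
      (κ : ℚ) - 2 * v - 1 ≠ 0 ∧ (κ : ℚ) - 2 * v - 2 ≠ 0) := by
  have h1 : (3 * v + 3 : ℚ) < κ := by exact_mod_cast h
  have h2 : (0 : ℚ) ≤ v := by positivity
  refine ⟨⟨?_, ?_, ?_, ?_, ?_, ?_⟩, ?_, ?_, ?_, ?_, ?_⟩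
  all_goals
    apply ne_of_gt
    linarith

private theorem v5f_ne (κ v : ℕ) (h : 3 * v + 3 < κ) : v5f κ v ≠ 0 := by
  obtain ⟨⟨a1, a2, a3, a4, a5, a6⟩, b1, b2, b3, b4, b5⟩ := v5_fac κ v h
  unfold v5f
  apply div_ne_zero
  · simp only [ne_eq, mul_eq_zero, neg_eq_zero, not_or]
    exact ⟨⟨⟨⟨⟨a1, a2⟩, a3⟩, a4⟩, a5⟩, a6⟩
  · simp only [ne_eq, mul_eq_zero, not_or, pow_eq_zero_iff two_ne_zero]
    exact ⟨⟨⟨⟨⟨by norm_num, b1⟩, b2⟩, b3⟩, b4⟩, b5⟩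

private theorem v5_pv_ne (κ w : ℕ) (hw : 1 ≤ w) (h : 3 * w < κ) : pv κ w ≠ 0 := by
  rw [v5_pv]
  apply mul_ne_zero
  · have h1 : (3 : ℚ) < κ := by exact_mod_cast (by omega : 3 < κ)
    apply ne_of_lt
    linarith
  · apply Finset.prod_ne_zero_iff.2
    intro v hv
    rw [Finset.mem_Ico] at hv
    exact v5f_ne κ v (by omega)

private theorem v5_PP_ne (ε : Bool) (κ w : ℕ) (hw : 1 ≤ w) (h : 3 * w < κ) : PP ε κ w ≠ 0 := by
  have h1 : (3 * w : ℚ) < κ := by exact_mod_cast h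
  have h2 : (0 : ℚ) ≤ w := by positivity
  have h3 := v5_pv_ne κ w hw h
  unfold PP
  cases ε
  · simpa using h3
  · simp only [if_true]
    apply mul_ne_zero h3
    apply div_ne_zero
    · apply ne_of_lt; linarith
    · apply ne_of_lt; linarith

theorem PS_ne_zero (ε : Bool) (κ w : ℕ) (hw : 1 ≤ w) (h : 3 * w < κ) : PS ε κ w ≠ 0 := by
  unfold PS
  exact mul_ne_zero (zpow_ne_zero _ two_ne_zero) (v5_PP_ne ε κ w hw h)

/-- the main identity for `pv` -/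
private theorem v5_main (κ w : ℕ) (hw : 1 ≤ w) (e : ℕ) (h : 3 * (w + e) < κ) :
    pv κ (w + e) * (∏ i ∈ Finset.range (2 * e), ((κ : ℚ) - 2 * w - i)) *
      (∏ i ∈ Finset.range (2 * e), ((κ : ℚ) - 2 * w - 1 - i)) *
      ((∏ v ∈ Finset.Ico w (w + e), ((2 * v + 1) * (2 * κ - 2 * v - 1)) : ℕ) : ℚ) * (-4) ^ e =
    pv κ w * (∏ i ∈ Finset.range (3 * e), ((κ : ℚ) - 3 * w - i)) *
      (∏ i ∈ Finset.range (3 * e), (2 * (κ : ℚ) - 3 * w - 1 - i)) := by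
  induction e with
  | zero => simp
  | succ e ih =>
    have ih := ih (by omega)
    obtain ⟨⟨a1, a2, a3, a4, a5, a6⟩, b1, b2, b3, b4, b5⟩ := v5_fac κ (w + e) (by omega)
    rw [show 2 * (e + 1) = 2 * e + 1 + 1 by ring, show 3 * (e + 1) = 3 * e + 1 + 1 + 1 by ring,
      ← add_assoc w e 1, v5_pv_succ κ (w + e) (by omega),
      Finset.prod_Ico_succ_top (by omega : w ≤ w + e)]
    simp only [Finset.prod_range_succ]
    have hc : ((2 * κ - 2 * (w + e) - 1 : ℕ) : ℚ) = 2 * κ - 2 * (w + e : ℕ) - 1 := by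
      rw [Nat.cast_sub (by omega), Nat.cast_sub (by omega)]
      push_cast
      ring
    have hO : (((∏ v ∈ Finset.Ico w (w + e), ((2 * v + 1) * (2 * κ - 2 * v - 1))) *
        ((2 * (w + e) + 1) * (2 * κ - 2 * (w + e) - 1)) : ℕ) : ℚ) =
        ((∏ v ∈ Finset.Ico w (w + e), ((2 * v + 1) * (2 * κ - 2 * v - 1)) : ℕ) : ℚ) *
        (((2 * (w + e) + 1 : ℕ) : ℚ) * (2 * κ - 2 * (w + e : ℕ) - 1)) := by
      rw [Nat.cast_mul, Nat.cast_mul (2 * (w + e) + 1), hc]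
    rw [hO]
    set A := ∏ i ∈ Finset.range (2 * e), ((κ : ℚ) - 2 * w - i)
    set B := ∏ i ∈ Finset.range (2 * e), ((κ : ℚ) - 2 * w - 1 - i)
    set O := ((∏ v ∈ Finset.Ico w (w + e), ((2 * v + 1) * (2 * κ - 2 * v - 1)) : ℕ) : ℚ)
    set C := ∏ i ∈ Finset.range (3 * e), ((κ : ℚ) - 3 * w - i)
    set D := ∏ i ∈ Finset.range (3 * e), (2 * (κ : ℚ) - 3 * w - 1 - i)
    have key : v5f κ (w + e) * ((((κ : ℚ) - 2 * w - (2 * e : ℕ)) *
        ((κ : ℚ) - 2 * w - (2 * e + 1 : ℕ))) * (((κ : ℚ) - 2 * w - 1 - (2 * e : ℕ)) *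
        ((κ : ℚ) - 2 * w - 1 - (2 * e + 1 : ℕ)))) *
        (((2 * (w + e) + 1 : ℕ) : ℚ) * (2 * κ - 2 * (w + e : ℕ) - 1)) * (-4) =
        (((κ : ℚ) - 3 * w - (3 * e : ℕ)) * ((κ : ℚ) - 3 * w - (3 * e + 1 : ℕ)) *
          ((κ : ℚ) - 3 * w - (3 * e + 1 + 1 : ℕ))) *
        ((2 * (κ : ℚ) - 3 * w - 1 - (3 * e : ℕ)) * (2 * (κ : ℚ) - 3 * w - 1 - (3 * e + 1 : ℕ)) *
          (2 * (κ : ℚ) - 3 * w - 1 - (3 * e + 1 + 1 : ℕ))) := by
      unfold v5f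
      rw [div_mul_eq_mul_div, div_mul_eq_mul_div, div_mul_eq_mul_div, div_eq_iff]
      · push_cast
        ring
      · simp only [ne_eq, mul_eq_zero, not_or, pow_eq_zero_iff two_ne_zero]
        exact ⟨⟨⟨⟨⟨by norm_num, b1⟩, b2⟩, b3⟩, b4⟩, b5⟩
    rw [pow_succ]
    push_cast at key ⊢
    linear_combination (v5f κ (w + e) * ((((κ : ℚ) - 2 * w - (2 * e)) *
        ((κ : ℚ) - 2 * w - (2 * e + 1))) * (((κ : ℚ) - 2 * w - 1 - (2 * e)) *
        ((κ : ℚ) - 2 * w - 1 - (2 * e + 1)))) *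
        (((2 * (w + e) + 1)) * (2 * κ - 2 * (w + e) - 1)) * (-4)) * ih +
      (pv κ w * C * D) * key

private theorem v5_odd (κ w e : ℕ) (h : w + e ≤ κ) :
    Odd (∏ v ∈ Finset.Ico w (w + e), ((2 * v + 1) * (2 * κ - 2 * v - 1))) := by
  apply Finset.prod_induction _ Odd (fun a b ha hb => ha.mul hb) odd_one
  intro v hv
  rw [Finset.mem_Ico] at hv
  apply Odd.mul ⟨v, rfl⟩
  exact ⟨κ - v - 1, by omega⟩

private theorem v5_prod_ne (n r : ℕ) (h : r ≤ n) (x : ℚ) (hx : x = n) :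
    (∏ i ∈ Finset.range r, (x - i)) ≠ 0 := by
  subst hx
  rw [← v5_desc n r h]
  exact_mod_cast (Nat.descFactorial_pos.2 h).ne'

private theorem v5_val4 (e : ℕ) : padicValRat 2 ((-4 : ℚ) ^ e) = 2 * e := by
  rw [padicValRat.pow, padicValRat.neg]
  have h2 := padicValRat_two_zpow 2
  norm_num at h2
  rw [h2]
  ring

private theorem v5_pvval (κ w e : ℕ) (hw : 1 ≤ w) (h : 3 * (w + e) < κ) :
    padicValRat 2 (pv κ (w + e)) + (vC (κ - 2 * w) (2 * e) + vf (2 * e)) +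
      (vC (κ - 2 * w - 1) (2 * e) + vf (2 * e)) + 2 * e =
    padicValRat 2 (pv κ w) + (vC (κ - 3 * w) (3 * e) + vf (3 * e)) +
      (vC (2 * κ - 3 * w - 1) (3 * e) + vf (3 * e)) := by
  have c1 : ((κ - 2 * w : ℕ) : ℚ) = κ - 2 * w := by
    rw [Nat.cast_sub (by omega)]; push_cast; ring
  have c2 : ((κ - 2 * w - 1 : ℕ) : ℚ) = κ - 2 * w - 1 := by
    rw [Nat.cast_sub (by omega), c1]; push_cast; ring
  have c3 : ((κ - 3 * w : ℕ) : ℚ) = κ - 3 * w := by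
    rw [Nat.cast_sub (by omega)]; push_cast; ring
  have c4 : ((2 * κ - 3 * w - 1 : ℕ) : ℚ) = 2 * κ - 3 * w - 1 := by
    rw [Nat.cast_sub (by omega), Nat.cast_sub (by omega)]; push_cast; ring
  have hm := congrArg (padicValRat 2) (v5_main κ w hw e h)
  have n0 := v5_pv_ne κ (w + e) (by omega) (by omega)
  have n0' := v5_pv_ne κ w hw (by omega)
  have n1 := v5_prod_ne (κ - 2 * w) (2 * e) (by omega) _ c1.symm
  have n2 := v5_prod_ne (κ - 2 * w - 1) (2 * e) (by omega) _ c2.symm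
  have n3 := v5_prod_ne (κ - 3 * w) (3 * e) (by omega) _ c3.symm
  have n4 := v5_prod_ne (2 * κ - 3 * w - 1) (3 * e) (by omega) _ c4.symm
  have hodd := v5_odd κ w e (by omega)
  have n5 : ((∏ v ∈ Finset.Ico w (w + e), ((2 * v + 1) * (2 * κ - 2 * v - 1)) : ℕ) : ℚ) ≠ 0 := by
    exact_mod_cast hodd.pos.ne'
  have n6 : ((-4 : ℚ)) ^ e ≠ 0 := pow_ne_zero _ (by norm_num)
  rw [padicValRat.mul (mul_ne_zero (mul_ne_zero (mul_ne_zero n0 n1) n2) n5) n6,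
    padicValRat.mul (mul_ne_zero (mul_ne_zero n0 n1) n2) n5,
    padicValRat.mul (mul_ne_zero n0 n1) n2, padicValRat.mul n0 n1,
    padicValRat.mul (mul_ne_zero n0' n3) n4, padicValRat.mul n0' n3,
    padicValRat.of_nat, padicValNat.eq_zero_of_not_dvd (fun hd => by
      rw [← even_iff_two_dvd] at hd
      exact (Nat.not_even_iff_odd.2 hodd) hd), v5_val4] at hm
  rw [← c2, ← c1, ← c4, ← c3, v5_vC _ _ (by omega), v5_vC _ _ (by omega), v5_vC _ _ (by omega),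
    v5_vC _ _ (by omega)] at hm
  push_cast at hm ⊢
  linarith

private theorem v5_PS_val (ε : Bool) (κ w : ℕ) (hw : 1 ≤ w) (h : 3 * w < κ) :
    padicValRat 2 (PS ε κ w) = (4 * (w : ℤ) - 1) + padicValRat 2 (PP ε κ w) := by
  unfold PS
  rw [padicValRat.mul (zpow_ne_zero _ two_ne_zero) (v5_PP_ne ε κ w hw h), padicValRat_two_zpow]

private theorem v5_PPtrue (κ w : ℕ) (hw : 1 ≤ w) (h : 3 * w < κ) :
    padicValRat 2 (PP true κ w) + padicValNat 2 (2 * κ - 3 * w) =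
      padicValRat 2 (pv κ w) + 1 + padicValNat 2 (κ - 3 * w) := by
  have c3 : ((κ - 3 * w : ℕ) : ℚ) = κ - 3 * w := by
    rw [Nat.cast_sub (by omega)]; push_cast; ring
  have c4 : ((2 * κ - 3 * w : ℕ) : ℚ) = 2 * κ - 3 * w := by
    rw [Nat.cast_sub (by omega)]; push_cast; ring
  have e1 : PP true κ w * ((2 * κ - 3 * w : ℕ) : ℚ) = pv κ w * ((2 : ℚ) ^ (1 : ℤ) *
      ((κ - 3 * w : ℕ) : ℚ)) := by
    unfold PP
    simp only [if_true]
    rw [c3, c4]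
    have h1 : (3 * w : ℚ) < κ := by exact_mod_cast h
    have h2 : (0 : ℚ) ≤ w := by positivity
    have h3 : (3 * (w : ℚ) - 2 * κ) ≠ 0 := by apply ne_of_lt; linarith
    rw [mul_assoc, div_mul_eq_mul_div, show (6 * (w : ℚ) - 2 * κ) * (2 * κ - 3 * w) =
      (2 * (κ - 3 * w)) * (3 * w - 2 * κ) by ring, mul_div_assoc, div_self h3, mul_one, zpow_one]
  have h5 := congrArg (padicValRat 2) e1
  have m1 : ((2 * κ - 3 * w : ℕ) : ℚ) ≠ 0 := by exact_mod_cast (by omega : 2 * κ - 3 * w ≠ 0)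
  have m2 : ((κ - 3 * w : ℕ) : ℚ) ≠ 0 := by exact_mod_cast (by omega : κ - 3 * w ≠ 0)
  rw [padicValRat.mul (v5_PP_ne true κ w hw h) m1,
    padicValRat.mul (v5_pv_ne κ w hw h) (mul_ne_zero (zpow_ne_zero _ two_ne_zero) m2),
    padicValRat.mul (zpow_ne_zero _ two_ne_zero) m2, padicValRat_two_zpow, padicValRat.of_nat,
    padicValRat.of_nat] at h5
  linarith

/-- `n * D (n - 1, r) = (n - r) * D (n, r)` in terms of valuations -/
private theorem v5_shift (n r : ℕ) (h : r + 1 ≤ n) :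
    padicValNat 2 n + vC (n - 1) r = padicValNat 2 (n - r) + vC n r := by
  obtain ⟨m, rfl⟩ : ∃ m, n = m + 1 := ⟨n - 1, by omega⟩
  have h1 : (m + 1) * m.choose r = (m + 1).choose r * (m + 1 - r) :=
    by rw [Nat.add_one_mul_choose_eq, Nat.choose_succ_right_eq]
  have h2 := congrArg (padicValNat 2) h1
  rw [padicValNat.mul (by omega) (Nat.choose_pos (by omega)).ne',
    padicValNat.mul (Nat.choose_pos (by omega)).ne' (by omega)] at h2
  unfold vC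
  rw [Nat.add_sub_cancel]
  omega

theorem padicVal_PS (ε : Bool) (κ w e : ℕ) (hw : 1 ≤ w) (h : 3 * (w + e) < κ) :
    padicValRat 2 (PS ε κ (w + e)) + vC (κ - 2 * w) (2 * e) + vC (κ - 2 * w - 1) (2 * e) +
      2 * vf (2 * e) =
    padicValRat 2 (PS ε κ w) + 2 * e + 2 * vf (3 * e) + eta ε κ w e := by
  have hmain := v5_pvval κ w e hw h
  rw [v5_PS_val ε κ (w + e) (by omega) h, v5_PS_val ε κ w hw (by omega)]
  cases ε
  · have h1 : ∀ w, PP false (κ : ℚ) w = pv κ w := fun w => by simp [PP]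
    rw [h1, h1]
    unfold eta
    simp only [Bool.false_eq_true, if_false]
    push_cast
    linarith
  · have h1 := v5_PPtrue κ (w + e) (by omega) h
    have h2 := v5_PPtrue κ w hw (by omega)
    have h3 := v5_shift (κ - 3 * w) (3 * e) (by omega)
    have h4 := v5_shift (2 * κ - 3 * w) (3 * e) (by omega)
    have e1 : κ - 3 * w - 3 * e = κ - 3 * (w + e) := by omega
    have e2 : 2 * κ - 3 * w - 3 * e = 2 * κ - 3 * (w + e) := by omega
    rw [e1] at h3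
    rw [e2] at h4
    have h3' : (padicValNat 2 (κ - 3 * w) : ℤ) + vC (κ - 3 * w - 1) (3 * e) =
      padicValNat 2 (κ - 3 * (w + e)) + vC (κ - 3 * w) (3 * e) := by exact_mod_cast h3
    have h4' : (padicValNat 2 (2 * κ - 3 * w) : ℤ) + vC (2 * κ - 3 * w - 1) (3 * e) =
      padicValNat 2 (2 * κ - 3 * (w + e)) + vC (2 * κ - 3 * w) (3 * e) := by exact_mod_cast h4
    unfold eta
    simp only [if_true]
    push_cast
    linarith

end Pool.Agent.Helper5.MD
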