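import Pool.Agent.Helper5.MD.VGBasic

/-!
# MD-V6 : parity: lower bound for `eta` at `e = 1`, and one special entry

`eta ε κ n 1 = v2 (six consecutive-type factors) - 2`: for `ε = false` the factors are
`κ - 3 n, κ - 3 n - 1, κ - 3 n - 2` and `2 κ - 3 n - 1, 2 κ - 3 n - 2, 2 κ - 3 n - 3`, for `ε = true`
`κ - 3 n - 1, κ - 3 n - 2, κ - 3 n - 3` and `2 κ - 3 n, 2 κ - 3 n - 1, 2 κ - 3 n - 2`.
Among three consecutive integers starting with an even number the product has valuation `≥ 3`, otherwise `≥ 1`.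
`x0 = 84`: then `κ` is even and (both parities of `n`) the total is `≥ 3 + 1`, so `eta ≥ 2`.
`x0 = 43, 85`: then `κ` is odd; `ε = false`, `n` odd: both triples start with an even number: `eta ≥ 4`;
`ε = true`, `n` even: the same.
Special entry: `LL ε κ (n+1) n = odd * C(κ - n, 2) * (κ - 3 n) / (κ - 2 n - 1)` resp. `(κ - 3 n - 3)` instead of `κ - 3 n` for `ε = true`
(`odd` means divided by the odd number `2 n + 1`).  With `x = κ - 2 n`, `v2 (x - 1) = 0, 1, 2` for `x0 = 84, 43, 85`;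
for `x0 = 85` the factor `κ - 3 n` resp. `κ - 3 n - 3` is even.  So `v2 (4 LL) ≥ 1` in all cases.
-/

open scoped Nat

namespace Pool.Agent.Helper5.MD

/-- `4` divides `C(m, 3)` for even `m`, as a statement on valuations -/
theorem vC_three_of_even {m : ℕ} (hm : m % 2 = 0) (h4 : 4 ≤ m) : 2 ≤ vC m 3 := by
  obtain ⟨a, rfl⟩ : ∃ a, m = 2 * (a + 2) := ⟨m / 2 - 2, by omega⟩
  have h1 : (2 * (a + 2)).descFactorial 3 = 3 ! * (2 * (a + 2)).choose 3 :=
    Nat.descFactorial_eq_factorial_mul_choose _ _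
  have h2 : (2 * (a + 2)).descFactorial 3 = 4 * ((a + 1) * (a + 2)) * (2 * a + 3) := by
    have e1 : 2 * (a + 2) - 0 = 2 * (a + 2) := rfl
    have e2 : 2 * (a + 2) - 1 = 2 * a + 3 := by omega
    have e3 : 2 * (a + 2) - 2 = 2 * (a + 1) := by omega
    simp only [Nat.descFactorial_succ, Nat.descFactorial_zero, e1, e2, e3]
    ring
  have h3 : Even ((a + 1) * (a + 2)) := Nat.even_mul_succ_self (a + 1)
  obtain ⟨b, hb⟩ := h3
  have h5 : (3 ! : ℕ) = 6 := rfl
  have h6 : 3 * (2 * (a + 2)).choose 3 = 4 * (b * (2 * a + 3)) := by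
    rw [h1, hb, h5] at h2
    have : 2 * (3 * (2 * (a + 2)).choose 3) = 2 * (4 * (b * (2 * a + 3))) := by
      calc 2 * (3 * (2 * (a + 2)).choose 3) = 6 * (2 * (a + 2)).choose 3 := by ring
        _ = 4 * (b + b) * (2 * a + 3) := h2
        _ = 2 * (4 * (b * (2 * a + 3))) := by ring
    exact Nat.eq_of_mul_eq_mul_left (by norm_num) this
  have h7 : 2 ^ 2 ∣ (2 * (a + 2)).choose 3 := by
    have hc : Nat.Coprime (2 ^ 2) 3 := by norm_num
    refine hc.dvd_of_dvd_mul_left ?_
    rw [h6]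
    exact ⟨b * (2 * a + 3), by norm_num⟩
  have h8 : (2 * (a + 2)).choose 3 ≠ 0 := (Nat.choose_pos (by omega)).ne'
  exact (padicValNat_dvd_iff_le h8).1 h7

theorem eta_one_lower (ε : Bool) (κ x0 n : ℕ) (h : Adm ε κ x0 n) (h3 : 3 * (n + 1) < κ) :
    (if x0 = 84 then 2 else 4) ≤ eta ε κ n 1 := by
  obtain ⟨h1, h6, ⟨hmod, _⟩, hcase⟩ := h
  have h128 : (κ - 2 * n) % 2 = x0 % 2 := by omega
  rcases hcase with rfl | ⟨hx, hn⟩
  · rw [if_pos rfl]
    cases ε with
    | false =>
      simp only [eta, Bool.false_eq_true, if_false, mul_one]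
      rcases Nat.mod_two_eq_zero_or_one n with hn | hn
      · have := vC_three_of_even (m := κ - 3 * n) (by omega) (by omega)
        omega
      · have := vC_three_of_even (m := 2 * κ - 3 * n - 1) (by omega) (by omega)
        omega
    | true =>
      simp only [eta, if_true, mul_one]
      rcases Nat.mod_two_eq_zero_or_one n with hn | hn
      · have := vC_three_of_even (m := 2 * κ - 3 * n) (by omega) (by omega)
        omega
      · have := vC_three_of_even (m := κ - 3 * n - 1) (by omega) (by omega)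
        omega
  · have hx84 : x0 ≠ 84 := by omega
    rw [if_neg hx84]
    cases ε with
    | false =>
      simp only [eta, Bool.false_eq_true, if_false, mul_one] at hn ⊢
      have e1 := vC_three_of_even (m := κ - 3 * n) (by omega) (by omega)
      have e2 := vC_three_of_even (m := 2 * κ - 3 * n - 1) (by omega) (by omega)
      omega
    | true =>
      simp only [eta, if_true, mul_one] at hn ⊢
      have e1 := vC_three_of_even (m := κ - 3 * n - 1) (by omega) (by omega)
      have e2 := vC_three_of_even (m := 2 * κ - 3 * n) (by omega) (by omega)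
      omega

/-- an integer divided by an odd integer -/
theorem VG_div_odd (z o : ℤ) (ho : o % 2 = 1) : VG 0 ((z : ℚ) / (o : ℚ)) := by
  by_cases hz : z = 0
  · left; simp [hz]
  right
  have ho0 : o ≠ 0 := by omega
  have h1 : ((z : ℚ)) ≠ 0 := by exact_mod_cast hz
  have h2 : ((o : ℚ)) ≠ 0 := by exact_mod_cast ho0
  rw [padicValRat.div h1 h2, padicValRat.of_int, padicValRat.of_int]
  have h3 : padicValInt 2 o = 0 := by
    apply padicValInt.eq_zero_of_not_dvd
    omega
  rw [h3]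
  simp

/-- the factor which depends on `ε` -/
def tt (ε : Bool) (κ n : ℕ) : ℤ := if ε then (κ : ℤ) - 3 * n - 3 else (κ : ℤ) - 3 * n

theorem LL_succ (ε : Bool) (κ n : ℕ) (h3 : 3 * (n + 1) < κ) :
    LL ε κ (n + 1) n = ((κ : ℚ) - n) * (κ - n - 1) * (tt ε κ n : ℚ) /
      (2 * (2 * n + 1) * (κ - 2 * n - 1)) := by
  have hκ : (3 * ((n : ℚ) + 1)) < κ := by exact_mod_cast h3
  have hn : (0 : ℚ) ≤ n := Nat.cast_nonneg n
  have e1 : (κ : ℚ) - 2 * n - 1 ≠ 0 := by
    have : (0 : ℚ) < (κ : ℚ) - 2 * n - 1 := by linarith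
    exact this.ne'
  have e2 : (2 * (n : ℚ) + 1) ≠ 0 := by positivity
  have e3 : (κ : ℚ) - 3 * n ≠ 0 := by
    have : (0 : ℚ) < (κ : ℚ) - 3 * n := by linarith
    exact this.ne'
  have hl : lam (κ : ℚ) (n + 1) n = ((κ : ℚ) - n) * (κ - n - 1) * (κ - 3 * n) /
      (2 * (2 * n + 1) * (κ - 2 * n - 1)) := by
    unfold lam
    rw [if_pos (Nat.le_succ n)]
    have : Finset.Ico n (n + 1) = {n} := by simp
    rw [this, Finset.prod_singleton]
    have e4 : (κ : ℚ) - n - n - 1 = κ - 2 * n - 1 := by ring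
    rw [e4]
    field_simp
    ring
  cases ε with
  | false =>
    simp only [LL, tt, Bool.false_eq_true, if_false]
    rw [hl]
    push_cast
    ring
  | true =>
    simp only [LL, tt, if_true]
    rw [hl]
    push_cast
    rw [div_mul_div_comm, div_eq_div_iff (mul_ne_zero (mul_ne_zero (mul_ne_zero two_ne_zero e2) e1) e3)
      (mul_ne_zero (mul_ne_zero two_ne_zero e2) e1)]
    ring

theorem VG_LL_special (ε : Bool) (κ x0 n : ℕ) (h : Adm ε κ x0 n) (h3 : 3 * (n + 1) < κ) :
    VG 1 (2 ^ (2 : ℤ) * LL ε κ (n + 1) n) := by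
  obtain ⟨h1, h6, ⟨hmod, _⟩, hcase⟩ := h
  have hκ : (3 * ((n : ℚ) + 1)) < κ := by exact_mod_cast h3
  have hn0 : (0 : ℚ) ≤ n := Nat.cast_nonneg n
  rw [LL_succ ε κ n h3]
  -- the product of two consecutive integers
  obtain ⟨c, hc⟩ : ∃ c : ℤ, ((κ : ℤ) - n) * (κ - n - 1) = 2 * c := by
    have h : Even (((κ : ℤ) - n - 1) * ((κ : ℤ) - n - 1 + 1)) := Int.even_mul_succ_self _
    obtain ⟨c, hc⟩ := h
    exact ⟨c, by linear_combination hc⟩
  have hcq : ((κ : ℚ) - n) * (κ - n - 1) = 2 * c := by exact_mod_cast hc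
  have e2 : (2 * (n : ℚ) + 1) ≠ 0 := by positivity
  rw [hcq]
  -- it suffices to write the number as `2 * (integer / odd)`
  have key : ∀ z o : ℤ, o % 2 = 1 → (2 : ℚ) ^ (2 : ℤ) * (2 * c * (tt ε κ n : ℚ) /
      (2 * (2 * n + 1) * (κ - 2 * n - 1))) = 2 ^ (1 : ℤ) * ((z : ℚ) / (o : ℚ)) →
      VG 1 ((2 : ℚ) ^ (2 : ℤ) * (2 * c * (tt ε κ n : ℚ) /
      (2 * (2 * n + 1) * (κ - 2 * n - 1)))) := by
    intro z o ho he
    rw [he]
    have := (VG_two_zpow 1).mul (VG_div_odd z o ho)
    simpa using this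
  have hz2 : (2 : ℚ) ^ (2 : ℤ) = 4 := by norm_num
  have hz1 : (2 : ℚ) ^ (1 : ℤ) = 2 := by norm_num
  rcases hcase with rfl | ⟨hx, hn⟩
  · obtain ⟨q, hq⟩ : ∃ q : ℕ, κ = 2 * n + 128 * q + 84 := ⟨(κ - 2 * n) / 128, by omega⟩
    have hqq : (κ : ℚ) - 2 * n - 1 = 128 * q + 83 := by rw [hq]; push_cast; ring
    have e1 : (128 * (q : ℚ) + 83) ≠ 0 := by positivity
    refine key (2 * c * tt ε κ n) ((2 * n + 1) * (128 * q + 83)) ?_ ?_
    · have : ((2 * (n : ℤ) + 1) * (128 * q + 83)) = 2 * (128 * n * q + 83 * n + 64 * q + 41) + 1 := by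
        ring
      omega
    · rw [hqq, hz1, hz2]
      push_cast
      field_simp
      ring
  · rcases hx with rfl | rfl
    · obtain ⟨q, hq⟩ : ∃ q : ℕ, κ = 2 * n + 128 * q + 43 := ⟨(κ - 2 * n) / 128, by omega⟩
      have hqq : (κ : ℚ) - 2 * n - 1 = 2 * (64 * q + 21) := by rw [hq]; push_cast; ring
      have e1 : (64 * (q : ℚ) + 21) ≠ 0 := by positivity
      refine key (c * tt ε κ n) ((2 * n + 1) * (64 * q + 21)) ?_ ?_
      · have : ((2 * (n : ℤ) + 1) * (64 * q + 21)) = 2 * (64 * n * q + 21 * n + 32 * q + 10) + 1 := by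
          ring
        omega
      · rw [hqq, hz1, hz2]
        push_cast
        field_simp
        try ring
    · obtain ⟨q, hq⟩ : ∃ q : ℕ, κ = 2 * n + 128 * q + 85 := ⟨(κ - 2 * n) / 128, by omega⟩
      have hqq : (κ : ℚ) - 2 * n - 1 = 4 * (32 * q + 21) := by rw [hq]; push_cast; ring
      have e1 : (32 * (q : ℚ) + 21) ≠ 0 := by positivity
      obtain ⟨t, ht⟩ : ∃ t : ℤ, tt ε κ n = 2 * t := by
        have : tt ε κ n % 2 = 0 := by
          cases ε with
          | false => simp only [tt, Bool.false_eq_true, if_false] at hn ⊢; omega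
          | true => simp only [tt, if_true] at hn ⊢; omega
        exact ⟨tt ε κ n / 2, by omega⟩
      have htq : (tt ε κ n : ℚ) = 2 * t := by exact_mod_cast ht
      refine key (c * t) ((2 * n + 1) * (32 * q + 21)) ?_ ?_
      · have : ((2 * (n : ℤ) + 1) * (32 * q + 21)) = 2 * (32 * n * q + 21 * n + 16 * q + 10) + 1 := by
          ring
        omega
      · rw [hqq, hz1, hz2, htq]
        push_cast
        field_simp
        try ring

end Pool.Agent.Helper5.MD
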