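import Pool.Agent.Helper5.MD.V1LL
import Pool.Agent.Helper5.MD.V2UU
import Pool.Agent.Helper5.MD.V3LI
import Pool.Agent.Helper5.MD.V4UI
import Pool.Agent.Helper5.MD.V5Pivot
import Pool.Agent.Helper5.MD.V6Eta
import Pool.Agent.Helper5.MD.D3IneqS
import Pool.Agent.Helper5.MD.D4IneqP
import Pool.Agent.Helper5.MD.D5IneqX

/-!
# MD-D6 : the four near estimates

Put `x = κ - 2 n`.  For `w = n - e`, `i = n + a`, `j = n - b`:  `κ - 2 w - 1 = x + 2 e - 1`, `κ - w - j = x + b + e`; so the term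
`LL κ i w * LI κ w j` has valuation `≥ -(vC (x+2e-1) (a+e)) - vC (x+b+e) (b-e)` and MD-D5 applies (the entry `a = 1, b = 0` is
`VG_LL_special`, resp. `ineq_X0` for `near_Y`; note `LI κ n n = 1`, `UI κ n n = 1`).
For `near_G`: term `w = n - e`: valuation `≥ -vC (x+b+e) (b-e) - vC (x+c+e) (c-e) - v(PP w)`, use `padicVal_PS` with `w = n - e` and `e`, MD-D4
and `PS w = 2^(4 w - 1) PP w`.  For `near_S`: `w = n + e`: valuation `≥ -vC (x-2e-1) (a-e) - vC (x-2e-1) (c-e) + v(PP w)`, use `padicVal_PS` with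
`w = n`, MD-D3 and `eta_one_lower`.
-/

open scoped Nat

namespace Pool.Agent.Helper5.MD


private theorem D6_x0 {ε : Bool} {κ x0 n : ℕ} (hA : Adm ε κ x0 n) :
    x0 = 84 ∨ x0 = 43 ∨ x0 = 85 := by
  rcases hA.2.2.2 with h | ⟨h, -⟩
  · exact Or.inl h
  · exact Or.inr h

private theorem D6_PP (ε : Bool) (κ w : ℕ) :
    VG (1 - 4 * (w : ℤ) + padicValRat 2 (PS ε κ w)) (PP ε κ w) := by
  have h : PP ε κ w = 2 ^ (1 - 4 * (w : ℤ)) * PS ε κ w := by
    unfold PS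
    rw [← mul_assoc, ← zpow_add₀ (by norm_num : (2 : ℚ) ≠ 0)]
    rw [show 1 - 4 * (w : ℤ) + (4 * (w : ℤ) - 1) = 0 by ring, zpow_zero, one_mul]
  rw [h]
  exact (VG_two_zpow _).mul (Or.inr le_rfl)

private theorem D6_PPinv (ε : Bool) (κ w : ℕ) :
    VG (4 * (w : ℤ) - 1 - padicValRat 2 (PS ε κ w)) (PP ε κ w)⁻¹ := by
  have h : (PP ε κ w)⁻¹ = 2 ^ (4 * (w : ℤ) - 1) * (PS ε κ w)⁻¹ := by
    unfold PS
    rw [mul_inv, ← mul_assoc, mul_inv_cancel₀ (zpow_ne_zero _ (by norm_num)), one_mul]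
  rw [h, sub_eq_add_neg]
  refine (VG_two_zpow _).mul (Or.inr ?_)
  rw [padicValRat.inv]

private theorem D6_LI_self (ε : Bool) (κ n : ℕ) (hn : 1 ≤ n) (h6 : 6 * n ≤ κ) :
    LI ε κ n n = 1 := by
  have hκ : ((n : ℚ)) < κ := by
    have : n < κ := by omega
    exact_mod_cast this
  have hκ3 : (3 : ℚ) * n < κ := by
    have : 3 * n < κ := by omega
    exact_mod_cast this
  have h1 : (κ : ℚ) - n ≠ 0 := (sub_pos.2 hκ).ne'
  have h2 : (κ : ℚ) - 3 * n ≠ 0 := (sub_pos.2 hκ3).ne'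
  have h3 : lamInv κ n n = 1 := by
    unfold lamInv
    rw [if_pos le_rfl, Finset.Ico_self, Finset.prod_empty, mul_one]
    exact div_self (mul_ne_zero h1 h2)
  unfold LI
  rw [h3, div_self h2]
  simp

theorem near_X (ε : Bool) (κ x0 n : ℕ) (hA : Adm ε κ x0 n) (i j : ℕ) (hj : 1 ≤ j) (hjn : j ≤ n)
    (hni : n < i) (hi : 3 * i < κ) :
    VG 1 (2 ^ (2 * (i : ℤ) - 2 * j) * ∑ w ∈ Finset.Icc j n, LL ε κ i w * LI ε κ w j) := by
  have hx0 := D6_x0 hA
  have hA' := hA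
  obtain ⟨hn, h6, hG, -⟩ := hA
  by_cases hab : i = n + 1 ∧ j = n
  · obtain ⟨rfl, rfl⟩ := hab
    rw [Finset.Icc_self, Finset.sum_singleton, D6_LI_self ε κ j hn h6, mul_one]
    have h := VG_LL_special ε κ x0 j hA' hi
    rw [show (2 * ((j + 1 : ℕ) : ℤ) - 2 * j) = 2 by push_cast; ring]
    exact h
  · rw [Finset.mul_sum]
    refine VG_sum _ _ _ fun w hw => ?_
    rw [Finset.mem_Icc] at hw
    obtain ⟨a, rfl⟩ : ∃ a, i = n + a := ⟨i - n, by omega⟩
    obtain ⟨e, rfl⟩ : ∃ e, n = w + e := ⟨n - w, by omega⟩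
    obtain ⟨t, rfl⟩ : ∃ t, w = j + t := ⟨w - j, by omega⟩
    have h1 := VG_LL ε κ (j + t + e + a) (j + t) (by omega) (by omega) hi
    have h2 := VG_LI ε κ (j + t) j hj (by omega) (by omega)
    have h3 := ineq_X x0 (κ - 2 * (j + t + e)) hx0 hG a (t + e) e (by omega) (by omega) (by omega)
      (by omega)
    rw [show κ - 2 * (j + t + e) + 2 * e - 1 = κ - 2 * (j + t) - 1 by omega,
      show κ - 2 * (j + t + e) + (t + e) + e = κ - (j + t) - j by omega,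
      show t + e - e = t by omega] at h3
    rw [show j + t + e + a - (j + t) = a + e by omega] at h1
    rw [show j + t - j = t by omega] at h2
    refine ((VG_two_zpow _).mul (h1.mul h2)).mono ?_
    push_cast
    omega

theorem near_Y (ε : Bool) (κ x0 n : ℕ) (hA : Adm ε κ x0 n) (i j : ℕ) (hi : 1 ≤ i) (hin : i ≤ n)
    (hnj : n < j) (hj : 3 * j < κ) :
    VG 0 (2 ^ (2 * (j : ℤ) - 2 * i) * ∑ w ∈ Finset.Icc i n, UI ε κ i w * UU ε κ w j) := by
  have hx0 := D6_x0 hA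
  obtain ⟨hn, h6, hG, -⟩ := hA
  rw [Finset.mul_sum]
  refine VG_sum _ _ _ fun w hw => ?_
  rw [Finset.mem_Icc] at hw
  obtain ⟨a, rfl⟩ : ∃ a, j = n + a := ⟨j - n, by omega⟩
  obtain ⟨e, rfl⟩ : ∃ e, n = w + e := ⟨n - w, by omega⟩
  obtain ⟨t, rfl⟩ : ∃ t, w = i + t := ⟨w - i, by omega⟩
  have h1 := VG_UU ε κ (i + t) (i + t + e + a) (by omega) (by omega) hj
  have h2 := VG_UI ε κ i (i + t) hi (by omega) (by omega)
  rw [show i + t + e + a - (i + t) = a + e by omega] at h1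
  rw [show i + t - i = t by omega] at h2
  by_cases hab : a = 1 ∧ t + e = 0
  · obtain ⟨rfl, hte⟩ := hab
    obtain ⟨rfl, rfl⟩ : t = 0 ∧ e = 0 := by omega
    have h3 := ineq_X0 x0 (κ - 2 * (i + 0 + 0)) hx0 hG
    have h4 : vC (κ - (i + 0) - i) 0 = 0 := by simp [vC]
    rw [h4] at h2
    simp only [add_zero] at h1 h2 h3 ⊢
    refine ((VG_two_zpow _).mul (h2.mul h1)).mono ?_
    push_cast
    omega
  · have h3 := ineq_X x0 (κ - 2 * (i + t + e)) hx0 hG a (t + e) e (by omega) (by omega) (by omega)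
      (by omega)
    rw [show κ - 2 * (i + t + e) + 2 * e - 1 = κ - 2 * (i + t) - 1 by omega,
      show κ - 2 * (i + t + e) + (t + e) + e = κ - (i + t) - i by omega,
      show t + e - e = t by omega] at h3
    refine ((VG_two_zpow _).mul (h2.mul h1)).mono ?_
    push_cast
    omega

theorem near_G (ε : Bool) (κ x0 n : ℕ) (hA : Adm ε κ x0 n) (c d : ℕ) (hc : 1 ≤ c) (hcn : c ≤ n)
    (hd : 1 ≤ d) (hdn : d ≤ n) (h3 : 3 * n < κ) :
    VG (-padicValRat 2 (PS ε κ n)) (2 ^ (1 - 2 * (c : ℤ) - 2 * d) *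
      ∑ w ∈ Finset.Icc (max c d) n, UI ε κ c w * (PP ε κ w)⁻¹ * LI ε κ w d) := by
  have hx0 := D6_x0 hA
  obtain ⟨hn, h6, hG, -⟩ := hA
  rw [Finset.mul_sum]
  refine VG_sum _ _ _ fun w hw => ?_
  rw [Finset.mem_Icc, max_le_iff] at hw
  obtain ⟨⟨hcw, hdw⟩, hwn⟩ := hw
  obtain ⟨e, rfl⟩ : ∃ e, n = w + e := ⟨n - w, by omega⟩
  have h1 := VG_UI ε κ c w hc hcw (by omega)
  have h2 := VG_LI ε κ w d hd hdw (by omega)
  have h4 := D6_PPinv ε κ w
  have h5 := padicVal_PS ε κ w e (by omega) h3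
  have h7 := ineq_P x0 (κ - 2 * (w + e)) hx0 hG (w + e - c) (w + e - d) e (by omega) (by omega)
  rw [show κ - 2 * (w + e) + 2 * e = κ - 2 * w by omega,
    show κ - 2 * (w + e) + (w + e - c) + e = κ - w - c by omega,
    show κ - 2 * (w + e) + (w + e - d) + e = κ - w - d by omega,
    show w + e - c - e = w - c by omega, show w + e - d - e = w - d by omega] at h7
  refine ((VG_two_zpow _).mul ((h1.mul h4).mul h2)).mono ?_
  have h8 : ((w - c : ℕ) : ℤ) = (w : ℤ) - c := by omega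
  have h9 : ((w - d : ℕ) : ℤ) = (w : ℤ) - d := by omega
  zify at h7
  rw [h8, h9] at h7
  linarith [h5, h7, Int.natCast_nonneg (eta ε κ w e)]

theorem near_S (ε : Bool) (κ x0 n : ℕ) (hA : Adm ε κ x0 n) (i j : ℕ) (hi : n < i) (hj : n < j)
    (hi3 : 3 * i < κ) (hj3 : 3 * j < κ) :
    VG (padicValRat 2 (PS ε κ n) + 2) (2 ^ (2 * (i : ℤ) + 2 * j - 1) *
      ∑ w ∈ Finset.Icc (n + 1) (min i j), LL ε κ i w * PP ε κ w * UU ε κ w j) := by
  have hx0 := D6_x0 hA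
  have hA' := hA
  obtain ⟨hn, h6, hG, -⟩ := hA
  rw [Finset.mul_sum]
  refine VG_sum _ _ _ fun w hw => ?_
  rw [Finset.mem_Icc, le_min_iff] at hw
  obtain ⟨hnw, hwi, hwj⟩ := hw
  obtain ⟨e, rfl⟩ : ∃ e, w = n + e := ⟨w - n, by omega⟩
  have h1 := VG_LL ε κ i (n + e) (by omega) hwi hi3
  have h2 := VG_UU ε κ (n + e) j (by omega) hwj hj3
  have h4 := D6_PP ε κ (n + e)
  have h5 := padicVal_PS ε κ n e hn (by omega)
  have h7 := ineq_S x0 (κ - 2 * n) hx0 hG (i - n) (j - n) e (eta ε κ n e) (by omega) (by omega)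
    (by omega) (by omega) (by omega) (by
      rintro rfl
      exact eta_one_lower ε κ x0 n hA' (by omega))
  rw [show κ - 2 * n - 2 * e - 1 = κ - 2 * (n + e) - 1 by omega,
    show i - n - e = i - (n + e) by omega, show j - n - e = j - (n + e) by omega] at h7
  refine ((VG_two_zpow _).mul ((h1.mul h4).mul h2)).mono ?_
  have h8 : ((i - (n + e) : ℕ) : ℤ) = (i : ℤ) - n - e := by omega
  have h9 : ((j - (n + e) : ℕ) : ℤ) = (j : ℤ) - n - e := by omega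
  zify at h7
  rw [h8, h9] at h7
  push_cast
  linarith [h5, h7]

end Pool.Agent.Helper5.MD
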