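import Pool.Agent.Helper5.MD.V3LI
import Pool.Agent.Helper5.MD.V4UI
import Pool.Agent.Helper5.MD.V5Pivot
import Pool.Agent.Helper5.MD.D1Window

/-!
# MD-D7 : crude global bounds

`vC N r ≤ log2 N`.  `padicVal_PS` with `w = 1`: `v (PS w) ≤ v (PS 1) + 2 m + 2 (v2 ((3m)!) - v2 ((2m)!)) + log2 κ + log2 (2 κ)`, `m = w - 1`, and
`v2 ((3m)!) - v2 ((2m)!) = m - s(3m) + s(m) ≤ m + log2 κ + 1` (`s` the binary digit sum, `v2 (m!) = m - s(m)`, `s(2m) = s(m)`),
`PS false κ 1 = 8 (3 - 2 κ)`, `PS true κ 1 = 16 (3 - κ)`.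
`PP w = 2 ^ (1 - 4 w) PS w`, so `v (PP w) ≤ 5 log2 κ + 9 or so`; together with MD-V3, MD-V4: the second statement.
The integrality of `bb`: generalized binomials of integers are integers.
-/

open scoped Nat

namespace Pool.Agent.Helper5.MD

namespace D7Aux

theorem vC_le_log_of_le (N K r : ℕ) (h : N ≤ K) : vC N r ≤ Nat.log 2 K :=
  (vC_le_log N r).trans (Nat.log_mono_right h)

theorem vf_le (m : ℕ) : vf m ≤ m := by
  unfold vf
  have : Fact (Nat.Prime 2) := ⟨Nat.prime_two⟩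
  have h := sub_one_mul_padicValNat_factorial (p := 2) m
  omega

theorem vf_three (m : ℕ) : vf (3 * m) = vf (2 * m) + vf m + vC (3 * m) m := by
  have : Fact (Nat.Prime 2) := ⟨Nat.prime_two⟩
  have h := Nat.choose_mul_factorial_mul_factorial (n := 3 * m) (k := m) (by omega)
  have h2 : 3 * m - m = 2 * m := by omega
  rw [h2] at h
  unfold vf vC
  rw [← h, padicValNat.mul, padicValNat.mul]
  · ring
  · exact (Nat.choose_pos (by omega)).ne'
  · exact (Nat.factorial_pos _).ne'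
  · exact mul_ne_zero (Nat.choose_pos (by omega)).ne' (Nat.factorial_pos _).ne'
  · exact (Nat.factorial_pos _).ne'

theorem log_two_mul (κ : ℕ) (h : 1 ≤ κ) : Nat.log 2 (2 * κ) = Nat.log 2 κ + 1 := by
  rw [mul_comm]
  exact Nat.log_mul_base (by norm_num) (by omega)

theorem eta_le (ε : Bool) (κ m : ℕ) (hκ : 1 ≤ κ) : eta ε κ 1 m ≤ 2 * Nat.log 2 κ + 1 := by
  unfold eta
  have hl := log_two_mul κ hκ
  split_ifs
  · have h1 := vC_le_log_of_le (κ - 3 * 1 - 1) κ (3 * m) (by omega)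
    have h2 := vC_le_log_of_le (2 * κ - 3 * 1) (2 * κ) (3 * m) (by omega)
    omega
  · have h1 := vC_le_log_of_le (κ - 3 * 1) κ (3 * m) (by omega)
    have h2 := vC_le_log_of_le (2 * κ - 3 * 1 - 1) (2 * κ) (3 * m) (by omega)
    omega

theorem padicValRat_two : padicValRat 2 (2 : ℚ) = 1 := by
  have := padicValRat_two_zpow 1
  simpa using this

theorem val_odd (z : ℤ) (h : z % 2 = 1) : padicValRat 2 (z : ℚ) = 0 := by
  rw [padicValRat.of_int]
  have : padicValInt 2 z = 0 := by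
    rw [padicValInt.eq_zero_iff]
    right; right
    omega
  simp [this]

theorem PS_one_false (κ : ℕ) : padicValRat 2 (PS false κ 1) = 3 := by
  have h : PS false κ 1 = 2 ^ (3 : ℤ) * ((3 - 2 * (κ : ℤ) : ℤ) : ℚ) := by
    unfold PS PP pv
    simp
  have hz : (3 - 2 * (κ : ℤ)) % 2 = 1 := by omega
  have hne : ((3 - 2 * (κ : ℤ) : ℤ) : ℚ) ≠ 0 := by
    have : (3 - 2 * (κ : ℤ)) ≠ 0 := by omega
    exact_mod_cast this
  rw [h, padicValRat.mul (by positivity) hne, padicValRat_two_zpow, val_odd _ hz]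
  norm_num

theorem PS_one_true (κ : ℕ) (hκ : 3 < κ) : padicValRat 2 (PS true κ 1) ≤ 4 + Nat.log 2 κ := by
  have h3 : ((3 : ℚ) - 2 * κ) ≠ 0 := by
    have : (3 : ℚ) < κ := by exact_mod_cast hκ
    linarith
  have h : PS true κ 1 = -(2 ^ (4 : ℤ) * ((κ - 3 : ℕ) : ℚ)) := by
    unfold PS PP pv
    rw [Nat.cast_sub (by omega)]
    simp
    field_simp
    norm_num
    ring
  have hne : ((κ - 3 : ℕ) : ℚ) ≠ 0 := by
    have : κ - 3 ≠ 0 := by omega
    exact_mod_cast this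
  rw [h, padicValRat.neg, padicValRat.mul (by positivity) hne, padicValRat_two_zpow,
    padicValRat.of_nat]
  have h1 : padicValNat 2 (κ - 3) ≤ Nat.log 2 (κ - 3) := by
    exact padicValNat_le_nat_log _
  have h2 : Nat.log 2 (κ - 3) ≤ Nat.log 2 κ := Nat.log_mono_right (by omega)
  have h3 : (padicValNat 2 (κ - 3) : ℤ) ≤ Nat.log 2 κ := by exact_mod_cast h1.trans h2
  linarith

theorem PS_one (ε : Bool) (κ : ℕ) (hκ : 3 < κ) :
    padicValRat 2 (PS ε κ 1) ≤ 4 + Nat.log 2 κ := by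
  cases ε
  · rw [PS_one_false]
    have : (0 : ℤ) ≤ (Nat.log 2 κ : ℤ) := by positivity
    linarith
  · exact PS_one_true κ hκ

end D7Aux

open D7Aux

theorem PS_upper (ε : Bool) (κ w : ℕ) (hw : 1 ≤ w) (h : 3 * w < κ) :
    padicValRat 2 (PS ε κ w) ≤ 4 * w + 5 * Nat.log 2 κ + 8 := by
  obtain ⟨m, rfl⟩ : ∃ m, w = 1 + m := ⟨w - 1, by omega⟩
  have h1 := padicVal_PS ε κ 1 m le_rfl h
  have h2 := PS_one ε κ (by omega)
  have h3 := eta_le ε κ m (by omega)
  have h4 := vf_three m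
  have h5 := vf_le m
  have h6 := vC_le_log_of_le (3 * m) κ m (by omega)
  push_cast at *
  have h4' : (vf (3 * m) : ℤ) = vf (2 * m) + vf m + vC (3 * m) m := by exact_mod_cast h4
  have h3' : (eta ε κ 1 m : ℤ) ≤ 2 * Nat.log 2 κ + 1 := by exact_mod_cast h3
  have h5' : (vf m : ℤ) ≤ m := by exact_mod_cast h5
  have h6' : (vC (3 * m) m : ℤ) ≤ Nat.log 2 κ := by exact_mod_cast h6
  have h7 : (0 : ℤ) ≤ vC (κ - 2 * 1) (2 * m) := by positivity
  have h8 : (0 : ℤ) ≤ vC (κ - 2 * 1 - 1) (2 * m) := by positivity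
  linarith

theorem crude_G (ε : Bool) (κ n : ℕ) (h3 : 3 * n < κ) (c d : ℕ) (hc : 1 ≤ c) (hcn : c ≤ n)
    (hd : 1 ≤ d) (hdn : d ≤ n) :
    VG (-(8 * Nat.log 2 κ + 16 : ℤ))
      (∑ w ∈ Finset.Icc (max c d) n, UI ε κ c w * (PP ε κ w)⁻¹ * LI ε κ w d) := by
  apply VG_sum
  intro w hw
  rw [Finset.mem_Icc] at hw
  obtain ⟨hw1, hw2⟩ := hw
  have hcw : c ≤ w := le_trans (le_max_left _ _) hw1
  have hdw : d ≤ w := le_trans (le_max_right _ _) hw1
  have hw0 : 1 ≤ w := by omega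
  have hwκ : 3 * w < κ := by omega
  have hU := VG_UI ε κ c w hc hcw hwκ
  have hL := VG_LI ε κ w d hd hdw hwκ
  have hP := PS_upper ε κ w hw0 hwκ
  have hPne := PS_ne_zero ε κ w hw0 hwκ
  have hu := vC_le_log_of_le (κ - w - c) κ (w - c) (by omega)
  have hl := vC_le_log_of_le (κ - w - d) κ (w - d) (by omega)
  have hu' : (vC (κ - w - c) (w - c) : ℤ) ≤ Nat.log 2 κ := by exact_mod_cast hu
  have hl' : (vC (κ - w - d) (w - d) : ℤ) ≤ Nat.log 2 κ := by exact_mod_cast hl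
  have hPP : PP ε κ w ≠ 0 := by
    intro h0
    apply hPne
    unfold PS
    rw [h0, mul_zero]
  have hv : padicValRat 2 (PS ε κ w) = (4 * (w : ℤ) - 1) + padicValRat 2 (PP ε κ w) := by
    unfold PS
    rw [padicValRat.mul (by positivity) hPP, padicValRat_two_zpow]
  have hinv : VG (-(5 * Nat.log 2 κ + 9 : ℤ)) ((PP ε κ w)⁻¹) := by
    right
    rw [padicValRat.inv]
    linarith
  refine ((hU.mul hinv).mul hL).mono ?_
  have h0 : (0 : ℤ) ≤ Nat.log 2 κ := by positivity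
  linarith

namespace D7Aux

theorem ch_int (z : ℤ) (n : ℕ) : ch (z : ℚ) n = ((Ring.choose z n : ℤ) : ℚ) := by
  have h := Ring.descPochhammer_eq_factorial_smul_choose z n
  rw [← Polynomial.eval_eq_smeval, descPochhammer_eval_eq_prod_range] at h
  unfold ch
  have hf : (n ! : ℚ) ≠ 0 := by exact_mod_cast (Nat.factorial_pos n).ne'
  rw [div_eq_iff hf]
  have h' : ((∏ i ∈ Finset.range n, (z - i) : ℤ) : ℚ) = ((n ! • Ring.choose z n : ℤ) : ℚ) := by
    rw [h]
  push_cast at h'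
  rw [h']
  simp
  ring

theorem VG_ch (z : ℤ) (n : ℕ) : VG 0 (ch (z : ℚ) n) := by
  rw [ch_int]
  exact VG_int _

end D7Aux

theorem VG_bb (ε : Bool) (κ i j : ℕ) : VG 0 (bb ε κ i j) := by
  have e1 : ((i : ℚ) + j - κ) = (((i : ℤ) + j - κ : ℤ) : ℚ) := by push_cast; ring
  have e2 : ((i : ℚ) + j - κ - 1) = (((i : ℤ) + j - κ - 1 : ℤ) : ℚ) := by push_cast; ring
  have h2 : VG 0 (2 : ℚ) := by
    have := VG_int 2
    simpa using this
  unfold bb
  split_ifs
  · unfold b2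
    rw [e2, e1]
    split_ifs
    · have h3 := h2.mul ((VG_ch ((i : ℤ) + j - κ) (2 * i - j)).add
        (VG_ch ((i : ℤ) + j - κ - 1) (2 * i - j - 1)))
      rwa [add_zero] at h3
    · exact h2
    · exact VG_zero 0
  · unfold b1
    rw [e2, e1]
    split_ifs
    · exact (VG_ch _ (2 * i - j)).add (VG_ch _ (2 * i - j))
    · exact VG_zero 0

end Pool.Agent.Helper5.MD
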