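import Pool.Agent.Helper5.MD.CritDefs
import Pool.Agent.Helper5.MD.C4Both
import Pool.Agent.Helper5.MD.D6Near
import Pool.Agent.Helper5.MD.D7Far

/-!
# MD-D8 : admissible indices satisfy the criterion

Take `G c d = 2 ^ (1 - 2 c' - 2 d') * ∑_(w = max c' d')^n UI c' w * (PP w)⁻¹ * LI w d'` with `c' = c + 1`, `d' = d + 1`.
* inverse: `M_[n] = 1/2 4^i (L P U) 4^j` and `U UI = 1`, `L LI = 1` (MD-C4; a left inverse of a square matrix is a right inverse).
* `G`: `near_G`, as `1 - s = -v(PS n)`.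
* `i ≥ n + 1` with `3 i < κ`: `∑_c M i c G c j = 2^(2i - 2j) ∑_w L i w LI w j`, use `near_X`; for `3 i ≥ κ` use `VG_bb`, `crude_G`: valuation
  `≥ 2 i - 2 j - (8 log2 κ + 16) ≥ 1` because `2 (i - j) ≥ 2 (κ/3 - κ/6) = κ/3` and `κ ≥ 800`.
* the same for the third and the fourth condition (`near_Y`, `near_S`, `PS_upper`): for `3 i ≥ κ` or `3 j ≥ κ`:
  `M i j - ∑ M i c G c d M d j` has valuation `≥ 2 i + 2 j - 1 - (8 log2 κ + 16) ≥ s + 1`, `s = v(PS n) + 1 ≤ 4 n + 5 log2 κ + 9`, since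
  `2 i + 2 j ≥ 2 κ / 3 + 2 n + 2` and `2 κ/3 - 2 n ≥ κ/3 ≥ 13 log2 κ + 26` for `κ ≥ 800`.
-/

open scoped Nat

namespace Pool.Agent.Helper5.MD

namespace D8

lemma sum_shift (n : ℕ) (F : ℕ → ℚ) :
    ∑ c ∈ Finset.range n, F (c + 1) = ∑ c ∈ Finset.Icc 1 n, F c := by
  induction n with
  | zero => simp
  | succ n ih => rw [Finset.sum_range_succ, ih, Finset.sum_Icc_succ_top (by omega)]

lemma sum_fin (N n : ℕ) (h : n ≤ N) (F : ℕ → ℚ) :
    (∑ c : Fin N, if c.val < n then F (c.val + 1) else 0) = ∑ c ∈ Finset.Icc 1 n, F c := by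
  rw [Fin.sum_univ_eq_sum_range (fun c => if c < n then F (c + 1) else 0) N, ← Finset.sum_filter]
  have : (Finset.range N).filter (fun c => c < n) = Finset.range n := by
    ext c
    simp only [Finset.mem_filter, Finset.mem_range]
    omega
  rw [this, sum_shift]

lemma log_bound (κ : ℕ) (h : 800 ≤ κ) : 3 * (13 * Nat.log 2 κ + 26) ≤ κ := by
  have hp : 2 ^ Nat.log 2 κ ≤ κ := Nat.pow_log_le_self 2 (by omega)
  by_cases hL : Nat.log 2 κ ≤ 9
  · omega
  · push Not at hL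
    have key : ∀ m : ℕ, 10 ≤ m → 3 * (13 * m + 26) ≤ 2 ^ m := by
      intro m hm
      induction m, hm using Nat.le_induction with
      | base => norm_num
      | succ m hm ih => rw [pow_succ]; omega
    exact (key _ hL).trans hp

lemma LL_zero (ε : Bool) (κ : ℚ) (i w : ℕ) (h : i < w) : LL ε κ i w = 0 := by
  unfold LL lam
  cases ε <;> simp [not_le.mpr h]

lemma LI_zero (ε : Bool) (κ : ℚ) (i w : ℕ) (h : i < w) : LI ε κ i w = 0 := by
  unfold LI lamInv
  cases ε <;> simp [not_le.mpr h]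

lemma UU_zero (ε : Bool) (κ : ℚ) (w j : ℕ) (h : j < w) : UU ε κ w j = 0 := by
  unfold UU mu
  cases ε <;> simp [not_le.mpr h]

lemma UI_zero (ε : Bool) (κ : ℚ) (j s : ℕ) (h : s < j) : UI ε κ j s = 0 := by
  unfold UI muInv
  cases ε <;> simp [not_le.mpr h]

lemma sum_eq_of_sub {s t : Finset ℕ} (F : ℕ → ℚ) (hst : s ⊆ t) (h : ∀ w ∈ t, w ∉ s → F w = 0) :
    ∑ w ∈ s, F w = ∑ w ∈ t, F w := Finset.sum_subset hst h

/-- from a left inverse to a right inverse -/
lemma inv_comm (n : ℕ) (A B : ℕ → ℕ → ℚ)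
    (h : ∀ i j, 1 ≤ i → i ≤ n → 1 ≤ j → j ≤ n →
      ∑ w ∈ Finset.Icc 1 n, A i w * B w j = if i = j then 1 else 0) :
    ∀ i j, 1 ≤ i → i ≤ n → 1 ≤ j → j ≤ n →
      ∑ w ∈ Finset.Icc 1 n, B i w * A w j = if i = j then 1 else 0 := by
  let MA : Matrix (Fin n) (Fin n) ℚ := Matrix.of fun i j => A (i.val + 1) (j.val + 1)
  let MB : Matrix (Fin n) (Fin n) ℚ := Matrix.of fun i j => B (i.val + 1) (j.val + 1)
  have hAB : MA * MB = 1 := by
    ext i j
    rw [Matrix.mul_apply, Matrix.one_apply]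
    have h1 := h (i.val + 1) (j.val + 1) (by omega) i.2 (by omega) j.2
    rw [← sum_shift, ← Fin.sum_univ_eq_sum_range (fun w => A (i.val + 1) (w + 1) * B (w + 1) (j.val + 1)) n] at h1
    refine h1.trans ?_
    by_cases hij : i = j
    · simp [hij]
    · have : i.val ≠ j.val := fun h => hij (Fin.ext h)
      simp [hij, this]
  have hBA : MB * MA = 1 := mul_eq_one_comm.mp hAB
  intro i j hi hin hj hjn
  have h2 := congrFun (congrFun hBA ⟨i - 1, by omega⟩) ⟨j - 1, by omega⟩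
  rw [Matrix.mul_apply, Matrix.one_apply] at h2
  have hi' : i - 1 + 1 = i := by omega
  have hj' : j - 1 + 1 = j := by omega
  have h3 : ∑ w : Fin n, B i (w.val + 1) * A (w.val + 1) j = if i = j then 1 else 0 := by
    have h4 : ∑ w : Fin n, B i (w.val + 1) * A (w.val + 1) j =
        ∑ w : Fin n, MB ⟨i - 1, by omega⟩ w * MA w ⟨j - 1, by omega⟩ := by
      refine Finset.sum_congr rfl fun w _ => ?_
      simp only [MA, MB, Matrix.of_apply, hi', hj']
    rw [h4, h2]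
    by_cases hij : i = j
    · simp [hij]
    · have : i - 1 ≠ j - 1 := by omega
      simp [hij, this]
  rw [← sum_shift, ← Fin.sum_univ_eq_sum_range (fun w => B i (w + 1) * A (w + 1) j) n]
  exact h3

section

variable (ε : Bool) (κ n : ℕ)

/-- the inverse block without the powers of two -/
noncomputable def S (c d : ℕ) : ℚ :=
  ∑ w ∈ Finset.Icc (max c d) n, UI ε κ c w * (PP ε κ w)⁻¹ * LI ε κ w d

lemma S_eq (c d : ℕ) (hc : 1 ≤ c) (hd : 1 ≤ d) :
    S ε κ n c d = ∑ w ∈ Finset.Icc 1 n, UI ε κ c w * (PP ε κ w)⁻¹ * LI ε κ w d := by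
  unfold S
  refine sum_eq_of_sub _ (Finset.Icc_subset_Icc (by omega) le_rfl) ?_
  intro w hw hw'
  simp only [Finset.mem_Icc, not_and, not_le] at hw hw'
  by_cases h : c ≤ w
  · have : w < d := by
      by_contra hcon
      push Not at hcon
      have := hw' (max_le h hcon)
      omega
    rw [LI_zero _ _ _ _ this, mul_zero]
  · rw [UI_zero _ _ _ _ (not_le.mp h)]
    ring

lemma LL_LI (h3 : 3 * n < κ) : ∀ i j, 1 ≤ i → i ≤ n → 1 ≤ j → j ≤ n →
    ∑ w ∈ Finset.Icc 1 n, LL ε κ i w * LI ε κ w j = if i = j then 1 else 0 := by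
  intro i j hi hin hj hjn
  by_cases hji : j ≤ i
  · rw [← LL_mul_LI ε κ i j hj hji (by omega)]
    symm
    refine sum_eq_of_sub _ (Finset.Icc_subset_Icc (by omega) (by omega)) ?_
    intro w hw hw'
    simp only [Finset.mem_Icc, not_and, not_le] at hw hw'
    by_cases h : j ≤ w
    · rw [LL_zero _ _ _ _ (hw' h), zero_mul]
    · rw [LI_zero _ _ _ _ (not_le.mp h), mul_zero]
  · rw [if_neg (by omega)]
    refine Finset.sum_eq_zero fun w hw => ?_
    by_cases h : j ≤ w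
    · rw [LL_zero _ _ _ _ (by omega), zero_mul]
    · rw [LI_zero _ _ _ _ (not_le.mp h), mul_zero]

lemma LI_LL (h3 : 3 * n < κ) : ∀ i j, 1 ≤ i → i ≤ n → 1 ≤ j → j ≤ n →
    ∑ w ∈ Finset.Icc 1 n, LI ε κ i w * LL ε κ w j = if i = j then 1 else 0 :=
  inv_comm n _ _ (LL_LI ε κ n h3)

lemma UI_UU (h3 : 3 * n < κ) : ∀ i j, 1 ≤ i → i ≤ n → 1 ≤ j → j ≤ n →
    ∑ w ∈ Finset.Icc 1 n, UI ε κ i w * UU ε κ w j = if i = j then 1 else 0 := by
  intro i j hi hin hj hjn
  by_cases hij : i ≤ j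
  · rw [← UI_mul_UU ε κ i j hi hij (by omega)]
    symm
    refine sum_eq_of_sub _ (Finset.Icc_subset_Icc (by omega) (by omega)) ?_
    intro w hw hw'
    simp only [Finset.mem_Icc, not_and, not_le] at hw hw'
    by_cases h : i ≤ w
    · rw [UU_zero _ _ _ _ (hw' h), mul_zero]
    · rw [UI_zero _ _ _ _ (not_le.mp h), zero_mul]
  · rw [if_neg (by omega)]
    refine Finset.sum_eq_zero fun w hw => ?_
    by_cases h : i ≤ w
    · rw [UU_zero _ _ _ _ (by omega), mul_zero]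
    · rw [UI_zero _ _ _ _ (not_le.mp h), zero_mul]

lemma UU_UI (h3 : 3 * n < κ) : ∀ i j, 1 ≤ i → i ≤ n → 1 ≤ j → j ≤ n →
    ∑ w ∈ Finset.Icc 1 n, UU ε κ i w * UI ε κ w j = if i = j then 1 else 0 :=
  inv_comm n _ _ (UI_UU ε κ n h3)

lemma PP_ne (h3 : 3 * n < κ) (w : ℕ) (hw : 1 ≤ w) (hwn : w ≤ n) : PP ε κ w ≠ 0 := by
  have := PS_ne_zero ε κ w hw (by omega)
  unfold PS at this
  exact right_ne_zero_of_mul this

lemma bb_row (i c : ℕ) (hi : 1 ≤ i) (hi3 : 3 * i < κ) (hc : 1 ≤ c) (hcn : c ≤ n)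
    (h3 : 3 * n < κ) :
    bb ε κ i c = ∑ v ∈ Finset.Icc 1 n, LL ε κ i v * PP ε κ v * UU ε κ v c := by
  rw [← LL_PP_UU ε κ i c hi hc hi3 (by omega)]
  refine sum_eq_of_sub _ (Finset.Icc_subset_Icc le_rfl (by omega)) ?_
  intro w hw hw'
  simp only [Finset.mem_Icc, not_and, not_le] at hw hw'
  have h := hw' hw.1
  rcases min_lt_iff.mp h with h | h
  · rw [LL_zero _ _ _ _ h]; ring
  · rw [UU_zero _ _ _ _ h]; ring

lemma bb_col (c j : ℕ) (hj : 1 ≤ j) (hj3 : 3 * j < κ) (hc : 1 ≤ c) (hcn : c ≤ n)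
    (h3 : 3 * n < κ) :
    bb ε κ c j = ∑ v ∈ Finset.Icc 1 n, LL ε κ c v * PP ε κ v * UU ε κ v j := by
  rw [← LL_PP_UU ε κ c j hc hj (by omega) hj3]
  refine sum_eq_of_sub _ (Finset.Icc_subset_Icc le_rfl (by omega)) ?_
  intro w hw hw'
  simp only [Finset.mem_Icc, not_and, not_le] at hw hw'
  have h := hw' hw.1
  rcases min_lt_iff.mp h with h | h
  · rw [LL_zero _ _ _ _ h]; ring
  · rw [UU_zero _ _ _ _ h]; ring

/-- rows times the inverse block -/
lemma row_S (h3 : 3 * n < κ) (i j : ℕ) (hi : 1 ≤ i) (hi3 : 3 * i < κ) (hj : 1 ≤ j)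
    (_ : j ≤ n) :
    ∑ c ∈ Finset.Icc 1 n, bb ε κ i c * S ε κ n c j =
      ∑ w ∈ Finset.Icc 1 n, LL ε κ i w * LI ε κ w j := by
  have e1 : ∀ c ∈ Finset.Icc 1 n, bb ε κ i c * S ε κ n c j =
      ∑ v ∈ Finset.Icc 1 n, ∑ w ∈ Finset.Icc 1 n,
        LL ε κ i v * PP ε κ v * ((PP ε κ w)⁻¹ * LI ε κ w j) * (UU ε κ v c * UI ε κ c w) := by
    intro c hc
    rw [Finset.mem_Icc] at hc
    rw [bb_row ε κ n i c hi hi3 hc.1 hc.2 h3, S_eq ε κ n c j hc.1 hj, Finset.sum_mul_sum]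
    refine Finset.sum_congr rfl fun v _ => Finset.sum_congr rfl fun w _ => ?_
    ring
  rw [Finset.sum_congr rfl e1, Finset.sum_comm]
  refine Finset.sum_congr rfl fun v hv => ?_
  rw [Finset.mem_Icc] at hv
  rw [Finset.sum_comm]
  have e2 : ∀ w ∈ Finset.Icc 1 n, ∑ c ∈ Finset.Icc 1 n,
      LL ε κ i v * PP ε κ v * ((PP ε κ w)⁻¹ * LI ε κ w j) * (UU ε κ v c * UI ε κ c w) =
      if v = w then LL ε κ i v * LI ε κ v j else 0 := by
    intro w hw
    rw [Finset.mem_Icc] at hw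
    rw [← Finset.mul_sum, UU_UI ε κ n h3 v w hv.1 hv.2 hw.1 hw.2]
    by_cases hvw : v = w
    · subst hvw
      rw [if_pos rfl, if_pos rfl]
      have := PP_ne ε κ n h3 v hv.1 hv.2
      field_simp
    · rw [if_neg hvw, if_neg hvw, mul_zero]
  rw [Finset.sum_congr rfl e2, Finset.sum_ite_eq, if_pos (Finset.mem_Icc.mpr hv)]

/-- the inverse block times columns -/
lemma S_col (h3 : 3 * n < κ) (i j : ℕ) (hi : 1 ≤ i) (hj : 1 ≤ j) (hj3 : 3 * j < κ) :
    ∑ c ∈ Finset.Icc 1 n, S ε κ n i c * bb ε κ c j =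
      ∑ w ∈ Finset.Icc 1 n, UI ε κ i w * UU ε κ w j := by
  have e1 : ∀ c ∈ Finset.Icc 1 n, S ε κ n i c * bb ε κ c j =
      ∑ w ∈ Finset.Icc 1 n, ∑ v ∈ Finset.Icc 1 n,
        UI ε κ i w * (PP ε κ w)⁻¹ * (PP ε κ v * UU ε κ v j) * (LI ε κ w c * LL ε κ c v) := by
    intro c hc
    rw [Finset.mem_Icc] at hc
    rw [bb_col ε κ n c j hj hj3 hc.1 hc.2 h3, S_eq ε κ n i c hi hc.1, Finset.sum_mul_sum]
    refine Finset.sum_congr rfl fun v _ => Finset.sum_congr rfl fun w _ => ?_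
    ring
  rw [Finset.sum_congr rfl e1, Finset.sum_comm]
  refine Finset.sum_congr rfl fun v hv => ?_
  rw [Finset.mem_Icc] at hv
  rw [Finset.sum_comm]
  have e2 : ∀ w ∈ Finset.Icc 1 n, ∑ c ∈ Finset.Icc 1 n,
      UI ε κ i v * (PP ε κ v)⁻¹ * (PP ε κ w * UU ε κ w j) * (LI ε κ v c * LL ε κ c w) =
      if v = w then UI ε κ i v * UU ε κ v j else 0 := by
    intro w hw
    rw [Finset.mem_Icc] at hw
    rw [← Finset.mul_sum, LI_LL ε κ n h3 v w hv.1 hv.2 hw.1 hw.2]
    by_cases hvw : v = w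
    · subst hvw
      rw [if_pos rfl, if_pos rfl]
      have := PP_ne ε κ n h3 v hv.1 hv.2
      field_simp
    · rw [if_neg hvw, if_neg hvw, mul_zero]
  rw [Finset.sum_congr rfl e2, Finset.sum_ite_eq, if_pos (Finset.mem_Icc.mpr hv)]

/-- rows times the inverse block times columns -/
lemma row_S_col (h3 : 3 * n < κ) (i j : ℕ) (hi : 1 ≤ i) (hi3 : 3 * i < κ) (hj : 1 ≤ j)
    (hj3 : 3 * j < κ) :
    ∑ c ∈ Finset.Icc 1 n, ∑ d ∈ Finset.Icc 1 n, bb ε κ i c * S ε κ n c d * bb ε κ d j =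
      ∑ w ∈ Finset.Icc 1 n, LL ε κ i w * PP ε κ w * UU ε κ w j := by
  have e1 : ∀ c ∈ Finset.Icc 1 n, ∑ d ∈ Finset.Icc 1 n, bb ε κ i c * S ε κ n c d * bb ε κ d j =
      ∑ w ∈ Finset.Icc 1 n, ∑ v ∈ Finset.Icc 1 n,
        LL ε κ i v * PP ε κ v * UU ε κ w j * (UU ε κ v c * UI ε κ c w) := by
    intro c hc
    rw [Finset.mem_Icc] at hc
    have e2 : ∑ d ∈ Finset.Icc 1 n, bb ε κ i c * S ε κ n c d * bb ε κ d j =
        bb ε κ i c * ∑ d ∈ Finset.Icc 1 n, S ε κ n c d * bb ε κ d j := by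
      rw [Finset.mul_sum]
      exact Finset.sum_congr rfl fun d _ => by ring
    rw [e2, S_col ε κ n h3 c j hc.1 hj hj3, bb_row ε κ n i c hi hi3 hc.1 hc.2 h3,
      Finset.sum_mul_sum, Finset.sum_comm]
    refine Finset.sum_congr rfl fun v _ => Finset.sum_congr rfl fun w _ => ?_
    ring
  rw [Finset.sum_congr rfl e1, Finset.sum_comm]
  refine Finset.sum_congr rfl fun w hw => ?_
  rw [Finset.mem_Icc] at hw
  rw [Finset.sum_comm]
  have e2 : ∀ v ∈ Finset.Icc 1 n, ∑ c ∈ Finset.Icc 1 n,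
      LL ε κ i v * PP ε κ v * UU ε κ w j * (UU ε κ v c * UI ε κ c w) =
      if w = v then LL ε κ i w * PP ε κ w * UU ε κ w j else 0 := by
    intro v hv
    rw [Finset.mem_Icc] at hv
    rw [← Finset.mul_sum, UU_UI ε κ n h3 v w hv.1 hv.2 hw.1 hw.2]
    by_cases hvw : v = w
    · subst hvw
      simp
    · rw [if_neg hvw, if_neg (fun h => hvw h.symm), mul_zero]
  rw [Finset.sum_congr rfl e2, Finset.sum_ite_eq, if_pos (Finset.mem_Icc.mpr hw)]

end

lemma two_zpow_mul (a b : ℤ) : (2 : ℚ) ^ a * 2 ^ b = 2 ^ (a + b) := by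
  rw [zpow_add₀ (by norm_num)]

end D8

open D8

theorem crit_of_adm (ε : Bool) (κ x0 n : ℕ) (hA : Adm ε κ x0 n) (hκ : 800 ≤ κ) :
    Crit (κ - 1) n (MAT ε κ) (padicValRat 2 (PS ε κ n) + 1) := by
  have hn1 : 1 ≤ n := hA.1
  have hn6 : 6 * n ≤ κ := hA.2.1
  have h3 : 3 * n < κ := by omega
  have hnN : n ≤ κ - 1 := by omega
  have hlog := log_bound κ hκ
  have hlog' : (3 * (13 * (Nat.log 2 κ : ℤ) + 26)) ≤ κ := by exact_mod_cast hlog
  have hn6' : 6 * (n : ℤ) ≤ κ := by exact_mod_cast hn6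
  have hS : ∀ c d : ℕ, 1 ≤ c → c ≤ n → 1 ≤ d → d ≤ n →
      VG (-(8 * Nat.log 2 κ + 16 : ℤ)) (S ε κ n c d) := fun c d h1 h2 h4 h5 =>
    crude_G ε κ n h3 c d h1 h2 h4 h5
  refine ⟨hnN, Matrix.of fun c d => 2 ^ (1 - 2 * ((c.val + 1 : ℕ) : ℤ) - 2 * ((d.val + 1 : ℕ) : ℤ)) *
    S ε κ n (c.val + 1) (d.val + 1), ?_, ?_, ?_, ?_, ?_⟩
  · intro i j hi hj
    have e1 : (∑ c : Fin (κ - 1), if c.val < n then MAT ε κ i c *
        (Matrix.of fun c d : Fin (κ - 1) =>
          (2 : ℚ) ^ (1 - 2 * ((c.val + 1 : ℕ) : ℤ) - 2 * ((d.val + 1 : ℕ) : ℤ)) *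
          S ε κ n (c.val + 1) (d.val + 1)) c j else 0) =
        ∑ c ∈ Finset.Icc 1 n, 2 ^ (2 * ((i.val + 1 : ℕ) : ℤ) - 2 * ((j.val + 1 : ℕ) : ℤ)) *
          (bb ε κ (i.val + 1) c * S ε κ n c (j.val + 1)) := by
      rw [← sum_fin (κ - 1) n hnN]
      refine Finset.sum_congr rfl fun c _ => ?_
      by_cases hc : c.val < n
      · rw [if_pos hc, if_pos hc]
        simp only [MAT, MM, Matrix.of_apply]
        rw [mul_mul_mul_comm, two_zpow_mul]
        congr 2
        ring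
      · rw [if_neg hc, if_neg hc]
    rw [e1, ← Finset.mul_sum, row_S ε κ n h3 _ _ (by omega) (by omega) (by omega) (by omega),
      LL_LI ε κ n h3 _ _ (by omega) (by omega) (by omega) (by omega)]
    by_cases hij : i = j
    · subst hij
      simp
    · have : i.val + 1 ≠ j.val + 1 := fun h => hij (Fin.ext (by omega))
      rw [if_neg this, if_neg hij, mul_zero]
  · intro i j hi hj
    have := near_G ε κ x0 n hA (i.val + 1) (j.val + 1) (by omega) (by omega) (by omega) (by omega) h3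
    refine VG.mono this ?_
    omega
  · intro i j hi hj
    have e1 : (∑ c : Fin (κ - 1), if c.val < n then MAT ε κ i c *
        (Matrix.of fun c d : Fin (κ - 1) =>
          (2 : ℚ) ^ (1 - 2 * ((c.val + 1 : ℕ) : ℤ) - 2 * ((d.val + 1 : ℕ) : ℤ)) *
          S ε κ n (c.val + 1) (d.val + 1)) c j else 0) =
        ∑ c ∈ Finset.Icc 1 n, 2 ^ (2 * ((i.val + 1 : ℕ) : ℤ) - 2 * ((j.val + 1 : ℕ) : ℤ)) *
          (bb ε κ (i.val + 1) c * S ε κ n c (j.val + 1)) := by
      rw [← sum_fin (κ - 1) n hnN]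
      refine Finset.sum_congr rfl fun c _ => ?_
      by_cases hc : c.val < n
      · rw [if_pos hc, if_pos hc]
        simp only [MAT, MM, Matrix.of_apply]
        rw [mul_mul_mul_comm, two_zpow_mul]
        congr 2
        ring
      · rw [if_neg hc, if_neg hc]
    rw [e1, ← Finset.mul_sum]
    by_cases hi3 : 3 * (i.val + 1) < κ
    · rw [row_S ε κ n h3 _ _ (by omega) hi3 (by omega) (by omega)]
      have e2 : ∑ w ∈ Finset.Icc 1 n, LL ε κ (i.val + 1) w * LI ε κ w (j.val + 1) =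
          ∑ w ∈ Finset.Icc (j.val + 1) n, LL ε κ (i.val + 1) w * LI ε κ w (j.val + 1) := by
        symm
        refine sum_eq_of_sub _ (Finset.Icc_subset_Icc (by omega) le_rfl) ?_
        intro w hw hw'
        simp only [Finset.mem_Icc, not_and, not_le] at hw hw'
        have h : w < j.val + 1 := by
          by_contra hcon
          have := hw' (not_lt.mp hcon)
          omega
        rw [LI_zero _ _ _ _ h, mul_zero]
      rw [e2]
      exact near_X ε κ x0 n hA (i.val + 1) (j.val + 1) (by omega) (by omega) (by omega) hi3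
    · have h1 : VG (-(8 * Nat.log 2 κ + 16 : ℤ))
          (∑ c ∈ Finset.Icc 1 n, bb ε κ (i.val + 1) c * S ε κ n c (j.val + 1)) := by
        refine VG_sum _ _ _ fun c hc => ?_
        rw [Finset.mem_Icc] at hc
        have := (VG_bb ε κ (i.val + 1) c).mul (hS c (j.val + 1) hc.1 hc.2 (by omega) (by omega))
        simpa using this
      refine VG.mono ((VG_two_zpow _).mul h1) ?_
      have hi3' : (κ : ℤ) ≤ 3 * ((i.val + 1 : ℕ) : ℤ) := by exact_mod_cast not_lt.mp hi3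
      have hj' : ((j.val + 1 : ℕ) : ℤ) ≤ n := by exact_mod_cast hj
      omega
  · intro i j hi hj
    have e1 : (∑ c : Fin (κ - 1), if c.val < n then
        (Matrix.of fun c d : Fin (κ - 1) =>
          (2 : ℚ) ^ (1 - 2 * ((c.val + 1 : ℕ) : ℤ) - 2 * ((d.val + 1 : ℕ) : ℤ)) *
          S ε κ n (c.val + 1) (d.val + 1)) i c * MAT ε κ c j else 0) =
        ∑ c ∈ Finset.Icc 1 n, 2 ^ (2 * ((j.val + 1 : ℕ) : ℤ) - 2 * ((i.val + 1 : ℕ) : ℤ)) *
          (S ε κ n (i.val + 1) c * bb ε κ c (j.val + 1)) := by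
      rw [← sum_fin (κ - 1) n hnN]
      refine Finset.sum_congr rfl fun c _ => ?_
      by_cases hc : c.val < n
      · rw [if_pos hc, if_pos hc]
        simp only [MAT, MM, Matrix.of_apply]
        rw [mul_mul_mul_comm, two_zpow_mul]
        congr 2
        ring
      · rw [if_neg hc, if_neg hc]
    rw [e1, ← Finset.mul_sum]
    by_cases hj3 : 3 * (j.val + 1) < κ
    · rw [S_col ε κ n h3 _ _ (by omega) (by omega) hj3]
      have e2 : ∑ w ∈ Finset.Icc 1 n, UI ε κ (i.val + 1) w * UU ε κ w (j.val + 1) =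
          ∑ w ∈ Finset.Icc (i.val + 1) n, UI ε κ (i.val + 1) w * UU ε κ w (j.val + 1) := by
        symm
        refine sum_eq_of_sub _ (Finset.Icc_subset_Icc (by omega) le_rfl) ?_
        intro w hw hw'
        simp only [Finset.mem_Icc, not_and, not_le] at hw hw'
        have h : w < i.val + 1 := by
          by_contra hcon
          have := hw' (not_lt.mp hcon)
          omega
        rw [UI_zero _ _ _ _ h, zero_mul]
      rw [e2]
      exact near_Y ε κ x0 n hA (i.val + 1) (j.val + 1) (by omega) (by omega) (by omega) hj3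
    · have h1 : VG (-(8 * Nat.log 2 κ + 16 : ℤ))
          (∑ c ∈ Finset.Icc 1 n, S ε κ n (i.val + 1) c * bb ε κ c (j.val + 1)) := by
        refine VG_sum _ _ _ fun c hc => ?_
        rw [Finset.mem_Icc] at hc
        have := (hS (i.val + 1) c (by omega) (by omega) hc.1 hc.2).mul (VG_bb ε κ c (j.val + 1))
        simpa using this
      refine VG.mono ((VG_two_zpow _).mul h1) ?_
      have hj3' : (κ : ℤ) ≤ 3 * ((j.val + 1 : ℕ) : ℤ) := by exact_mod_cast not_lt.mp hj3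
      have hi' : ((i.val + 1 : ℕ) : ℤ) ≤ n := by exact_mod_cast hi
      omega
  · intro i j hi hj
    have e1 : (MAT ε κ i j - ∑ c : Fin (κ - 1), ∑ d : Fin (κ - 1),
        if c.val < n ∧ d.val < n then MAT ε κ i c *
        (Matrix.of fun c d : Fin (κ - 1) =>
          (2 : ℚ) ^ (1 - 2 * ((c.val + 1 : ℕ) : ℤ) - 2 * ((d.val + 1 : ℕ) : ℤ)) *
          S ε κ n (c.val + 1) (d.val + 1)) c d * MAT ε κ d j else 0) =
        2 ^ (2 * ((i.val + 1 : ℕ) : ℤ) + 2 * ((j.val + 1 : ℕ) : ℤ) - 1) *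
          (bb ε κ (i.val + 1) (j.val + 1) - ∑ c ∈ Finset.Icc 1 n, ∑ d ∈ Finset.Icc 1 n,
          bb ε κ (i.val + 1) c * S ε κ n c d * bb ε κ d (j.val + 1)) := by
      rw [mul_sub, Finset.mul_sum]
      congr 1
      rw [← sum_fin (κ - 1) n hnN]
      refine Finset.sum_congr rfl fun c _ => ?_
      by_cases hc : c.val < n
      · rw [if_pos hc, Finset.mul_sum, ← sum_fin (κ - 1) n hnN]
        refine Finset.sum_congr rfl fun d _ => ?_
        by_cases hd : d.val < n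
        · rw [if_pos ⟨hc, hd⟩, if_pos hd]
          simp only [MAT, MM, Matrix.of_apply]
          have key : ∀ (a b c' x y z : ℚ), a * x * (b * y) * (c' * z) = (a * b * c') * (x * y * z) :=
            fun a b c' x y z => by ring
          rw [key, two_zpow_mul, two_zpow_mul]
          congr 2
          ring
        · rw [if_neg (fun h => hd h.2), if_neg hd]
      · rw [if_neg hc]
        refine Finset.sum_eq_zero fun d _ => ?_
        rw [if_neg (fun h => hc h.1)]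
    rw [e1]
    have hlow : VG (padicValRat 2 (PS ε κ n) + 2)
        (2 ^ (2 * ((i.val + 1 : ℕ) : ℤ) + 2 * ((j.val + 1 : ℕ) : ℤ) - 1) *
          (bb ε κ (i.val + 1) (j.val + 1) - ∑ c ∈ Finset.Icc 1 n, ∑ d ∈ Finset.Icc 1 n,
          bb ε κ (i.val + 1) c * S ε κ n c d * bb ε κ d (j.val + 1))) := by
      by_cases hb : 3 * (i.val + 1) < κ ∧ 3 * (j.val + 1) < κ
      · obtain ⟨hi3, hj3⟩ := hb
        rw [row_S_col ε κ n h3 _ _ (by omega) hi3 (by omega) hj3,
          ← LL_PP_UU ε κ (i.val + 1) (j.val + 1) (by omega) (by omega) hi3 hj3]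
        have hmin : n ≤ min (i.val + 1) (j.val + 1) := by omega
        have e3 : ∀ F : ℕ → ℚ, ∑ w ∈ Finset.Icc 1 (min (i.val + 1) (j.val + 1)), F w =
            ∑ w ∈ Finset.Icc 1 n, F w +
              ∑ w ∈ Finset.Icc (n + 1) (min (i.val + 1) (j.val + 1)), F w := by
          intro F
          rw [← Finset.sum_union]
          · congr 1
            ext w
            simp only [Finset.mem_Icc, Finset.mem_union]
            omega
          · rw [Finset.disjoint_left]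
            intro w hw hw'
            rw [Finset.mem_Icc] at hw hw'
            omega
        rw [e3, add_sub_cancel_left]
        exact near_S ε κ x0 n hA (i.val + 1) (j.val + 1) (by omega) (by omega) hi3 hj3
      · have hPS := PS_upper ε κ n hn1 h3
        have h1 : VG (-(8 * Nat.log 2 κ + 16 : ℤ))
            (bb ε κ (i.val + 1) (j.val + 1) - ∑ c ∈ Finset.Icc 1 n, ∑ d ∈ Finset.Icc 1 n,
            bb ε κ (i.val + 1) c * S ε κ n c d * bb ε κ d (j.val + 1)) := by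
          refine VG.sub ((VG_bb ε κ _ _).mono (by omega)) ?_
          refine VG_sum _ _ _ fun c hc => VG_sum _ _ _ fun d hd => ?_
          rw [Finset.mem_Icc] at hc hd
          have := ((VG_bb ε κ (i.val + 1) c).mul (hS c d hc.1 hc.2 hd.1 hd.2)).mul
            (VG_bb ε κ d (j.val + 1))
          simpa using this
        refine VG.mono ((VG_two_zpow _).mul h1) ?_
        have hi' : (n : ℤ) + 1 ≤ ((i.val + 1 : ℕ) : ℤ) := by exact_mod_cast Nat.succ_le_succ hi
        have hj' : (n : ℤ) + 1 ≤ ((j.val + 1 : ℕ) : ℤ) := by exact_mod_cast Nat.succ_le_succ hj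
        have hor : (κ : ℤ) ≤ 3 * ((i.val + 1 : ℕ) : ℤ) ∨ (κ : ℤ) ≤ 3 * ((j.val + 1 : ℕ) : ℤ) := by
          by_cases h : 3 * (i.val + 1) < κ
          · right
            have : ¬ 3 * (j.val + 1) < κ := fun h' => hb ⟨h, h'⟩
            exact_mod_cast not_lt.mp this
          · left
            exact_mod_cast not_lt.mp h
        rcases hor with h | h <;> omega
    refine VG.mono hlow ?_
    omega


end Pool.Agent.Helper5.MD
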