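import Mathlib

/-!
# The explicit `2`-adic matrix of `U_2` and its `LU` decomposition: definitions

`κ` is a natural number (used as a rational number), the weight is `k = 4 κ` (`ε = false`)
or `k = 4 κ + 2` (`ε = true`).  Indices `i, j, w, s` are natural numbers `≥ 1`.
All closed formulas below are only used for indices `i` with `3 i < κ`.
-/

open scoped Nat

namespace Pool.Agent.Helper5.MD

/-- generalized binomial coefficient `x (x-1) ... (x-n+1) / n!` -/
noncomputable def ch (x : ℚ) (n : ℕ) : ℚ := (∏ i ∈ Finset.range n, (x - i)) / (n ! : ℚ)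

/-- the matrix for `k = 4 κ` -/
noncomputable def b1 (κ : ℚ) (i j : ℕ) : ℚ :=
  if j ≤ 2 * i then ch (i + j - κ) (2 * i - j) + ch (i + j - κ - 1) (2 * i - j) else 0

/-- the matrix for `k = 4 κ + 2` -/
noncomputable def b2 (κ : ℚ) (i j : ℕ) : ℚ :=
  if j < 2 * i then 2 * (ch (i + j - κ) (2 * i - j) + ch (i + j - κ - 1) (2 * i - j - 1))
  else if j = 2 * i then 2 else 0

/-- `b1` or `b2` -/
noncomputable def bb (ε : Bool) (κ : ℚ) (i j : ℕ) : ℚ := if ε then b2 κ i j else b1 κ i j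

/-- lower triangular factor (case `ε = false`), row `i`, column `w` -/
noncomputable def lam (κ : ℚ) (i w : ℕ) : ℚ :=
  if w ≤ i then ∏ v ∈ Finset.Ico w i,
    ((κ - 2 * w + v) * (κ - 2 * w - v) * (κ - v - 1) /
      (2 * (v - w + 1) * (2 * v + 1) * (κ - w - v - 1))) else 0

/-- upper triangular factor (case `ε = false`), row `w`, column `j` -/
noncomputable def mu (κ : ℚ) (w j : ℕ) : ℚ :=
  if w ≤ j then (2 * κ - 3 * j) / (2 * κ - 3 * w) * ∏ v ∈ Finset.Ico w j,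
    (-(v + 1) * (2 * w - v) * (2 * κ - 2 * w - v) /
      (2 * (2 * κ - 2 * v - 1) * (v - w + 1) * (κ - w - v - 1))) else 0

/-- inverse of `lam`, row `i`, column `j` -/
noncomputable def lamInv (κ : ℚ) (i j : ℕ) : ℚ :=
  if j ≤ i then (κ - j) * (κ - 3 * j) / ((κ - i) * (κ - 3 * i)) * ∏ v ∈ Finset.Ico j i,
    (-(κ - v - 1) * (κ - 2 * i + v + 1) * (κ - 2 * i - v - 1) /
      (2 * (2 * v + 1) * (i - v) * (κ - v - i))) else 0

/-- inverse of `mu`, row `j`, column `s` -/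
noncomputable def muInv (κ : ℚ) (j s : ℕ) : ℚ :=
  if j ≤ s then ∏ v ∈ Finset.Ico j s,
    (v * (2 * s - v - 1) * (2 * κ - 2 * s - v - 1) /
      (2 * (2 * κ - 2 * v - 1) * (s - v) * (κ - s - v))) else 0

/-- pivots (case `ε = false`) -/
noncomputable def pv (κ : ℚ) (w : ℕ) : ℚ :=
  (3 - 2 * κ) * ∏ v ∈ Finset.Ico 1 w,
    (-(κ - 3 * v) * (κ - 3 * v - 1) * (κ - 3 * v - 2) *
      (2 * κ - 3 * v - 1) * (2 * κ - 3 * v - 2) * (2 * κ - 3 * v - 3) /
      (4 * (2 * v + 1) * (2 * κ - 2 * v - 1) * (κ - 2 * v) * (κ - 2 * v - 1) ^ 2 *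
        (κ - 2 * v - 2)))

/-- lower triangular factor, both cases -/
noncomputable def LL (ε : Bool) (κ : ℚ) (i w : ℕ) : ℚ :=
  if ε then lam κ i w * ((κ - 3 * i) / (κ - 3 * w)) else lam κ i w

/-- upper triangular factor, both cases -/
noncomputable def UU (ε : Bool) (κ : ℚ) (w j : ℕ) : ℚ :=
  if ε then mu κ w j * ((2 * κ - 3 * w) / (2 * κ - 3 * j)) else mu κ w j

/-- inverse of the lower triangular factor, both cases -/
noncomputable def LI (ε : Bool) (κ : ℚ) (i j : ℕ) : ℚ :=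
  if ε then lamInv κ i j * ((κ - 3 * i) / (κ - 3 * j)) else lamInv κ i j

/-- inverse of the upper triangular factor, both cases -/
noncomputable def UI (ε : Bool) (κ : ℚ) (j s : ℕ) : ℚ :=
  if ε then muInv κ j s * ((2 * κ - 3 * j) / (2 * κ - 3 * s)) else muInv κ j s

/-- pivots, both cases -/
noncomputable def PP (ε : Bool) (κ : ℚ) (w : ℕ) : ℚ :=
  if ε then pv κ w * ((6 * w - 2 * κ) / (3 * w - 2 * κ)) else pv κ w

/-- scaled pivots -/
noncomputable def PS (ε : Bool) (κ : ℚ) (w : ℕ) : ℚ := 2 ^ (4 * (w : ℤ) - 1) * PP ε κ w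

/-- entries of the scaled matrix `M` (indices `1, ..., κ - 1`) -/
noncomputable def MM (ε : Bool) (κ : ℚ) (i j : ℕ) : ℚ :=
  2 ^ (2 * (i : ℤ) + 2 * j - 1) * bb ε κ i j

/-- entries of the matrix of `U_2` in the basis `E^κ f^j` resp. `H E^κ f^j` -/
noncomputable def aa (ε : Bool) (κ : ℚ) (i j : ℕ) : ℚ :=
  2 ^ (8 * (i : ℤ) - 4 * j - 1) * bb ε κ i j

/-- `VG m q`: the `2`-adic valuation of the rational number `q` is at least `m` -/
def VG (m : ℤ) (q : ℚ) : Prop := q = 0 ∨ m ≤ padicValRat 2 q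

/-- `2`-adic valuation of the binomial coefficient `n choose r` -/
def vC (n r : ℕ) : ℕ := padicValNat 2 (n.choose r)

/-- `2`-adic valuation of `n!` -/
def vf (n : ℕ) : ℕ := padicValNat 2 (n !)

/-- the contribution of the numerators to the pivot ratio `P_(w+e) / P_w` -/
def eta (ε : Bool) (κ w e : ℕ) : ℕ :=
  if ε then vC (κ - 3 * w - 1) (3 * e) + vC (2 * κ - 3 * w) (3 * e)
  else vC (κ - 3 * w) (3 * e) + vC (2 * κ - 3 * w - 1) (3 * e)

/-- `x` is in a good position: residue class mod `128` and not close to a multiple of a high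
power of `2` -/
def Good (x0 x : ℕ) : Prop :=
  x % 128 = x0 ∧ ∀ m : ℕ, 1 ≤ m → 4 * padicValNat 2 m ≤ 12 + ((m : ℤ) - x).natAbs

/-- `n` is an admissible index for `(ε, κ)` -/
def Adm (ε : Bool) (κ x0 n : ℕ) : Prop :=
  1 ≤ n ∧ 6 * n ≤ κ ∧ Good x0 (κ - 2 * n) ∧
    (x0 = 84 ∨ ((x0 = 43 ∨ x0 = 85) ∧ (n % 2 = if ε then 0 else 1)))

end Pool.Agent.Helper5.MD
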