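import Pool.Agent.Helper5.MD.VBinom

/-!
# MD-V1 : `2`-adic size of `LL`

Exact identity (`t = i - w`, natural number binomials), by induction on `i`:
`lam κ i w * (∏_(v=w)^(i-1) (2 v + 1)) * C(κ - 2 w - 1, t) = (2 t - 1)!! * C(κ - w + t - 1, 2 t) * C(κ - 3 w, t)`,
so `lam κ i w * odd * C(κ - 2 w - 1, t)` is an integer.  In case `ε = true` replace the last binomial by
`(κ - 3 w - 3 t) / (κ - 3 w) * C(κ - 3 w, t) = (κ - 3 w - 3 t) / t * C(κ - 3 w - 1, t - 1) = C(κ - 3 w, t) - 3 C(κ - 3 w - 1, t - 1)` (`t ≥ 1`), again an integer.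
-/

open scoped Nat

namespace Pool.Agent.Helper5.MD


theorem lam_prod (κ w t c : ℕ) (hκ : κ = 3 * (w + t) + c + 1) :
    lam κ (w + t) w * (2 ^ t * (t ! : ℕ) * ((∏ a ∈ Finset.range t, (2 * (w + a) + 1) : ℕ) : ℚ) *
      ((t ! : ℕ) * ((w + 3 * t + c).choose t : ℕ))) =
      ((2 * t)! : ℕ) * ((2 * w + 3 * t + c + t).choose (2 * t) : ℕ) *
        ((t ! : ℕ) * ((3 * t + c + 1).choose t : ℕ)) := by
  unfold lam
  rw [if_pos (Nat.le_add_right w t), Finset.prod_Ico_eq_prod_range, Nat.add_sub_cancel_left]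
  have e1 := prod_sym (2 * w + 3 * t + c) t
  have e2 := prod_desc (3 * t + c + 1) t
  have e3 := prod_desc (w + 3 * t + c) t
  have e4 := prod_fact t
  have e5 : (2 : ℚ) ^ t = ∏ _a ∈ Finset.range t, (2 : ℚ) := by
    rw [Finset.prod_const, Finset.card_range]
  rw [← e1, ← e2, ← e3, ← e4, e5]
  push_cast
  simp only [← Finset.prod_mul_distrib]
  apply Finset.prod_congr rfl
  intro a ha
  have hat : a < t := Finset.mem_range.1 ha
  have h1 : ((κ : ℕ) : ℚ) = 3 * (w + t) + c + 1 := by rw [hκ]; push_cast; ring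
  rw [h1]
  have hd1 : (w : ℚ) + 3 * t + c - a ≠ 0 := by
    have : (a : ℚ) < t := by exact_mod_cast hat
    have h0 : (0 : ℚ) ≤ w := by positivity
    have h2 : (0 : ℚ) ≤ c := by positivity
    have h3 : (0 : ℚ) ≤ t := by positivity
    intro h
    linarith
  have hd2 : (2 : ℚ) * (w + a) + 1 ≠ 0 := by positivity
  have hd3 : (a : ℚ) + 1 ≠ 0 := by positivity
  have hden : (2 : ℚ) * ((w : ℚ) + a - w + 1) * (2 * (w + a) + 1) *
      (3 * ((w : ℚ) + t) + c + 1 - w - (w + a) - 1) ≠ 0 := by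
    have r1 : (w : ℚ) + a - w + 1 = a + 1 := by ring
    have r2 : 3 * ((w : ℚ) + t) + c + 1 - w - (w + a) - 1 = w + 3 * t + c - a := by ring
    rw [r1, r2]
    exact mul_ne_zero (mul_ne_zero (mul_ne_zero two_ne_zero hd3) hd2) hd1
  rw [div_mul_eq_mul_div, div_eq_iff hden]
  ring

theorem VG_LL (ε : Bool) (κ i w : ℕ) (hw : 1 ≤ w) (hwi : w ≤ i) (hi : 3 * i < κ) :
    VG (-(vC (κ - 2 * w - 1) (i - w) : ℤ)) (LL ε κ i w) := by
  obtain ⟨t, rfl⟩ := Nat.exists_eq_add_of_le hwi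
  obtain ⟨c, hc⟩ : ∃ c, κ = 3 * (w + t) + c + 1 := ⟨κ - 3 * (w + t) - 1, by omega⟩
  have hP := lam_prod κ w t c hc
  have hO : Odd (∏ a ∈ Finset.range t, (2 * (w + a) + 1)) :=
    odd_prod _ _ fun a _ => ⟨w + a, rfl⟩
  have hC0 : (w + 3 * t + c).choose t ≠ 0 := (Nat.choose_pos (by omega)).ne'
  have hn0 : κ - 2 * w - 1 = w + 3 * t + c := by omega
  unfold vC
  rw [hn0, Nat.add_sub_cancel_left]
  cases ε with
  | false =>
    refine VG_core t _ 1 ((3 * t + c + 1).choose t : ℕ) ((2 * w + 3 * t + c + t).choose (2 * t))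
      _ _ hO hC0 ?_
    simp only [LL, Bool.false_eq_true, if_false]
    rw [hP]
    push_cast
    ring
  | true =>
    obtain ⟨z, hz⟩ := frac_int (3 * t + c + 1) t (by omega) (-3)
    refine VG_core t _ 1 z ((2 * w + 3 * t + c + t).choose (2 * t)) _ _ hO hC0 ?_
    simp only [LL, if_true]
    rw [← hz]
    have h1 : ((κ : ℕ) : ℚ) = 3 * (w + t) + c + 1 := by rw [hc]; push_cast; ring
    have h2 : ((κ : ℚ) - 3 * ((w + t : ℕ) : ℚ)) / (κ - 3 * w) =
        (((3 * t + c + 1 : ℕ) : ℚ) + ((-3 : ℤ) : ℚ) * t) / ((3 * t + c + 1 : ℕ) : ℚ) := by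
      rw [h1]; push_cast; congr 1 <;> ring
    rw [h2, mul_right_comm, hP]
    push_cast
    ring


end Pool.Agent.Helper5.MD
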