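import Pool.Agent.Helper5.MD.VGBasic

/-! Common lemmas for V1 - V4: products of consecutive numbers and binomial coefficients. -/

open scoped Nat

namespace Pool.Agent.Helper5.MD

open Finset

/-- the odd double factorial -/
def dfo (t : ℕ) : ℕ := ∏ a ∈ range t, (2 * a + 1)

theorem two_mul_fact (t : ℕ) : (2 * t)! = 2 ^ t * t ! * dfo t := by
  induction t with
  | zero => simp [dfo]
  | succ t ih =>
    have h1 : (2 * (t + 1))! = (2 * t + 2) * ((2 * t + 1) * (2 * t)!) := by
      rw [show 2 * (t + 1) = (2 * t + 1) + 1 by ring, Nat.factorial_succ, Nat.factorial_succ]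
    have h2 : dfo (t + 1) = dfo t * (2 * t + 1) := by
      unfold dfo; rw [prod_range_succ]
    rw [h1, ih, h2, Nat.factorial_succ, pow_succ]
    ring

theorem ch_succ (n k : ℕ) :
    ((n.choose (k + 1) : ℕ) : ℚ) * (k + 1) = (n.choose k : ℕ) * ((n : ℚ) - k) := by
  have h := Nat.choose_succ_right_eq n k
  by_cases hk : k ≤ n
  · have h' : ((n.choose (k + 1) * (k + 1) : ℕ) : ℚ) = ((n.choose k * (n - k) : ℕ) : ℚ) := by
      rw [h]
    push_cast [Nat.cast_sub hk] at h'
    exact h'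
  · push Not at hk
    rw [Nat.choose_eq_zero_of_lt hk, Nat.choose_eq_zero_of_lt (by omega)]
    simp

theorem ch_succ_succ (n k : ℕ) :
    (((n + 1).choose (k + 1) : ℕ) : ℚ) * (k + 1) = (n + 1) * (n.choose k : ℕ) := by
  have h := Nat.add_one_mul_choose_eq n k
  have h' : (((n + 1) * n.choose k : ℕ) : ℚ) = (((n + 1).choose (k + 1) * (k + 1) : ℕ) : ℚ) := by
    rw [h]
  push_cast at h'
  rw [h']

theorem prod_desc (n t : ℕ) :
    ∏ a ∈ range t, ((n : ℚ) - a) = (t ! : ℕ) * (n.choose t : ℕ) := by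
  induction t with
  | zero => simp
  | succ t ih =>
    rw [prod_range_succ, ih, Nat.factorial_succ]
    have h := ch_succ n t
    push_cast
    linear_combination (-(t ! : ℚ)) * h

theorem prod_asc (n t : ℕ) :
    ∏ a ∈ range t, ((n : ℚ) + 1 + a) = (t ! : ℕ) * ((n + t).choose t : ℕ) := by
  induction t with
  | zero => simp
  | succ t ih =>
    rw [prod_range_succ, ih, Nat.factorial_succ]
    have h := ch_succ_succ (n + t) t
    rw [show n + (t + 1) = n + t + 1 by ring]
    push_cast at h ⊢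
    linear_combination (-(t ! : ℚ)) * h

theorem prod_sym (n t : ℕ) :
    ∏ a ∈ range t, (((n : ℚ) + 1 + a) * ((n : ℚ) - a)) =
      ((2 * t)! : ℕ) * ((n + t).choose (2 * t) : ℕ) := by
  induction t with
  | zero => simp
  | succ t ih =>
    rw [prod_range_succ, ih]
    have h1 := ch_succ (n + t) (2 * t)
    have h2 := ch_succ_succ (n + t) (2 * t + 1)
    have h3 : (2 * (t + 1))! = (2 * t + 2) * ((2 * t + 1) * (2 * t)!) := by
      rw [show 2 * (t + 1) = (2 * t + 1) + 1 by ring, Nat.factorial_succ, Nat.factorial_succ]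
    rw [h3, show n + (t + 1) = n + t + 1 by ring, show 2 * (t + 1) = 2 * t + 1 + 1 by ring]
    push_cast at h1 h2 ⊢
    linear_combination (-((2 * t)! : ℚ) * (n + t + 1)) * h1 - ((2 * t)! : ℚ) * (2 * t + 1) * h2

theorem prod_fact (t : ℕ) : ∏ a ∈ range t, ((a : ℚ) + 1) = (t ! : ℕ) := by
  induction t with
  | zero => simp
  | succ t ih =>
    rw [prod_range_succ, ih, Nat.factorial_succ]
    push_cast
    ring

/-- `C(n,t) (n + c t) / n` is an integer -/
theorem frac_int (n t : ℕ) (hn : 0 < n) (c : ℤ) :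
    ∃ z : ℤ, ((n.choose t : ℕ) : ℚ) * (((n : ℚ) + c * t) / n) = z := by
  have hn0 : (n : ℚ) ≠ 0 := by exact_mod_cast hn.ne'
  cases t with
  | zero =>
    refine ⟨1, ?_⟩
    simp [hn0]
  | succ t =>
    obtain ⟨m, rfl⟩ : ∃ m, n = m + 1 := ⟨n - 1, by omega⟩
    refine ⟨((m + 1).choose (t + 1) : ℕ) + c * (m.choose t : ℕ), ?_⟩
    have h := ch_succ_succ m t
    rw [mul_div_assoc', div_eq_iff hn0]
    push_cast at h ⊢
    linear_combination (c : ℚ) * h

theorem odd_prod {ι : Type*} (s : Finset ι) (f : ι → ℕ) (h : ∀ i ∈ s, Odd (f i)) :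
    Odd (∏ i ∈ s, f i) := by
  classical
  induction s using Finset.induction_on with
  | empty => simp
  | insert a s ha ih =>
    rw [prod_insert ha]
    exact (h a (mem_insert_self _ _)).mul (ih fun i hi => h i (mem_insert_of_mem hi))

/-- shift of a product of consecutive numbers -/
theorem prod_shift (y : ℚ) (t : ℕ) :
    (∏ a ∈ range t, (y + a)) * (y + t) = y * ∏ a ∈ range t, (y + 1 + a) := by
  induction t with
  | zero => simp
  | succ t ih =>
    rw [prod_range_succ, prod_range_succ, ih]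
    push_cast
    ring

theorem ch_shift (c t : ℕ) : (((c + t).choose t : ℕ) : ℚ) / (c + 1) =
    ((c + 1 + t).choose t : ℕ) / ((c + 1 + t : ℕ) : ℚ) := by
  have h1 := ch_succ_succ (c + t) t
  have h2 := ch_succ (c + t + 1) t
  have hc : (c : ℚ) + 1 ≠ 0 := by positivity
  have hct : ((c + 1 + t : ℕ) : ℚ) ≠ 0 := by positivity
  rw [show c + 1 + t = c + t + 1 by ring] at hct ⊢
  rw [div_eq_div_iff hc hct]
  push_cast at h1 h2 ⊢
  linear_combination h2 - h1

/-- the conclusion from the exact identity -/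
theorem VG_core (t : ℕ) (q : ℚ) (s z : ℤ) (C1 O C0 : ℕ) (hO : Odd O) (hC0 : C0 ≠ 0)
    (hq : q * (2 ^ t * (t ! : ℕ) * (O : ℚ) * ((t ! : ℕ) * (C0 : ℚ))) =
      s * ((2 * t)! : ℕ) * C1 * ((t ! : ℕ) * z)) :
    VG (-(padicValNat 2 C0 : ℤ)) q := by
  have hf : ((t ! : ℕ) : ℚ) ≠ 0 := by exact_mod_cast (Nat.factorial_pos t).ne'
  have h2 : (2 : ℚ) ^ t ≠ 0 := by positivity
  have hO0 : (O : ℚ) ≠ 0 := by
    have : O ≠ 0 := by rintro rfl; exact absurd hO (by decide)
    exact_mod_cast this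
  have hC0' : (C0 : ℚ) ≠ 0 := by exact_mod_cast hC0
  have hint : q * (O : ℚ) * (C0 : ℚ) = ((s * (dfo t : ℕ) * (C1 : ℕ) * z : ℤ) : ℚ) := by
    rw [two_mul_fact] at hq
    push_cast at hq ⊢
    have hne : (2 : ℚ) ^ t * (t ! : ℕ) * (t ! : ℕ) ≠ 0 := mul_ne_zero (mul_ne_zero h2 hf) hf
    apply mul_left_cancel₀ hne
    linear_combination hq
  by_cases hq0 : q = 0
  · left; exact hq0
  right
  have hval : 0 ≤ padicValRat 2 (q * (O : ℚ) * (C0 : ℚ)) := by
    rw [hint, padicValRat.of_int]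
    positivity
  have e1 : padicValRat 2 (O : ℚ) = (padicValNat 2 O : ℤ) := padicValRat.of_nat
  have e2 : padicValRat 2 (C0 : ℚ) = (padicValNat 2 C0 : ℤ) := padicValRat.of_nat
  rw [padicValRat.mul (mul_ne_zero hq0 hO0) hC0', padicValRat.mul hq0 hO0, e1, e2] at hval
  have hOv : padicValNat 2 O = 0 := by
    apply padicValNat.eq_zero_of_not_dvd
    intro h
    obtain ⟨k, hk⟩ := hO
    omega
  rw [hOv] at hval
  push_cast at hval
  linarith

end Pool.Agent.Helper5.MD
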