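import Pool.Agent.Helper5.MD.Defs

/-! Basic API for `VG`. -/

namespace Pool.Agent.Helper5.MD

theorem VG_zero (m : ℤ) : VG m 0 := Or.inl rfl

theorem VG.mono {m m' : ℤ} {q : ℚ} (h : VG m q) (hm : m' ≤ m) : VG m' q :=
  h.imp id fun h => hm.trans h

theorem VG.neg {m : ℤ} {q : ℚ} (h : VG m q) : VG m (-q) := by
  rcases h with h | h
  · left; simp [h]
  · right; simpa [padicValRat.neg] using h

theorem VG.mul {m m' : ℤ} {q r : ℚ} (h : VG m q) (h' : VG m' r) : VG (m + m') (q * r) := by
  rcases h with h | h
  · left; simp [h]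
  rcases h' with h' | h'
  · left; simp [h']
  by_cases hq : q = 0
  · left; simp [hq]
  by_cases hr : r = 0
  · left; simp [hr]
  right
  rw [padicValRat.mul hq hr]
  omega

theorem VG.add {m : ℤ} {q r : ℚ} (h : VG m q) (h' : VG m r) : VG m (q + r) := by
  by_cases hs : q + r = 0
  · left; exact hs
  right
  rcases h with h | h
  · rcases h' with h' | h'
    · exact absurd (by simp [h, h']) hs
    · simpa [h] using h'
  rcases h' with h' | h'
  · simpa [h'] using h
  exact le_trans (le_min h h') (padicValRat.min_le_padicValRat_add hs)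

theorem VG.sub {m : ℤ} {q r : ℚ} (h : VG m q) (h' : VG m r) : VG m (q - r) := by
  rw [sub_eq_add_neg]; exact h.add h'.neg

theorem VG_sum {ι : Type*} (S : Finset ι) (f : ι → ℚ) (m : ℤ) (h : ∀ i ∈ S, VG m (f i)) :
    VG m (∑ i ∈ S, f i) := by
  classical
  induction S using Finset.induction_on with
  | empty => simpa using VG_zero m
  | insert a S ha ih =>
    rw [Finset.sum_insert ha]
    exact (h a (Finset.mem_insert_self _ _)).add
      (ih fun i hi => h i (Finset.mem_insert_of_mem hi))

theorem VG_int (z : ℤ) : VG 0 (z : ℚ) := by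
  right
  rw [padicValRat.of_int]
  positivity

theorem padicValRat_two_zpow (s : ℤ) : padicValRat 2 ((2 : ℚ) ^ s) = s := by
  have h2 : padicValRat 2 (2 : ℚ) = 1 := by
    have := padicValRat.self (p := 2) (by norm_num)
    simpa using this
  have hn : ∀ n : ℕ, padicValRat 2 ((2 : ℚ) ^ n) = n := by
    intro n
    have := padicValRat.pow (p := 2) (q := (2 : ℚ)) (k := n)
    rw [this, h2, mul_one]
  cases s with
  | ofNat n => simpa using hn n
  | negSucc n =>
    rw [zpow_negSucc, padicValRat.inv, hn]
    simp [Int.negSucc_eq]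

theorem VG_two_zpow (s : ℤ) : VG s ((2 : ℚ) ^ s) :=
  Or.inr (padicValRat_two_zpow s).ge

theorem VG_prod {ι : Type*} (S : Finset ι) (f : ι → ℚ) (h : ∀ i ∈ S, VG 0 (f i)) :
    VG 0 (∏ i ∈ S, f i) := by
  classical
  induction S using Finset.induction_on with
  | empty => simpa using VG_int 1
  | insert a S ha ih =>
    rw [Finset.prod_insert ha]
    simpa using (h a (Finset.mem_insert_self _ _)).mul
      (ih fun i hi => h i (Finset.mem_insert_of_mem hi))

end Pool.Agent.Helper5.MD
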